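import Pool.Agent.Run7.h789.RC.Fo

/-!
Function fields which contain the roots of the quotients of general forms are of general type.
-/

set_option autoImplicit false

namespace Run7.h493.TS

open MvPolynomial
open Pool.Agent.NH29.GN (Idx Mon fv)
open Pool.Agent.Run7.h789.RC
open Pool.Agent.Run7.h789.FV (mord)
open Pool.Agent.W602.GT (coords GeneralType LogGeneralType)

theorem gt_of_roots {M r B : ℕ} {V : Set (MvPolynomial (Fin (M + 1)) ℂ)} {d : Fin (r + 1) → ℕ}
    {t : Idx M d → ℂ} {ι : Type} {F : ι → MvPolynomial (Fin (r + 1)) ℂ} (S : Sys V t B F)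
    {L : Type} [Field L] [Algebra ℂ L] {x : Fin (M + 1) → L} (hx : x ≠ 0)
    (hV : OnV (K := ℂ) V x) {w : ℕ} (hw : 0 < w) (htr : Algebra.trdeg ℂ L = w)
    (halg : Algebra.IsAlgebraic (coords ℂ x) L) {m : ℕ}
    (hm : Run7.h34.UG.mm r B * ∑ b, d b ≤ m)
    (hroot : ∀ b c, ∃ ρ : L, ρ ^ m * fv t x c ^ d b = fv t x b ^ d c) : GeneralType ℂ L w := by
  have hLG : LogGeneralType ℂ L w (fun _ => False) :=
    lgt_cover S.gd S.hom S.pos S.deg S.lift hx hV (fun y hy => S.van L x hx hV y hy) hw htr halg
      fun P _ hne => by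
        obtain ⟨hge, c, hc, hco⟩ := S.gd.ord S.hom hx hV P
        obtain ⟨b, hb, hbo⟩ := hne
        refine ⟨b, hb, ?_⟩
        obtain ⟨ρ, hρ⟩ := hroot b c
        have hne0 : fv t x b ^ d c ≠ 0 := pow_ne_zero _ hb
        have hρ0 : ρ ^ m ≠ 0 := by
          intro h
          apply hne0
          rw [← hρ, h, zero_mul]
        have h1 := congrArg P.ord hρ
        rw [P.ord_mul hρ0 (pow_ne_zero _ hc), P.ord_pow, P.ord_pow, P.ord_pow, hco] at h1
        have h2 := hge b hb
        obtain ⟨e, he⟩ : ∃ e : ℤ, e = P.ord (fv t x b) - d b * mord P x := ⟨_, rfl⟩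
        have he0 : 0 < e := by
          rcases lt_or_eq_of_le h2 with h | h
          · omega
          · exact absurd h.symm hbo
        have h3 : (m : ℤ) * P.ord ρ = d c * e := by
          rw [he]
          linear_combination h1
        have hdc : 1 ≤ d c := S.pos c
        have hdc' : (0 : ℤ) < d c := by exact_mod_cast hdc
        have h4 : 0 < (m : ℤ) * P.ord ρ := by
          rw [h3]
          exact mul_pos hdc' he0
        have h5 : 0 < P.ord ρ := by
          by_contra hcon
          push Not at hcon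
          have : (m : ℤ) * P.ord ρ ≤ 0 := mul_nonpos_of_nonneg_of_nonpos (by positivity) hcon
          omega
        have h6 : (m : ℤ) ≤ d c * e := by
          rw [← h3]
          nlinarith [show (0 : ℤ) ≤ m by positivity]
        have h7 : Run7.h34.UG.mm r B * d c ≤ m := by
          refine le_trans (Nat.mul_le_mul_left _ ?_) hm
          exact Finset.single_le_sum (f := d) (fun _ _ => Nat.zero_le _) (Finset.mem_univ c)
        have h8 : ((Run7.h34.UG.mm r B : ℕ) : ℤ) * d c ≤ e * d c := by
          have : ((Run7.h34.UG.mm r B : ℕ) : ℤ) * d c ≤ m := by exact_mod_cast h7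
          rw [mul_comm e]
          exact this.trans h6
        have h9 := le_of_mul_le_mul_right h8 hdc'
        rw [he] at h9
        linarith
  obtain ⟨h1, N, hN, ω, h2, -, h4, h5⟩ := hLG
  exact ⟨h1, N, hN, ω, h2, fun P hP j => h4 P hP not_false j, h5⟩

end Run7.h493.TS
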