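import Pool.Agent.Run7.h493.TS.Fld
import Pool.Agent.Run7.h493.PS.Gen

/-!
Points over the fields of sequences of meromorphic functions.
-/

set_option autoImplicit false

namespace Run7.h493.TS

open Filter Topology Metric Set MvPolynomial
open Pool.Agent.N131.SR (NZ nz_or)
open Pool.Agent.NH29.GN (Idx Mon fv val NoZero Ind)
open Pool.Agent.NH8.GD (Bad pv qn)
open Run7.h493.PS (NoBad)

variable {S : Sy} {M q δ : ℕ} {d : Fin q → ℕ} {t : Idx M d → ℕ → ℂ → ℂ}
  {f : ℕ → ℂ → Fin δ → Fin (M + 1) → ℂ}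

/-- the class of a small sequence -/
noncomputable def mK (g : ℕ → ℂ → ℂ) (hg : Sm S g) : KK S :=
  algebraMap (K₀ S) (KK S) ⟨cs S g, g, hg, rfl⟩

theorem coe_mK (g : ℕ → ℂ → ℂ) (hg : Sm S g) : algebraMap (KK S) (LL S) (mK g hg) = cs S g := rfl

variable (S) in
/-- the constants -/
noncomputable def cK : ℂ →+* KK S where
  toFun a := mK (fun _ _ => a) (sm_const fun _ => a)
  map_one' := by
    apply (algebraMap (KK S) (LL S)).injective
    rw [map_one]
    exact map_one (cst S)
  map_mul' a b := by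
    apply (algebraMap (KK S) (LL S)).injective
    rw [map_mul]
    exact map_mul (cst S) a b
  map_zero' := by
    apply (algebraMap (KK S) (LL S)).injective
    rw [map_zero]
    exact map_zero (cst S)
  map_add' a b := by
    apply (algebraMap (KK S) (LL S)).injective
    rw [map_add]
    exact map_add (cst S) a b

theorem coe_cK (a : ℂ) : algebraMap (KK S) (LL S) (cK S a) = cst S a := rfl

/-- the coefficients -/
noncomputable def tK (h : ∀ s, Sm S (t s)) (s : Idx M d) : KK S := mK (t s) (h s)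

variable (S) in
/-- the points -/
noncomputable def xL (f : ℕ → ℂ → Fin δ → Fin (M + 1) → ℂ) (l : Fin δ) (i : Fin (M + 1)) : LL S :=
  cs S fun m z => f m z l i

theorem cs_val (l : Fin δ) (β : Fin (M + 1) →₀ ℕ) :
    val (xL S f l) β = cs S (fun m z => val (f m z l) β) := by
  unfold val xL
  rw [cs_prod Finset.univ fun i m z => f m z l i ^ β i]
  exact Finset.prod_congr rfl fun i _ => (cs_pow (fun m z => f m z l i) _).symm

theorem cs_fv (h : ∀ s, Sm S (t s)) (l : Fin δ) (b : Fin q) :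
    fv (tK h) (xL S f l) b = cs S (fun m z => fv (fun s => t s m z) (f m z l) b) := by
  unfold fv
  rw [cs_sum Finset.univ fun β m z => algebraMap ℂ ℂ (t ⟨b, β⟩ m z) * val (f m z l) β.1]
  refine Finset.sum_congr rfl fun β _ => ?_
  rw [cs_val]
  have h1 : algebraMap (KK S) (LL S) (tK h ⟨b, β⟩) = cs S (t ⟨b, β⟩) := rfl
  rw [h1, ← cs_mul]
  rfl

/-- the products of the values -/
noncomputable def pw (t : Idx M d → ℕ → ℂ → ℂ) (f : ℕ → ℂ → Fin δ → Fin (M + 1) → ℂ) (b : Fin q)
    (m : ℕ) (z : ℂ) : ℂ := ∏ l, fv (fun s => t s m z) (f m z l) b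

theorem cs_pv (h : ∀ s, Sm S (t s)) (b : Fin q) : pv (tK h) (xL S f) b = cs S (pw t f b) := by
  unfold pv
  have h1 : cs S (pw t f b) = ∏ l, cs S (fun m z => fv (fun s => t s m z) (f m z l) b) :=
    cs_prod Finset.univ fun l m z => fv (fun s => t s m z) (f m z l) b
  rw [h1]
  exact Finset.prod_congr rfl fun l _ => cs_fv h l b

theorem cs_qn (h : ∀ s, Sm S (t s)) (b₀ b : Fin q) :
    qn (tK h) (xL S f) b₀ b = cs S (fun m z => pw t f b m z ^ d b₀ / pw t f b₀ m z ^ d b) := by
  unfold qn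
  rw [cs_pv, cs_pv, cs_div (fun m z => pw t f b m z ^ d b₀) (fun m z => pw t f b₀ m z ^ d b), cs_pow,
    cs_pow]

/-- the hypotheses for a sequence of multivalued curves -/
structure Cur (k : Type) [Field k] [Algebra k ℂ] (S : Sy) (V : Set (MvPolynomial (Fin (M + 1)) k))
    (Φ : MvPolynomial (Idx M d) k) (t : Idx M d → ℕ → ℂ → ℂ)
    (f : ℕ → ℂ → Fin δ → Fin (M + 1) → ℂ) : Prop where
  small : ∀ s, Sm S (t s)
  gen : ∀ m, ∀ᶠ z in codiscrete ℂ, aeval (fun s => t s m z) Φ ≠ 0
  ne : ∀ m z l, f m z l ≠ 0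
  onV : ∀ m z l, ∀ H ∈ V, aeval (f m z l) H = 0
  off : ∀ m, ∀ᶠ z in codiscrete ℂ, ∀ l b, fv (fun s => t s m z) (f m z l) b ≠ 0
  unit : ∀ b₀ b, ∃ u : ℕ → ℂ → ℂ, (∀ m, Meromorphic (u m)) ∧ Sm S (fun m => logDeriv (u m)) ∧
    ∀ m, ∀ᶠ z in codiscrete ℂ, u m z = pw t f b m z ^ d b₀ / pw t f b₀ m z ^ d b

/-- the points are constant over the algebraic closure of the field of the small functions -/
theorem cst_of {k : Type} [Field k] [Algebra k ℂ] {V : Set (MvPolynomial (Fin (M + 1)) k)}
    {Φ : MvPolynomial (Idx M d) k} (hΦ : NoBad k M q δ V d Φ) (h : Cur k S V Φ t f) :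
    ∀ l, ∃ (c : LL S) (y : Fin (M + 1) → KK S),
      xL S f l = fun i => c * algebraMap (KK S) (LL S) (y i) := by
  classical
  by_contra hnc
  let _ : Algebra k (KK S) := ((cK S).comp (algebraMap k ℂ)).toAlgebra
  have hal : ∀ a : k, algebraMap (KK S) (LL S) (algebraMap k (KK S) a) = cst S (algebraMap k ℂ a) :=
    fun _ => rfl
  have hcl : ∀ P : MvPolynomial (Idx M d) k,
      algebraMap (KK S) (LL S) (aeval (tK h.small) P) =
        cs S (fun m z => aeval (fun s => t s m z) P) := by
    intro P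
    induction P using MvPolynomial.induction_on with
    | C a =>
      rw [algHom_C, hal, cst_apply]
      simp only [algHom_C]
    | add P Q hP hQ =>
      simp only [map_add]
      rw [hP, hQ, ← cs_add]
    | mul_X P s hP =>
      simp only [map_mul, aeval_X]
      rw [hP, cs_mul]
      rfl
  have hoff : ∀ l b, ∀ᶠ m in (S.U : Filter ℕ), ∀ᶠ z in codiscrete ℂ,
      fv (fun s => t s m z) (f m z l) b ≠ 0 := fun l b =>
    Eventually.of_forall fun m => (h.off m).mono fun z hz => hz l b
  refine hΦ (KK S) (LL S) (tK h.small) ?_ (xL S f) ⟨?_, ?_, ?_, hnc, ?_⟩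
  · intro h0
    have h1 : cs S (fun m z => aeval (fun s => t s m z) Φ) = 0 := by
      rw [← hcl, h0, map_zero]
    exact cs_ne_of (Eventually.of_forall h.gen) h1
  · intro l H hH
    have h1 : ∀ P : MvPolynomial (Fin (M + 1)) k,
        eval₂ ((algebraMap (KK S) (LL S)).comp (algebraMap k (KK S))) (xL S f l) P =
        cs S (fun m z => aeval (f m z l) P) := by
      intro P
      induction P using MvPolynomial.induction_on with
      | C a =>
        rw [eval₂_C, RingHom.comp_apply, hal, cst_apply]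
        simp only [algHom_C]
      | add P Q hP hQ =>
        simp only [eval₂_add, map_add]
        rw [hP, hQ, ← cs_add]
      | mul_X P i hP =>
        simp only [eval₂_mul, eval₂_X, map_mul, aeval_X]
        rw [hP, cs_mul]
        rfl
    rw [h1, cs_zero]
    exact Eventually.of_forall fun p => h.onV p.1 p.2 l H hH
  · intro l b
    rw [cs_fv]
    exact cs_ne_of (hoff l b)
  · intro l h0
    have h1 : ∀ᶠ p in (VV S : Filter (ℕ × ℂ)), ∀ i, f p.1 p.2 l i = 0 := by
      rw [eventually_all]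
      intro i
      exact cs_zero.1 (congrFun h0 i)
    obtain ⟨p, hp⟩ := h1.exists
    exact h.ne p.1 p.2 l (funext hp)
  · intro b₀
    choose u hu1 hu2 hu3 using fun b => h.unit b₀ b
    have hpw : ∀ b m, ∀ᶠ z in codiscrete ℂ, pw t f b m z ≠ 0 := fun b m =>
      (h.off m).mono fun z hz => Finset.prod_ne_zero_iff.2 fun l _ => hz l b
    refine ind_seq u hu1 (fun b => cs_ne_of (Eventually.of_forall fun m => ?_)) hu2 _ fun b => ?_
    · filter_upwards [hu3 b m, hpw b m, hpw b₀ m] with z h1 h2 h3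
      rw [h1]
      exact div_ne_zero (pow_ne_zero _ h2) (pow_ne_zero _ h3)
    · rw [cs_qn]
      exact (cs_eq_of (Eventually.of_forall (hu3 b))).symm

end Run7.h493.TS
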