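import Pool.Agent.Run7.h493.PS.Gen

/-!
General coefficients: all strata.
-/

set_option autoImplicit false

namespace Run7.h493.TS

open MvPolynomial Filter
open Pool.Agent.NH29.GN (Idx Mon fv val NoZero Ind quo Num2 Bad UPr)
open Pool.Agent.NH29.GN.Stb2
open Run7.h493.PS (MultiHom fv_scale ind_scale prod_idx)

variable {k : Type} [Field k] {M q : ℕ} {d : Fin q → ℕ}

/-- there are no nonconstant points on the strata, and no common zeros -/
structure NB (k K : Type) [Field k] [Field K] [Algebra k K] (V : Set (MvPolynomial (Fin (M + 1)) k))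
    (t : Idx M d → K) : Prop where
  bad : ∀ (L : Type) [Field L] [Algebra K L] (C : Finset (Fin q)), C ≠ Finset.univ →
    ∀ x : Fin (M + 1) → L, ¬ Bad k K L V C t x
  ncz : ∀ y : Fin (M + 1) → K, (∀ H ∈ V, aeval y H = 0) → (∀ i, fv t y i = 0) → y = 0
  nz : ∀ b, ∃ β, t ⟨b, β⟩ ≠ 0

/-- for general coefficients -/
def AllNB (k : Type) [Field k] {M q : ℕ} (V : Set (MvPolynomial (Fin (M + 1)) k)) {d : Fin q → ℕ}
    (Φ : MvPolynomial (Idx M d) k) : Prop :=
  ∀ (K : Type) [Field K] [Algebra k K] [IsAlgClosed K] (t : Idx M d → K), aeval t Φ ≠ 0 →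
    NB k K V t

theorem exists_bad (k : Type) [Field k] [CharZero k] {M n q : ℕ}
    {V : Set (MvPolynomial (Fin (M + 1)) k)} (hV : ∀ H ∈ V, ∃ e, H.IsHomogeneous e)
    {ℓ : Fin (n + 1) → MvPolynomial (Fin (M + 1)) k} (hℓ : ∀ j, (ℓ j).IsHomogeneous 1)
    (hN : NoZero V ℓ) {d : Fin q → ℕ} (hd : ∀ i, 1 ≤ d i) (hq : n + 1 ≤ q) (C : Finset (Fin q))
    (hnum : Num2 n d C) :
    ∃ Φ : MvPolynomial (Idx M d) k, Φ ≠ 0 ∧ ∀ (K L : Type) [Field K] [Field L] [Algebra k K]
      [Algebra K L] [IsAlgClosed K] (t : Idx M d → K), aeval t Φ ≠ 0 →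
        ∀ x : Fin (M + 1) → L, ¬ Bad k K L V C t x := by
  by_contra hcon
  push Not at hcon
  obtain ⟨K', L', _, _, _, _, _, t, x, ht, hx⟩ := Pool.Agent.NH29.GN.stb2 k M q V d C
    (fun Q hQ => by
      obtain ⟨K, L, i1, i2, i3, i4, i5, t, h2, x, h3⟩ := hcon Q hQ
      exact ⟨K, L, i1, i2, i3, i4, i5, t, x, h2, h3⟩)
  exact Pool.Agent.NH29.GN.stc2 Pool.Agent.NH29.GN.der Pool.Agent.NH29.GN.alg
    (Pool.Agent.NH29.GN.int (Pool.Agent.NH29.GN.ncz Pool.Agent.NH29.GN.alg) Pool.Agent.NH29.GN.alg)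
    Pool.Agent.NH29.GN.rel Pool.Agent.NH29.GN.lin2 Pool.Agent.NH29.GN.hilb
    k K' L' M n q V hV ℓ hℓ hN hq d hd C hnum t ht x hx

/-- general forms have no common zero -/
theorem exists_ncz (k : Type) [Field k] [CharZero k] {M n q : ℕ}
    {V : Set (MvPolynomial (Fin (M + 1)) k)} (hV : ∀ H ∈ V, ∃ e, H.IsHomogeneous e)
    {ℓ : Fin (n + 1) → MvPolynomial (Fin (M + 1)) k} (hℓ : ∀ j, (ℓ j).IsHomogeneous 1)
    (hN : NoZero V ℓ) {d : Fin q → ℕ} (hd : ∀ i, 1 ≤ d i) (hq : n + 1 ≤ q) :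
    ∃ Φ : MvPolynomial (Idx M d) k, Φ ≠ 0 ∧ ∀ (K : Type) [Field K] [Algebra k K] [IsAlgClosed K]
      (t : Idx M d → K), aeval t Φ ≠ 0 → ∀ y : Fin (M + 1) → K, (∀ H ∈ V, aeval y H = 0) →
        (∀ i, fv t y i = 0) → y = 0 := by
  classical
  by_contra hcon
  push Not at hcon
  let I : Type := {Q : MvPolynomial (Idx M d) k // Q ≠ 0}
  let A : I → Set I := fun P => {Q : I | P.1 ∣ Q.1}
  have : Nonempty I := ⟨⟨1, one_ne_zero⟩⟩
  have hdir : Directed (· ≥ ·) (fun P : I => (𝓟 (A P) : Filter I)) := by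
    intro P P'
    refine ⟨⟨P.1 * P'.1, mul_ne_zero P.2 P'.2⟩, ?_, ?_⟩
    · show 𝓟 _ ≤ 𝓟 _
      rw [principal_mono]
      intro Q hQ
      exact (Dvd.intro _ rfl).trans hQ
    · show 𝓟 _ ≤ 𝓟 _
      rw [principal_mono]
      intro Q hQ
      exact (Dvd.intro_left _ rfl).trans hQ
  have : NeBot (⨅ P : I, (𝓟 (A P) : Filter I)) := by
    apply iInf_neBot_of_directed' hdir
    intro P
    rw [principal_neBot_iff]
    exact ⟨P, dvd_refl _⟩
  let U : Ultrafilter I := Ultrafilter.of (⨅ P : I, (𝓟 (A P) : Filter I))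
  have hU : ∀ P : I, ∀ᶠ Q in (U : Filter I), P.1 ∣ Q.1 := by
    intro P
    have h1 : A P ∈ (⨅ P : I, (𝓟 (A P) : Filter I)) :=
      mem_iInf_of_mem P (mem_principal_self _)
    exact (Ultrafilter.of_le (⨅ P : I, (𝓟 (A P) : Filter I))) h1
  choose K iK iA iC t ht y hy1 hy2 hy3 using fun Q : I => hcon Q.1 Q.2
  let _ : Algebra k (UPr U K) := ((pr U K).comp (algebraMap k (∀ i, K i))).toAlgebra
  have hal1 : ∀ a : k, algebraMap k (UPr U K) a =
      pr U K (fun i => algebraMap k (K i) a) := fun _ => rfl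
  obtain ⟨t', ht'⟩ : ∃ t' : Idx M d → UPr U K, t' = fun j => pr U K (fun Q => t Q j) := ⟨_, rfl⟩
  obtain ⟨y', hy'⟩ : ∃ y' : Fin (M + 1) → UPr U K, y' = fun j => pr U K (fun Q => y Q j) := ⟨_, rfl⟩
  have hfv : ∀ i, fv t' y' i = pr U K (fun Q => fv (t Q) (y Q) i) := by
    intro i
    unfold fv
    rw [pr_sum]
    apply Finset.sum_congr rfl
    intro β _
    rw [pr_mul, ht', hy']
    congr 1
    unfold val
    rw [pr_prod]
    apply Finset.prod_congr rfl
    intro j _
    rw [pr_pow]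
  have hev : ∀ P : MvPolynomial (Idx M d) k, aeval t' P = pr U K (fun Q => aeval (t Q) P) := by
    intro P
    induction P using MvPolynomial.induction_on with
    | C a =>
      simp only [algHom_C]
      exact hal1 a
    | add p p' h h' =>
      simp only [map_add]
      rw [h, h', ← map_add]
      rfl
    | mul_X p n h =>
      simp only [map_mul, aeval_X]
      rw [h, pr_mul, ht']
  have hev' : ∀ P : MvPolynomial (Fin (M + 1)) k, aeval y' P = pr U K (fun Q => aeval (y Q) P) := by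
    intro P
    induction P using MvPolynomial.induction_on with
    | C a =>
      simp only [algHom_C]
      exact hal1 a
    | add p p' h h' =>
      simp only [map_add]
      rw [h, h', ← map_add]
      rfl
    | mul_X p n h =>
      simp only [map_mul, aeval_X]
      rw [h, pr_mul, hy']
  have hcl : IsAlgClosed (UPr U K) := closed U K
  have hai : AlgebraicIndependent k t' := by
    rw [algebraicIndependent_iff]
    intro P hP
    by_contra hne
    rw [hev, pr_eq_zero] at hP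
    obtain ⟨Q, hQ1, hQ2⟩ := (hP.and (hU ⟨P, hne⟩)).exists
    obtain ⟨R, hR⟩ := hQ2
    apply ht Q
    have h2 : Q.1 = P * R := hR
    rw [h2, map_mul, hQ1, zero_mul]
  have h0 := Pool.Agent.NH29.GN.ncz Pool.Agent.NH29.GN.alg k (UPr U K) M n q V hV ℓ hℓ hN hq d hd t'
    hai y' (fun H hH => by
      rw [hev', pr_eq_zero]
      exact Eventually.of_forall fun Q => hy1 Q H hH) (fun i => by
      rw [hfv, pr_eq_zero]
      exact Eventually.of_forall fun Q => hy2 Q i)
  have h1 : ∀ᶠ Q in (U : Filter I), ∀ j, y Q j = 0 := by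
    rw [eventually_all]
    intro j
    have h2 : y' j = 0 := congrFun h0 j
    rwa [hy', pr_eq_zero] at h2
  obtain ⟨Q, hQ⟩ := h1.exists
  exact hy3 Q (funext hQ)

theorem exists_allNB (k : Type) [Field k] [CharZero k] {M n q : ℕ}
    {V : Set (MvPolynomial (Fin (M + 1)) k)} (hV : ∀ H ∈ V, ∃ e, H.IsHomogeneous e)
    {ℓ : Fin (n + 1) → MvPolynomial (Fin (M + 1)) k} (hℓ : ∀ j, (ℓ j).IsHomogeneous 1)
    (hN : NoZero V ℓ) {d : Fin q → ℕ} (hd : ∀ i, 1 ≤ d i) (hq : n + 1 ≤ q)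
    (hnum : ∀ C : Finset (Fin q), C ≠ Finset.univ → Num2 n d C) :
    ∃ Φ : MvPolynomial (Idx M d) k, Φ ≠ 0 ∧ AllNB k V Φ := by
  classical
  have h1 : ∀ C : Finset (Fin q), ∃ Φ : MvPolynomial (Idx M d) k, Φ ≠ 0 ∧ (C ≠ Finset.univ →
      ∀ (K L : Type) [Field K] [Field L] [Algebra k K] [Algebra K L] [IsAlgClosed K]
        (t : Idx M d → K), aeval t Φ ≠ 0 → ∀ x : Fin (M + 1) → L, ¬ Bad k K L V C t x) := by
    intro C
    by_cases hC : C = Finset.univ
    · exact ⟨1, one_ne_zero, fun h => absurd hC h⟩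
    · obtain ⟨Φ, h2, h3⟩ := exists_bad k hV hℓ hN hd hq C (hnum C hC)
      exact ⟨Φ, h2, fun _ => h3⟩
  choose Φ hΦ hB using h1
  obtain ⟨Ψ, hΨ, hz⟩ := exists_ncz k hV hℓ hN hd hq
  have hmon : ∀ b : Fin q, ∃ β : Mon M (d b), True := fun b =>
    ⟨⟨Finsupp.single 0 (d b), by rw [Finsupp.degree_single]⟩, trivial⟩
  choose β _ using hmon
  refine ⟨(∏ b, X (⟨b, β b⟩ : Idx M d)) * (Ψ * ∏ C, Φ C), mul_ne_zero
    (Finset.prod_ne_zero_iff.2 fun b _ => X_ne_zero _)
    (mul_ne_zero hΨ (Finset.prod_ne_zero_iff.2 fun C _ => hΦ C)), ?_⟩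
  intro K _ _ _ t ht
  rw [map_mul, map_mul, map_prod, map_prod] at ht
  have h2 := right_ne_zero_of_mul ht
  refine ⟨fun L _ _ C hC => ?_, hz K t (left_ne_zero_of_mul h2), fun b => ⟨β b, ?_⟩⟩
  · exact hB C hC K L t (Finset.prod_ne_zero_iff.1 (right_ne_zero_of_mul h2) C (Finset.mem_univ C))
  · have h3 := Finset.prod_ne_zero_iff.1 (left_ne_zero_of_mul ht) b (Finset.mem_univ b)
    rwa [aeval_X] at h3

/-! ### Scaling -/

theorem bad_scale {K L : Type} [Field K] [Field L] [Algebra k K] [Algebra K L]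
    {V : Set (MvPolynomial (Fin (M + 1)) k)} {C : Finset (Fin q)} {t : Idx M d → K}
    {x : Fin (M + 1) → L}
    (h : Bad k K L V C t x) (c : Fin q → K) (hc : ∀ b, c b ≠ 0) :
    Bad k K L V C (fun s : Idx M d => c s.1 * t s) x := by
  have hc' : ∀ b, algebraMap K L (c b) ≠ 0 := fun b => by
    rw [Ne, map_eq_zero]
    exact hc b
  refine ⟨h.onV, fun b hb => ?_, fun b hb => ?_, h.ne, h.noncst, fun b₀ hb₀ => ?_⟩
  · rw [fv_scale, h.onC b hb, mul_zero]
  · rw [fv_scale]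
    exact mul_ne_zero (hc' b) (h.off b hb)
  · refine ind_scale (fun b => if b ∈ C then 1 else (c b) ^ d b₀ / (c b₀) ^ d b)
      (fun b => ?_) (fun b => ?_) (h.ind b₀ hb₀)
    · split_ifs
      · exact one_ne_zero
      · exact div_ne_zero (pow_ne_zero _ (hc b)) (pow_ne_zero _ (hc b₀))
    · unfold quo
      split_ifs with hb
      · rw [map_one, one_mul]
      · rw [fv_scale, fv_scale, mul_pow, mul_pow, map_div₀, map_pow, map_pow]
        exact mul_div_mul_comm _ _ _ _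

theorem nb_scale {K : Type} [Field K] [Algebra k K] {V : Set (MvPolynomial (Fin (M + 1)) k)}
    {t : Idx M d → K} {c : Fin q → K} (hc : ∀ b, c b ≠ 0)
    (h : NB k K V (fun s : Idx M d => c s.1 * t s)) : NB k K V t := by
  refine ⟨fun L _ _ C hC x hx => h.bad L C hC x (bad_scale hx c hc), fun y hy hz =>
    h.ncz y hy fun i => ?_, fun b => ?_⟩
  · rw [fv_scale, hz i, mul_zero]
  · obtain ⟨β, hβ⟩ := h.nz b
    exact ⟨β, right_ne_zero_of_mul hβ⟩

/-- a multihomogeneous component -/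
theorem exists_multi {V : Set (MvPolynomial (Fin (M + 1)) k)} {Φ : MvPolynomial (Idx M d) k}
    (hΦ : Φ ≠ 0) (hB : AllNB k V Φ) :
    ∃ (Ψ : MvPolynomial (Idx M d) k) (m : Fin q → ℕ), Ψ ≠ 0 ∧ MultiHom Ψ m ∧ AllNB k V Ψ := by
  classical
  obtain ⟨α₀, hα₀⟩ := exists_coeff_ne_zero hΦ
  obtain ⟨dg, hdg⟩ : ∃ dg : (Idx M d →₀ ℕ) → Fin q →₀ ℕ, ∀ α b,
      dg α b = ∑ β : Mon M (d b), α ⟨b, β⟩ :=
    ⟨fun α => Finsupp.equivFunOnFinite.symm fun b => ∑ β : Mon M (d b), α ⟨b, β⟩, fun _ _ => rfl⟩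
  obtain ⟨Ψ, hΨ⟩ : ∃ Ψ : MvPolynomial (Idx M d) k, Ψ = ∑ α ∈ Φ.support.filter
      (fun α => dg α = dg α₀), monomial α (coeff α Φ) := ⟨_, rfl⟩
  have hcoeff : ∀ γ, coeff γ Ψ = if dg γ = dg α₀ then coeff γ Φ else 0 := by
    intro γ
    rw [hΨ, coeff_sum]
    simp only [coeff_monomial]
    rw [Finset.sum_ite_eq']
    by_cases h1 : dg γ = dg α₀
    · rw [if_pos h1]
      split_ifs with h2
      · rfl
      · by_contra h3
        exact h2 (Finset.mem_filter.2 ⟨mem_support_iff.2 (Ne.symm h3), h1⟩)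
    · rw [if_neg h1, if_neg]
      intro h2
      exact h1 (Finset.mem_filter.1 h2).2
  refine ⟨Ψ, dg α₀, ?_, ?_, ?_⟩
  · intro h0
    have h1 := hcoeff α₀
    rw [h0, coeff_zero, if_pos rfl] at h1
    exact hα₀ h1.symm
  · intro α hα b
    rw [mem_support_iff, hcoeff] at hα
    have h1 : dg α = dg α₀ := by
      by_contra h1
      rw [if_neg h1] at hα
      exact hα rfl
    rw [← hdg, h1]
  · intro K _ _ _ t ht
    -- the polynomial in the scaling factors
    obtain ⟨P, hP⟩ : ∃ P : MvPolynomial (Fin q) K,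
        P = aeval (fun s : Idx M d => C (t s) * X s.1) Φ := ⟨_, rfl⟩
    have hmono : ∀ α : Idx M d →₀ ℕ, ∏ s : Idx M d, (C (t s) * X s.1 : MvPolynomial (Fin q) K) ^ α s =
        monomial (dg α) (∏ s, t s ^ α s) := by
      intro α
      simp only [mul_pow]
      rw [Finset.prod_mul_distrib, prod_idx (fun s => (X s.1 : MvPolynomial (Fin q) K) ^ α s)]
      have h1 : ∀ b, ∏ β : Mon M (d b), (X b : MvPolynomial (Fin q) K) ^ α ⟨b, β⟩ = X b ^ dg α b := by
        intro b
        rw [Finset.prod_pow_eq_pow_sum, hdg]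
      have h2 : ∏ s : Idx M d, (C (t s) : MvPolynomial (Fin q) K) ^ α s = C (∏ s, t s ^ α s) := by
        rw [map_prod]
        simp only [map_pow]
      rw [h2, Finset.prod_congr rfl fun b _ => h1 b, monomial_eq, Finsupp.prod_fintype]
      intro i
      exact pow_zero _
    have hcP : coeff (dg α₀) P = aeval t Ψ := by
      rw [hP, aeval_def, eval₂_eq', coeff_sum, hΨ, map_sum, Finset.sum_filter]
      refine Finset.sum_congr rfl fun α _ => ?_
      rw [hmono, IsScalarTower.algebraMap_apply k K (MvPolynomial (Fin q) K), algebraMap_eq,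
        coeff_C_mul, coeff_monomial]
      split_ifs with h1
      · rw [aeval_monomial, Finsupp.prod_fintype]
        intro i
        exact pow_zero _
      · rw [mul_zero]
    have hP0 : P * ∏ b, X b ≠ 0 := by
      refine mul_ne_zero ?_ (Finset.prod_ne_zero_iff.2 fun b _ => X_ne_zero b)
      intro h0
      rw [h0, coeff_zero] at hcP
      exact ht hcP.symm
    have hinf : Infinite K := IsAlgClosed.instInfinite
    obtain ⟨c, hc⟩ : ∃ c : Fin q → K, eval c (P * ∏ b, X b) ≠ 0 := by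
      by_contra hcon
      push Not at hcon
      exact hP0 (MvPolynomial.funext fun c => by rw [hcon c, map_zero])
    rw [map_mul, map_prod] at hc
    have hc1 : ∀ b, c b ≠ 0 := by
      intro b
      have := Finset.prod_ne_zero_iff.1 (right_ne_zero_of_mul hc) b (Finset.mem_univ b)
      rwa [eval_X] at this
    have hc2 : aeval (fun s : Idx M d => c s.1 * t s) Φ ≠ 0 := by
      have h1 := left_ne_zero_of_mul hc
      have h2 : eval c P = aeval (fun s : Idx M d => c s.1 * t s) Φ := by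
        rw [hP, aeval_def, eval₂_eq', map_sum, aeval_def, eval₂_eq']
        refine Finset.sum_congr rfl fun α _ => ?_
        rw [map_mul, map_prod, IsScalarTower.algebraMap_apply k K (MvPolynomial (Fin q) K),
          algebraMap_eq, eval_C]
        congr 1
        refine Finset.prod_congr rfl fun s _ => ?_
        rw [map_pow, map_mul, eval_C, eval_X, mul_comm (t s)]
      rwa [h2] at h1
    exact nb_scale hc1 (hB K _ hc2)

end Run7.h493.TS
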