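import Pool.Agent.Run7.h493.TS.Core
import Pool.Agent.Run7.h493.TS.Strat

/-!
Points over the fields of sequences of meromorphic functions: the strata.
-/

set_option autoImplicit false

namespace Run7.h493.TS

open Filter Topology Metric Set MvPolynomial
open Pool.Agent.N131.SR (NZ nz_or)
open Pool.Agent.NH29.GN (Idx Mon fv val NoZero Ind quo Bad)

variable {S : Sy} {M q : ℕ} {d : Fin q → ℕ} {t : Idx M d → ℕ → ℂ → ℂ}
  {f : ℕ → ℂ → Fin (M + 1) → ℂ} {C : Finset (Fin q)}

variable (S) in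
/-- the point -/
noncomputable def xx (f : ℕ → ℂ → Fin (M + 1) → ℂ) (i : Fin (M + 1)) : LL S :=
  cs S fun m z => f m z i

theorem cs_val1 (β : Fin (M + 1) →₀ ℕ) : val (xx S f) β = cs S (fun m z => val (f m z) β) := by
  unfold val xx
  rw [cs_prod Finset.univ fun i m z => f m z i ^ β i]
  exact Finset.prod_congr rfl fun i _ => (cs_pow (fun m z => f m z i) _).symm

theorem cs_fv1 (h : ∀ s, Sm S (t s)) (b : Fin q) :
    fv (tK h) (xx S f) b = cs S (fun m z => fv (fun s => t s m z) (f m z) b) := by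
  unfold fv
  rw [cs_sum Finset.univ fun β m z => algebraMap ℂ ℂ (t ⟨b, β⟩ m z) * val (f m z) β.1]
  refine Finset.sum_congr rfl fun β _ => ?_
  rw [cs_val1]
  have h1 : algebraMap (KK S) (LL S) (tK h ⟨b, β⟩) = cs S (t ⟨b, β⟩) := rfl
  rw [h1, ← cs_mul]
  rfl

/-- the hypotheses for a sequence of curves -/
structure CurC (k : Type) [Field k] [Algebra k ℂ] (S : Sy) (V : Set (MvPolynomial (Fin (M + 1)) k))
    (C : Finset (Fin q)) (Φ : MvPolynomial (Idx M d) k) (t : Idx M d → ℕ → ℂ → ℂ)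
    (f : ℕ → ℂ → Fin (M + 1) → ℂ) : Prop where
  small : ∀ s, Sm S (t s)
  gen : ∀ m, ∀ᶠ z in codiscrete ℂ, aeval (fun s => t s m z) Φ ≠ 0
  ne : ∀ m z, f m z ≠ 0
  onV : ∀ m z, ∀ H ∈ V, aeval (f m z) H = 0
  onC : ∀ m z, ∀ c ∈ C, fv (fun s => t s m z) (f m z) c = 0
  off : ∀ m, ∀ᶠ z in codiscrete ℂ, ∀ b, b ∉ C → fv (fun s => t s m z) (f m z) b ≠ 0
  unit : ∀ b₀, b₀ ∉ C → ∀ b, b ∉ C → ∃ u : ℕ → ℂ → ℂ, (∀ m, Meromorphic (u m)) ∧
    Sm S (fun m => logDeriv (u m)) ∧ ∀ m, ∀ᶠ z in codiscrete ℂ,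
      u m z = fv (fun s => t s m z) (f m z) b ^ d b₀ / fv (fun s => t s m z) (f m z) b₀ ^ d b

theorem sm_ld_one : Sm S fun _ => logDeriv fun _ : ℂ => (1 : ℂ) := by
  have h1 : (fun _ : ℕ => logDeriv fun _ : ℂ => (1 : ℂ)) = fun (_ : ℕ) (_ : ℂ) => (0 : ℂ) := by
    funext m z
    rw [logDeriv_apply, deriv_const, zero_div]
  rw [h1]
  exact sm_const fun _ => 0

/-- the points are constant over the algebraic closure of the field of the small functions -/
theorem cst_ofC {k : Type} [Field k] [Algebra k ℂ] {V : Set (MvPolynomial (Fin (M + 1)) k)}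
    {Φ : MvPolynomial (Idx M d) k} (hΦ : AllNB k V Φ) (hC : C ≠ Finset.univ)
    (h : CurC k S V C Φ t f) :
    ∃ (c : LL S) (y : Fin (M + 1) → KK S),
      xx S f = fun i => c * algebraMap (KK S) (LL S) (y i) := by
  classical
  by_contra hnc
  push Not at hnc
  let _ : Algebra k (KK S) := ((cK S).comp (algebraMap k ℂ)).toAlgebra
  have hal : ∀ a : k, algebraMap (KK S) (LL S) (algebraMap k (KK S) a) = cst S (algebraMap k ℂ a) :=
    fun _ => rfl
  have hcl : ∀ P : MvPolynomial (Idx M d) k,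
      algebraMap (KK S) (LL S) (aeval (tK h.small) P) =
        cs S (fun m z => aeval (fun s => t s m z) P) := by
    intro P
    induction P using MvPolynomial.induction_on with
    | C a =>
      rw [algHom_C, hal, cst_apply]
      simp only [algHom_C]
    | add P Q hP hQ =>
      simp only [map_add]
      rw [hP, hQ, ← cs_add]
    | mul_X P s hP =>
      simp only [map_mul, aeval_X]
      rw [hP, cs_mul]
      rfl
  refine (hΦ (KK S) (tK h.small) ?_).bad (LL S) C hC (xx S f) ⟨?_, ?_, ?_, ?_, hnc, ?_⟩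
  · intro h0
    have h1 : cs S (fun m z => aeval (fun s => t s m z) Φ) = 0 := by
      rw [← hcl, h0, map_zero]
    exact cs_ne_of (Eventually.of_forall h.gen) h1
  · intro H hH
    have h1 : ∀ P : MvPolynomial (Fin (M + 1)) k,
        eval₂ ((algebraMap (KK S) (LL S)).comp (algebraMap k (KK S))) (xx S f) P =
        cs S (fun m z => aeval (f m z) P) := by
      intro P
      induction P using MvPolynomial.induction_on with
      | C a =>
        rw [eval₂_C, RingHom.comp_apply, hal, cst_apply]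
        simp only [algHom_C]
      | add P Q hP hQ =>
        simp only [eval₂_add, map_add]
        rw [hP, hQ, ← cs_add]
      | mul_X P i hP =>
        simp only [eval₂_mul, eval₂_X, map_mul, aeval_X]
        rw [hP, cs_mul]
        rfl
    rw [h1, cs_zero]
    exact Eventually.of_forall fun p => h.onV p.1 p.2 H hH
  · intro b hb
    rw [cs_fv1, cs_zero]
    exact Eventually.of_forall fun p => h.onC p.1 p.2 b hb
  · intro b hb
    rw [cs_fv1]
    exact cs_ne_of (Eventually.of_forall fun m => (h.off m).mono fun z hz => hz b hb)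
  · intro h0
    have h1 : ∀ᶠ p in (VV S : Filter (ℕ × ℂ)), ∀ i, f p.1 p.2 i = 0 := by
      rw [eventually_all]
      intro i
      exact cs_zero.1 (congrFun h0 i)
    obtain ⟨p, hp⟩ := h1.exists
    exact h.ne p.1 p.2 (funext hp)
  · intro b₀ hb₀
    have hex : ∀ b, ∃ u : ℕ → ℂ → ℂ, (∀ m, Meromorphic (u m)) ∧ Sm S (fun m => logDeriv (u m)) ∧
        cs S u ≠ 0 ∧ quo C (tK h.small) (xx S f) b₀ b = cs S u := by
      intro b
      by_cases hb : b ∈ C
      · refine ⟨fun _ _ => 1, fun _ => Meromorphic.const 1, sm_ld_one, ?_, ?_⟩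
        · rw [cs_cst_one]
          exact one_ne_zero
        · unfold quo
          rw [if_pos hb, cs_cst_one]
      · obtain ⟨u, hu1, hu2, hu3⟩ := h.unit b₀ hb₀ b hb
        refine ⟨u, hu1, hu2, cs_ne_of (Eventually.of_forall fun m => ?_), ?_⟩
        · filter_upwards [hu3 m, h.off m] with z h1 h2
          rw [h1]
          exact div_ne_zero (pow_ne_zero _ (h2 b hb)) (pow_ne_zero _ (h2 b₀ hb₀))
        · unfold quo
          rw [if_neg hb, cs_fv1, cs_fv1, ← cs_pow, ← cs_pow, ← cs_div]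
          exact (cs_eq_of (Eventually.of_forall hu3)).symm
    choose u hu1 hu2 hu3 hu4 using hex
    exact ind_seq u hu1 hu3 hu2 _ hu4

end Run7.h493.TS
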