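import Pool.Agent.Run7.h493.TS.Filt

/-!
The characteristic of a holomorphic curve (the proofs are the ones of `Pool.Agent.N131.SR`), and
truncated counting functions.
-/

set_option autoImplicit false

namespace Run7.h493.TS

open MeasureTheory Set Filter Topology Metric Real ValueDistribution MeromorphicOn Function
open Asymptotics
open Function.locallyFinsuppWithin (toClosedBall toClosedBall_eval_within apply_eq_zero_of_notMem)
open Pool.Agent.TH143.EL (codis_ev codis_of_ev mero_id mero_ne mero_an)
open Pool.Agent.N131.SR (NZ nz_or NZ.ne nz_of_ne Nb Nb_eq Nb_nonneg zeros_finite char_nonneg)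

/-- the characteristic of a holomorphic curve with the homogeneous coordinates `f` -/
noncomputable def Tf {J : Type} [Fintype J] (f : J → ℂ → ℂ) (r : ℝ) : ℝ :=
  circleAverage (fun z => Real.log ‖fun j => f j z‖) 0 r

section curve

variable {J : Type} [Fintype J] {f : J → ℂ → ℂ} (hf : ∀ j, Differentiable ℂ (f j))
  (h0 : ∀ z, ∃ j, f j z ≠ 0)

include hf in
theorem curve_cont : Continuous fun z => (fun j => f j z : J → ℂ) :=
  continuous_pi fun j => (hf j).continuous

include h0 in
theorem curve_pos (z : ℂ) : 0 < ‖(fun j => f j z : J → ℂ)‖ := by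
  rw [norm_pos_iff]
  intro h
  obtain ⟨j, hj⟩ := h0 z
  exact hj (congrFun h j)

include hf h0 in
theorem curve_int (r : ℝ) : CircleIntegrable (fun z => Real.log ‖fun j => f j z‖) 0 r := by
  apply ContinuousOn.circleIntegrable'
  apply Continuous.continuousOn
  exact Continuous.log (curve_cont hf).norm fun z => (curve_pos h0 z).ne'

include hf in
theorem f_mero (j : J) : Meromorphic (f j) := fun z => ((hf j).analyticAt z).meromorphicAt

include hf in
theorem f_div (j : J) (z : ℂ) : 0 ≤ divisor (f j) univ z := by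
  rw [divisor_apply (f_mero hf j).meromorphicOn (mem_univ z)]
  have h1 := ((hf j).analyticAt z).meromorphicOrderAt_nonneg
  rcases eq_or_ne (meromorphicOrderAt (f j) z) ⊤ with h6 | h6
  · rw [h6]; simp
  · lift meromorphicOrderAt (f j) z to ℤ using h6 with n
    rw [WithTop.untop₀_coe]
    exact_mod_cast h1

include hf in
theorem f_avg {l : J} {r : ℝ} (hr : 1 ≤ r) :
    circleAverage (fun z => Real.log ‖f l z‖) 0 r =
      ValueDistribution.logCounting (f l) 0 r + log ‖meromorphicTrailingCoeffAt (f l) 0‖ := by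
  have h1 := logCounting_zero_sub_logCounting_top_eq_circleAverage_sub_const (f_mero hf l)
    (show r ≠ 0 by positivity)
  have h2 : ValueDistribution.logCounting (f l) ⊤ = 0 := by
    rw [logCounting_top]
    have : (divisor (f l) univ)⁻ = 0 := by
      rw [negPart_eq_zero]
      exact f_div hf l
    rw [this, map_zero]
  rw [h2, sub_zero] at h1
  linarith

include hf h0 in
/-- ratios of coordinates grow at most like the curve -/
theorem ratio_le (i l : J) (hl : ∃ z, f l z ≠ 0) : ∃ C : ℝ, ∀ r, 1 ≤ r →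
    characteristic (fun z => f i z / f l z) ⊤ r ≤ Tf f r + C := by
  have hml := f_mero hf l
  have hmi := f_mero hf i
  have hnz : NZ (f l) := by
    obtain ⟨z, hz⟩ := hl
    rcases nz_or hml with h1 | h1
    · exact h1
    · exfalso
      have h2 : ∀ᶠ w in 𝓝[≠] z, f l w ≠ 0 :=
        ((hf l).continuous.continuousAt.eventually_ne hz).filter_mono nhdsWithin_le_nhds
      obtain ⟨w, h3, h4⟩ := ((codis_ev h1 z).and h2).exists
      exact h4 h3
  have hne := hnz.ne hml
  refine ⟨-log ‖meromorphicTrailingCoeffAt (f l) 0‖, fun r hr => ?_⟩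
  have hr0 : r ≠ 0 := by positivity
  have hav := f_avg hf (l := l) hr
  -- counting functions
  have hN : ValueDistribution.logCounting (fun z => f i z / f l z) ⊤ r ≤
      ValueDistribution.logCounting (f l) 0 r := by
    rw [logCounting_top, logCounting_zero]
    apply locallyFinsuppWithin.logCounting_le _ hr
    intro z
    change (divisor (fun z => f i z / f l z) univ z)⁻ ≤ (divisor (f l) univ z)⁺
    have hdiv : Meromorphic fun z => f i z / f l z := hmi.div hml
    rw [divisor_apply hdiv.meromorphicOn (mem_univ z)]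
    have h1 : meromorphicOrderAt (fun z => f i z / f l z) z =
        meromorphicOrderAt (f i) z - meromorphicOrderAt (f l) z :=
      meromorphicOrderAt_div (hmi z) (hml z)
    rw [h1, divisor_apply hml.meromorphicOn (mem_univ z)]
    have h2 := ((hf i).analyticAt z).meromorphicOrderAt_nonneg
    have h3 := ((hf l).analyticAt z).meromorphicOrderAt_nonneg
    have h4 := hnz z
    lift meromorphicOrderAt (f l) z to ℤ using h4 with n
    rcases eq_or_ne (meromorphicOrderAt (f i) z) ⊤ with h6 | h6
    · rw [h6]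
      have : (⊤ : WithTop ℤ) - (n : WithTop ℤ) = ⊤ := rfl
      rw [this]
      simp
    · lift meromorphicOrderAt (f i) z to ℤ using h6 with m
      have h2' : 0 ≤ m := by exact_mod_cast h2
      have h3' : 0 ≤ n := by exact_mod_cast h3
      have : (m : WithTop ℤ) - (n : WithTop ℤ) = ((m - n : ℤ) : WithTop ℤ) := rfl
      rw [this, WithTop.untop₀_coe, WithTop.untop₀_coe, posPart_of_nonneg h3']
      rcases le_total (m - n) 0 with h7 | h7
      · rw [negPart_of_nonpos h7]
        omega
      · rw [negPart_of_nonneg h7]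
        exact h3'
  have hm : proximity (fun z => f i z / f l z) ⊤ r ≤
      Tf f r - circleAverage (fun z => Real.log ‖f l z‖) 0 r := by
    have h1 : CircleIntegrable (fun z => Real.log ‖f l z‖) 0 r :=
      hml.meromorphicOn.circleIntegrable_log_norm
    unfold Tf
    rw [← circleAverage_fun_sub (curve_int hf h0 r) h1, proximity_top]
    apply Pool.Agent.Helper160.Nev.circleAverage_mono_codiscrete hr0
    · exact (hmi.div hml).meromorphicOn.circleIntegrable_posLog_norm
    · exact (curve_int hf h0 r).sub h1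
    · have h2 : ∀ᶠ z in codiscreteWithin (sphere (0 : ℂ) |r|), f l z ≠ 0 :=
        hne.filter_mono (codiscreteWithin_mono (subset_univ _))
      filter_upwards [h2] with z hz
      have h3 : ‖f l z‖ ≤ ‖(fun j => f j z : J → ℂ)‖ :=
        norm_le_pi_norm (fun j => f j z : J → ℂ) l
      have h4 : ‖f i z‖ ≤ ‖(fun j => f j z : J → ℂ)‖ :=
        norm_le_pi_norm (fun j => f j z : J → ℂ) i
      have h5 : 0 < ‖f l z‖ := norm_pos_iff.2 hz
      rw [norm_div, posLog_apply]
      apply max_le
      · have := Real.log_le_log h5 h3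
        linarith
      · rcases eq_or_lt_of_le (norm_nonneg (f i z)) with h6 | h6
        · rw [← h6, zero_div, Real.log_zero]
          have := Real.log_le_log h5 h3
          linarith
        · rw [Real.log_div h6.ne' h5.ne']
          have := Real.log_le_log h6 h4
          linarith
  unfold characteristic
  simp only [Pi.add_apply]
  linarith

include hf h0 in
/-- the curve grows at most like the ratios of the coordinates -/
theorem Tf_le (l : J) (hl : ∃ z, f l z ≠ 0) : ∃ C : ℝ, ∀ r, 1 ≤ r →
    Tf f r ≤ ∑ i, characteristic (fun z => f i z / f l z) ⊤ r + C := by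
  have hml := f_mero hf l
  have hnz : NZ (f l) := by
    obtain ⟨z, hz⟩ := hl
    rcases nz_or hml with h1 | h1
    · exact h1
    · exfalso
      have h2 : ∀ᶠ w in 𝓝[≠] z, f l w ≠ 0 :=
        ((hf l).continuous.continuousAt.eventually_ne hz).filter_mono nhdsWithin_le_nhds
      obtain ⟨w, h3, h4⟩ := ((codis_ev h1 z).and h2).exists
      exact h4 h3
  have hne := hnz.ne hml
  refine ⟨log ‖meromorphicTrailingCoeffAt (f l) 0‖, fun r hr => ?_⟩
  have hr0 : r ≠ 0 := by positivity
  have hav := f_avg hf (l := l) hr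
  have hN : ValueDistribution.logCounting (f l) 0 r ≤
      ∑ i, ValueDistribution.logCounting (fun z => f i z / f l z) ⊤ r := by
    have e1 : ∑ i, ValueDistribution.logCounting (fun z => f i z / f l z) ⊤ r =
        locallyFinsuppWithin.logCounting (∑ i, (divisor (fun z => f i z / f l z) univ)⁻) r := by
      rw [map_sum, Finset.sum_apply]
      apply Finset.sum_congr rfl
      intro i _
      rw [logCounting_top]
    rw [e1, logCounting_zero]
    apply locallyFinsuppWithin.logCounting_le _ hr
    intro z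
    obtain ⟨i, hi⟩ := h0 z
    classical
    have e2 : ∀ (s : Finset (J)), (divisor (fun z => f i z / f l z) univ z)⁻ ≤
        (∑ j ∈ insert i s, (divisor (fun z => f j z / f l z) univ)⁻ :
          locallyFinsupp ℂ ℤ) z := by
      intro s
      classical
      have key : ∀ s : Finset (J),
          0 ≤ (∑ j ∈ s, (divisor (fun z => f j z / f l z) univ)⁻ : locallyFinsupp ℂ ℤ) := by
        intro s
        exact Finset.sum_nonneg fun j _ => negPart_nonneg _
      have h2 : (∑ j ∈ insert i s, (divisor (fun z => f j z / f l z) univ)⁻ :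
          locallyFinsupp ℂ ℤ) = (divisor (fun z => f i z / f l z) univ)⁻ +
            ∑ j ∈ (insert i s).erase i, (divisor (fun z => f j z / f l z) univ)⁻ :=
        (Finset.add_sum_erase _ _ (Finset.mem_insert_self i s)).symm
      rw [h2]
      have h3 := key ((insert i s).erase i) z
      change _ ≤ (divisor (fun z => f i z / f l z) univ z)⁻ + _
      have h4 : (0 : ℤ) ≤ (∑ j ∈ (insert i s).erase i,
        (divisor (fun z => f j z / f l z) univ)⁻ : locallyFinsupp ℂ ℤ) z := h3
      linarith
    have e3 := e2 Finset.univ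
    rw [Finset.insert_eq_of_mem (Finset.mem_univ i)] at e3
    refine le_trans ?_ e3
    change (divisor (f l) univ z)⁺ ≤ _
    have hmi := f_mero hf i
    have hdiv : Meromorphic fun z => f i z / f l z := hmi.div hml
    rw [divisor_apply hdiv.meromorphicOn (mem_univ z)]
    have h1 : meromorphicOrderAt (fun z => f i z / f l z) z =
        meromorphicOrderAt (f i) z - meromorphicOrderAt (f l) z :=
      meromorphicOrderAt_div (hmi z) (hml z)
    have h2 : meromorphicOrderAt (f i) z = 0 := by
      rw [((hf i).analyticAt z).meromorphicOrderAt_eq,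
        ((hf i).analyticAt z).analyticOrderAt_eq_zero.2 hi]
      rfl
    rw [h1, h2, divisor_apply hml.meromorphicOn (mem_univ z)]
    have h3 := ((hf l).analyticAt z).meromorphicOrderAt_nonneg
    have h4 := hnz z
    lift meromorphicOrderAt (f l) z to ℤ using h4 with n
    have h3' : 0 ≤ n := by exact_mod_cast h3
    have : (0 : WithTop ℤ) - (n : WithTop ℤ) = ((0 - n : ℤ) : WithTop ℤ) := rfl
    rw [this, WithTop.untop₀_coe, WithTop.untop₀_coe, posPart_of_nonneg h3',
      negPart_of_nonpos (by omega)]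
    omega
  have hm : Tf f r ≤ circleAverage (fun z => Real.log ‖f l z‖) 0 r +
      ∑ i, proximity (fun z => f i z / f l z) ⊤ r := by
    have h1 : CircleIntegrable (fun z => Real.log ‖f l z‖) 0 r :=
      hml.meromorphicOn.circleIntegrable_log_norm
    have h2 : ∀ i ∈ (Finset.univ : Finset (J)),
        CircleIntegrable (fun z => log⁺ ‖f i z / f l z‖) 0 r := fun i _ =>
      ((f_mero hf i).div hml).meromorphicOn.circleIntegrable_posLog_norm
    have h3 : ∑ i, proximity (fun z => f i z / f l z) ⊤ r =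
        circleAverage (fun z => ∑ i, log⁺ ‖f i z / f l z‖) 0 r := by
      rw [circleAverage_fun_sum h2]
      apply Finset.sum_congr rfl
      intro i _
      rw [proximity_top]
    unfold Tf
    rw [h3, ← circleAverage_fun_add h1 (CircleIntegrable.fun_sum _ h2)]
    apply Pool.Agent.Helper160.Nev.circleAverage_mono_codiscrete hr0
    · exact curve_int hf h0 r
    · exact h1.add (CircleIntegrable.fun_sum _ h2)
    · have h2 : ∀ᶠ z in codiscreteWithin (sphere (0 : ℂ) |r|), f l z ≠ 0 :=
        hne.filter_mono (codiscreteWithin_mono (subset_univ _))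
      filter_upwards [h2] with z hz
      have h5 : 0 < ‖f l z‖ := norm_pos_iff.2 hz
      have h6 : ‖(fun j => f j z : J → ℂ)‖ ≤
          ‖f l z‖ * Real.exp (∑ i, log⁺ ‖f i z / f l z‖) := by
        rw [pi_norm_le_iff_of_nonneg (by positivity)]
        intro i
        have h7 : ‖f i z / f l z‖ ≤ Real.exp (log⁺ ‖f i z / f l z‖) := by
          rcases eq_or_lt_of_le (norm_nonneg (f i z / f l z)) with h8 | h8
          · rw [← h8]
            positivity
          · calc ‖f i z / f l z‖ = Real.exp (Real.log ‖f i z / f l z‖) := (Real.exp_log h8).symm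
              _ ≤ _ := Real.exp_le_exp.2 (le_max_right _ _)
        have h8 : log⁺ ‖f i z / f l z‖ ≤ ∑ i, log⁺ ‖f i z / f l z‖ :=
          Finset.single_le_sum (f := fun i => log⁺ ‖f i z / f l z‖)
            (fun j _ => posLog_nonneg) (Finset.mem_univ i)
        have h9 := h7.trans (Real.exp_le_exp.2 h8)
        rw [norm_div, div_le_iff₀ h5] at h9
        linarith
      have h7 := Real.log_le_log (curve_pos h0 z) h6
      rw [Real.log_mul h5.ne' (Real.exp_pos _).ne', Real.log_exp] at h7
      exact h7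
  unfold characteristic
  simp only [Pi.add_apply, Finset.sum_add_distrib]
  linarith

end curve



section more

variable {J : Type} [Fintype J] {f : J → ℂ → ℂ} (hf : ∀ j, Differentiable ℂ (f j))
  (h0 : ∀ z, ∃ j, f j z ≠ 0)

include hf h0 in
/-- the coordinates are bounded by the curve -/
theorem avg_le (l : J) (hl : ∃ z, f l z ≠ 0) {r : ℝ} (hr : 1 ≤ r) :
    circleAverage (fun z => Real.log ‖f l z‖) 0 r ≤ Tf f r := by
  have hml := f_mero hf l
  have hnz : NZ (f l) := by
    obtain ⟨z, hz⟩ := hl
    rcases nz_or hml with h1 | h1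
    · exact h1
    · exfalso
      have h2 : ∀ᶠ w in 𝓝[≠] z, f l w ≠ 0 :=
        ((hf l).continuous.continuousAt.eventually_ne hz).filter_mono nhdsWithin_le_nhds
      obtain ⟨w, h3, h4⟩ := ((codis_ev h1 z).and h2).exists
      exact h4 h3
  have hne := hnz.ne hml
  unfold Tf
  apply Pool.Agent.Helper160.Nev.circleAverage_mono_codiscrete (by positivity)
  · exact hml.meromorphicOn.circleIntegrable_log_norm
  · exact curve_int hf h0 r
  · have h2 : ∀ᶠ z in codiscreteWithin (sphere (0 : ℂ) |r|), f l z ≠ 0 :=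
      hne.filter_mono (codiscreteWithin_mono (subset_univ _))
    filter_upwards [h2] with z hz
    exact Real.log_le_log (norm_pos_iff.2 hz) (norm_le_pi_norm (fun j => f j z : J → ℂ) l)

include hf h0 in
/-- the characteristic is bounded below -/
theorem Tf_ge (l : J) (hl : ∃ z, f l z ≠ 0) : ∃ C : ℝ, 0 ≤ C ∧ ∀ r, 1 ≤ r → -C ≤ Tf f r := by
  refine ⟨|log ‖meromorphicTrailingCoeffAt (f l) 0‖|, abs_nonneg _, fun r hr => ?_⟩
  have h1 := avg_le hf h0 l hl hr
  rw [f_avg hf hr] at h1
  have h2 : 0 ≤ ValueDistribution.logCounting (f l) 0 r := logCounting_nonneg hr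
  have h3 := neg_abs_le (log ‖meromorphicTrailingCoeffAt (f l) 0‖)
  linarith

end more

/-- truncated counting functions and counting functions -/
theorem Nb_le_count {h : ℂ → ℂ} (hd : Differentiable ℂ h) (hn : ∃ z, h z ≠ 0) {r : ℝ}
    (hr : 1 ≤ r) : Nb h r ≤ ValueDistribution.logCounting h 0 r := by
  classical
  have hr0 : 0 < r := by linarith
  have habs : |r| = r := abs_of_pos hr0
  have hmer : Meromorphic h := fun z => (hd.analyticAt z).meromorphicAt
  have hnz : NZ h := by
    obtain ⟨z, hz⟩ := hn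
    rcases nz_or hmer with h1 | h1
    · exact h1
    · exfalso
      have h2 : ∀ᶠ w in 𝓝[≠] z, h w ≠ 0 :=
        (hd.continuous.continuousAt.eventually_ne hz).filter_mono nhdsWithin_le_nhds
      obtain ⟨w, h3, h4⟩ := ((codis_ev h1 z).and h2).exists
      exact h4 h3
  set F := (zeros_finite hd hn r).toFinset with hF
  have hF' : ∀ z, z ∈ F ↔ h z = 0 ∧ ‖z‖ ≤ r := fun z => by rw [hF, Set.Finite.mem_toFinset]; rfl
  rw [Nb_eq r F hF', logCounting_zero]
  obtain ⟨D, hD⟩ : ∃ D : locallyFinsupp ℂ ℤ, D = (divisor h univ)⁺ := ⟨_, rfl⟩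
  rw [← hD]
  have hDz : ∀ z, D z = (divisor h univ z)⁺ := fun z => by rw [hD]; rfl
  have hD0 : ∀ z, 0 ≤ D z := fun z => by rw [hDz]; exact posPart_nonneg _
  have hD1 : ∀ z, h z = 0 → 1 ≤ D z := by
    intro z hz
    rw [hDz, divisor_apply hmer.meromorphicOn (mem_univ z)]
    have h1 : meromorphicOrderAt h z = (analyticOrderAt h z).map (↑) :=
      (hd.analyticAt z).meromorphicOrderAt_eq
    have h2 : analyticOrderAt h z ≠ 0 := (hd.analyticAt z).analyticOrderAt_ne_zero.2 hz
    have h3 := hnz z
    lift meromorphicOrderAt h z to ℤ using h3 with n hn'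
    rw [WithTop.untop₀_coe]
    cases h4 : analyticOrderAt h z with
    | top =>
      rw [h4] at h1
      exact absurd h1 (by simp)
    | coe k =>
      rw [h4] at h1 h2
      have h5 : (n : WithTop ℤ) = ((k : ℤ) : WithTop ℤ) := h1
      have h6 : n = k := by exact_mod_cast h5
      have h7 : k ≠ 0 := by exact_mod_cast h2
      rw [h6, posPart_of_nonneg (by omega)]
      omega
  have hDs : ∀ z, h z ≠ 0 → D z = 0 := by
    intro z hz
    rw [hDz, divisor_apply hmer.meromorphicOn (mem_univ z)]
    have h1 : meromorphicOrderAt h z = (analyticOrderAt h z).map (↑) :=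
      (hd.analyticAt z).meromorphicOrderAt_eq
    rw [(hd.analyticAt z).analyticOrderAt_eq_zero.2 hz] at h1
    rw [h1]
    simp
  have hlog : ∀ z : ℂ, ‖z‖ ≤ r → 0 ≤ log (r * ‖z‖⁻¹) := by
    intro z hz
    rcases eq_or_ne z 0 with rfl | h
    · simp
    · apply Real.log_nonneg
      have : 0 < ‖z‖ := norm_pos_iff.2 h
      rw [← div_eq_mul_inv, one_le_div this]
      exact hz
  have e1 : locallyFinsuppWithin.logCounting D r =
      ∑ z ∈ F, (D z : ℝ) * log (r * ‖z‖⁻¹) + (D 0) * log r := by
    change ∑ᶠ z, (toClosedBall r D z : ℝ) * log (r * ‖z‖⁻¹) + (D 0) * log r = _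
    congr 1
    rw [finsum_eq_sum_of_support_subset (s := F)]
    · apply Finset.sum_congr rfl
      intro z hz'
      rw [toClosedBall_eval_within _ (by rw [habs, mem_closedBall_zero_iff]; exact ((hF' z).1 hz').2)]
    · intro z hz'
      have hzb : z ∈ closedBall (0 : ℂ) |r| := by
        by_contra hcon
        apply hz'
        simp only
        rw [apply_eq_zero_of_notMem _ hcon]
        simp
      have hz2 : ‖z‖ ≤ r := by rwa [habs, mem_closedBall_zero_iff] at hzb
      have hz3 : D z ≠ 0 := by
        intro h0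
        apply hz'
        simp only
        rw [toClosedBall_eval_within _ hzb, h0]
        simp
      refine Finset.mem_coe.2 ((hF' z).2 ⟨?_, hz2⟩)
      by_contra h3
      exact hz3 (hDs z h3)
  rw [e1]
  have e2 : ∑ z ∈ F, Real.log (r * ‖z‖⁻¹) ≤ ∑ z ∈ F, (D z : ℝ) * log (r * ‖z‖⁻¹) := by
    apply Finset.sum_le_sum
    intro z hz
    have h1 : (1 : ℝ) ≤ D z := by exact_mod_cast hD1 z ((hF' z).1 hz).1
    have h2 := hlog z ((hF' z).1 hz).2
    nlinarith
  have e3 : {z : ℂ | h z = 0}.indicator (1 : ℂ → ℝ) 0 ≤ D 0 := by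
    by_cases h3 : h 0 = 0
    · rw [Set.indicator_of_mem (show (0 : ℂ) ∈ {z : ℂ | h z = 0} from h3)]
      have h1 : (1 : ℝ) ≤ D 0 := by exact_mod_cast hD1 0 h3
      exact h1
    · rw [Set.indicator_of_notMem (show (0 : ℂ) ∉ {z : ℂ | h z = 0} from h3)]
      exact_mod_cast hD0 0
  have e4 := mul_le_mul_of_nonneg_right e3 (Real.log_nonneg hr)
  linarith

theorem Nb_mul_le {x y : ℂ → ℂ} (hx : Differentiable ℂ x) (hy : Differentiable ℂ y)
    (hx0 : ∃ z, x z ≠ 0) (hy0 : ∃ z, y z ≠ 0) (hxy : ∃ z, x z * y z ≠ 0) {r : ℝ} (hr : 1 ≤ r) :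
    Nb (fun z => x z * y z) r ≤ Nb x r + Nb y r := by
  classical
  set F1 := (zeros_finite hx hx0 r).toFinset with hF1
  set F2 := (zeros_finite hy hy0 r).toFinset with hF2
  have hF1' : ∀ z, z ∈ F1 ↔ x z = 0 ∧ ‖z‖ ≤ r := fun z => by rw [hF1, Set.Finite.mem_toFinset]; rfl
  have hF2' : ∀ z, z ∈ F2 ↔ y z = 0 ∧ ‖z‖ ≤ r := fun z => by rw [hF2, Set.Finite.mem_toFinset]; rfl
  have hF' : ∀ z, z ∈ F1 ∪ F2 ↔ x z * y z = 0 ∧ ‖z‖ ≤ r := by
    intro z
    rw [Finset.mem_union, hF1', hF2', mul_eq_zero]
    tauto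
  rw [Nb_eq r F1 hF1', Nb_eq r F2 hF2', Nb_eq r (F1 ∪ F2) hF']
  have hlog : ∀ z : ℂ, ‖z‖ ≤ r → 0 ≤ log (r * ‖z‖⁻¹) := by
    intro z hz
    rcases eq_or_ne z 0 with rfl | h
    · simp
    · apply Real.log_nonneg
      have : 0 < ‖z‖ := norm_pos_iff.2 h
      rw [← div_eq_mul_inv, one_le_div this]
      exact hz
  have e2 : ∑ z ∈ F1 ∪ F2, log (r * ‖z‖⁻¹) ≤
      ∑ z ∈ F1, log (r * ‖z‖⁻¹) + ∑ z ∈ F2, log (r * ‖z‖⁻¹) := by
    rw [← Finset.sum_union_inter]
    have : 0 ≤ ∑ z ∈ F1 ∩ F2, log (r * ‖z‖⁻¹) :=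
      Finset.sum_nonneg fun z hz' => hlog z ((hF1' z).1 (Finset.mem_inter.1 hz').1).2
    linarith
  have e3 : {z : ℂ | x z * y z = 0}.indicator (1 : ℂ → ℝ) 0 ≤
      {z : ℂ | x z = 0}.indicator (1 : ℂ → ℝ) 0 + {z : ℂ | y z = 0}.indicator (1 : ℂ → ℝ) 0 := by
    have h5 : (0 : ℝ) ≤ {z : ℂ | y z = 0}.indicator 1 0 :=
      Set.indicator_nonneg (fun _ _ => zero_le_one) 0
    have h6 : (0 : ℝ) ≤ {z : ℂ | x z = 0}.indicator 1 0 :=
      Set.indicator_nonneg (fun _ _ => zero_le_one) 0
    by_cases h : x 0 * y 0 = 0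
    · rw [Set.indicator_of_mem (show (0 : ℂ) ∈ {z : ℂ | x z * y z = 0} from h)]
      rcases mul_eq_zero.1 h with h3 | h3
      · rw [Set.indicator_of_mem (show (0 : ℂ) ∈ {z : ℂ | x z = 0} from h3)]
        linarith
      · rw [Set.indicator_of_mem (show (0 : ℂ) ∈ {z : ℂ | y z = 0} from h3)]
        linarith
    · rw [Set.indicator_of_notMem (show (0 : ℂ) ∉ {z : ℂ | x z * y z = 0} from h)]
      linarith
  have e4 := mul_le_mul_of_nonneg_right e3 (Real.log_nonneg hr)
  linarith

end Run7.h493.TS
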