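import Pool.Agent.Run7.h493.TS.Orb2

/-!
Curves in generically finite covers, and contact orders given by roots.
-/

set_option autoImplicit false

namespace Run7.h493.TS

open MeasureTheory Filter Topology Metric Set

/-- a curve which is contained in finitely many points, outside of the zeros of `g` -/
theorem const_or {N : ℕ} {γ : ℂ → Fin (N + 1) → ℂ} (hγ : Differentiable ℂ γ) (h0 : ∀ z, γ z ≠ 0)
    {g : ℂ → ℂ} (hg : Differentiable ℂ g) {S : Set (Fin (N + 1) → ℂ)} (hfin : S.Finite)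
    (hS : ∀ z, g z ≠ 0 → ∃ s ∈ S, ∃ c : ℂ, γ z = c • s) :
    (∀ z, g z = 0) ∨ ∀ z w, ∃ c : ℂ, γ z = c • γ w := by
  classical
  by_cases hg0 : ∀ z, g z = 0
  · exact Or.inl hg0
  right
  push Not at hg0
  have hγi : ∀ i, Differentiable ℂ fun z => γ z i := differentiable_pi.1 hγ
  obtain ⟨s, hs0, hs⟩ : ∃ s : Fin (N + 1) → ℂ, s ≠ 0 ∧ ∀ i j z, γ z i * s j = γ z j * s i := by
    by_contra hcon
    push Not at hcon
    have h1 : ∀ s ∈ S, ∀ᶠ z in codiscrete ℂ, ¬ ∃ c : ℂ, γ z = c • s := by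
      intro s _
      by_cases hs0 : s = 0
      · refine Eventually.of_forall fun z hz => ?_
        obtain ⟨c, hc⟩ := hz
        exact h0 z (by rw [hc, hs0, smul_zero])
      · obtain ⟨i, j, z, hz⟩ := hcon s hs0
        have h2 := diff_ne (a := fun z => γ z i * s j - γ z j * s i)
          (((hγi i).mul_const _).sub ((hγi j).mul_const _)) ⟨z, sub_ne_zero.2 hz⟩
        filter_upwards [h2] with w hw hc
        obtain ⟨c, hc⟩ := hc
        apply hw
        rw [hc]
        simp only [Pi.smul_apply, smul_eq_mul]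
        ring
    have h2 : ∀ᶠ z in codiscrete ℂ, ∀ s ∈ S, ¬ ∃ c : ℂ, γ z = c • s :=
      (eventually_all_finite hfin).2 h1
    obtain ⟨z, hz1, hz2⟩ := (h2.and (diff_ne hg hg0)).exists
    obtain ⟨s, hs, hc⟩ := hS z hz2
    exact hz1 s hs hc
  obtain ⟨j, hj⟩ := Function.ne_iff.1 hs0
  have hj' : s j ≠ 0 := hj
  have h1 : ∀ z i, γ z i = γ z j / s j * s i := by
    intro z i
    have := hs i j z
    field_simp
    linear_combination this
  have h2 : ∀ z, γ z j ≠ 0 := by
    intro z h
    apply h0 z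
    funext i
    rw [h1 z i, h, zero_div, zero_mul]
    rfl
  intro z w
  refine ⟨γ z j / γ w j, ?_⟩
  funext i
  rw [Pi.smul_apply, smul_eq_mul, h1 z i, h1 w i]
  have := h2 w
  field_simp

/-- contact orders: a root -/
theorem order_ge {R S F G : ℂ → ℂ} {m a c A : ℕ} {z : ℂ} (hR : AnalyticAt ℂ R z)
    (hS : AnalyticAt ℂ S z) (hF : AnalyticAt ℂ F z) (hG : AnalyticAt ℂ G z)
    (hSn : ∃ᶠ w in 𝓝[≠] z, S w ≠ 0) (hFn : ∃ᶠ w in 𝓝[≠] z, F w ≠ 0)
    (heq : ∀ᶠ w in 𝓝 z, R w ^ m * G w ^ a = S w ^ m * F w ^ c) (hFz : F z = 0) (hGz : G z ≠ 0)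
    (hc : 0 < c) (hm : A * c ≤ m) : (A : ℕ∞) ≤ analyticOrderAt F z := by
  have hFo : analyticOrderAt F z ≠ ⊤ := by
    intro h
    rw [analyticOrderAt_eq_top] at h
    exact hFn (h.filter_mono nhdsWithin_le_nhds |>.mono fun w hw h => h hw)
  have hSo : analyticOrderAt S z ≠ ⊤ := by
    intro h
    rw [analyticOrderAt_eq_top] at h
    exact hSn (h.filter_mono nhdsWithin_le_nhds |>.mono fun w hw h => h hw)
  have hGo : analyticOrderAt G z = 0 := hG.analyticOrderAt_eq_zero.2 hGz
  have h1 : analyticOrderAt (R ^ m * G ^ a) z = analyticOrderAt (S ^ m * F ^ c) z :=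
    analyticOrderAt_congr heq
  rw [analyticOrderAt_mul (hR.pow m) (hG.pow a), analyticOrderAt_mul (hS.pow m) (hF.pow c),
    analyticOrderAt_pow hR, analyticOrderAt_pow hG, analyticOrderAt_pow hS, analyticOrderAt_pow hF,
    hGo] at h1
  have hF1 : 1 ≤ analyticOrderAt F z := by
    rw [ENat.one_le_iff_ne_zero]
    intro h
    exact (hF.analyticOrderAt_eq_zero.1 h) hFz
  lift analyticOrderAt F z to ℕ using hFo with o ho
  lift analyticOrderAt S z to ℕ using hSo with s hs
  have ho1 : 1 ≤ o := by exact_mod_cast hF1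
  rcases Nat.eq_zero_or_pos m with hm0 | hm0
  · have h2 : A = 0 := by
      rw [hm0] at hm
      have := Nat.le_zero.1 hm
      rcases Nat.mul_eq_zero.1 this with h | h
      · exact h
      · omega
    rw [h2]
    exact_mod_cast Nat.zero_le o
  by_cases hRo : analyticOrderAt R z = ⊤
  · exfalso
    rw [hRo] at h1
    have h2 : m • (⊤ : ℕ∞) = ⊤ := by
      rw [nsmul_eq_mul]
      exact ENat.mul_top (by exact_mod_cast hm0.ne')
    rw [h2, top_add, nsmul_eq_mul, nsmul_eq_mul] at h1
    exact absurd h1.symm (by exact_mod_cast ENat.coe_ne_top (m * s + c * o))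
  · lift analyticOrderAt R z to ℕ using hRo with p hp
    simp only [nsmul_eq_mul, mul_zero, add_zero] at h1
    have h2 : m * p = m * s + c * o := by exact_mod_cast h1
    have h3 : s < p := by
      by_contra hcon
      push Not at hcon
      have h4 := Nat.mul_le_mul_left m hcon
      have h5 : 0 < c * o := Nat.mul_pos hc ho1
      omega
    have h4 : m * (s + 1) ≤ m * p := Nat.mul_le_mul_left m h3
    have h5 : m ≤ c * o := by
      rw [mul_add, mul_one] at h4
      omega
    have h6 : A * c ≤ o * c := by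
      rw [mul_comm o c]
      exact hm.trans h5
    exact_mod_cast Nat.le_of_mul_le_mul_right h6 hc

end Run7.h493.TS
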