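import Mathlib
import Pool.Agent.Helper160.NevLib
import Pool.Agent.N131.SR.Ldl

/-!
The lemma on the logarithmic derivative on the plane, with an explicit dependence on the radius (the
proof is the one of `Pool.Agent.N131.SR.ldl`).
-/

set_option autoImplicit false

namespace Run7.h493.TS

open MeasureTheory Set Filter Topology Metric Real ValueDistribution MeromorphicOn Function
open Function.locallyFinsuppWithin
open Pool.Agent.Helper160.Nev (avg_log_sum exists_const)
open Pool.Agent.N131.SR (NZ number_le abs_log_eq borel)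

/-- **The lemma on the logarithmic derivative**, with an explicit dependence on the radius. -/
theorem ldl {g : ℂ → ℂ} (hg : Meromorphic g) (h0 : NZ g) :
    ∃ (E : Set ℝ) (C : ℝ), volume E < ⊤ ∧ 0 ≤ C ∧ ∀ r, 1 ≤ r → r ∉ E →
      proximity (logDeriv g) ⊤ r ≤ C + 2 * log r + 4 * log (1 + characteristic g ⊤ r) := by
  obtain ⟨C0, hC0, hC⟩ := exists_const (α := 1 / 2) (by norm_num) (by norm_num)
  set S : ℝ → ℝ := fun r => 1 + characteristic g ⊤ r with hS
  have hT0 : ∀ r, 1 ≤ r → 0 ≤ characteristic g ⊤ r := fun r hr => characteristic_nonneg hr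
  have hSm : MonotoneOn S (Ici 1) := by
    intro a ha b hb hab
    have := characteristic_monotoneOn hg (mem_Ioi.2 (lt_of_lt_of_le one_pos ha))
      (mem_Ioi.2 (lt_of_lt_of_le one_pos hb)) hab
    simp only [hS]
    linarith
  have hS1 : ∀ r, 1 ≤ r → 1 ≤ S r := fun r hr => by
    have := hT0 r hr
    simp only [hS]
    linarith
  set A : ℝ := max |log ‖g 0‖| |log ‖meromorphicTrailingCoeffAt g 0‖| with hA
  have hA0 : 0 ≤ A := le_trans (abs_nonneg _) (le_max_left _ _)
  have hinv : ∀ r, characteristic g⁻¹ ⊤ r ≤ characteristic g ⊤ r + A := by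
    intro r
    have := characteristic_sub_characteristic_inv_le hg (R := r)
    rw [← hA] at this
    have := (abs_le.1 this).1
    linarith
  set K : ℝ := 2 + 6 * (4 + A) + 2 * C0 * (6 * (4 + A)) with hK
  have hK1 : 1 ≤ K := by
    have : 0 ≤ 2 * C0 * (6 * (4 + A)) := by positivity
    linarith
  refine ⟨{r | 1 ≤ r ∧ 2 * S r < S (r + 1 / S r)}, 2 * log K, borel hSm hS1, by
    have := Real.log_nonneg hK1
    positivity, ?_⟩
  intro r hr hrE
  have hE : S (r + 1 / S r) ≤ 2 * S r := by
    by_contra hcon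
    exact hrE ⟨hr, not_le.1 hcon⟩
  have hs := hS1 r hr
  have hs0 : 0 < S r := by linarith
  have hd0 : 0 < 1 / S r := by positivity
  have hd1 : 1 / S r ≤ 1 := by
    rw [div_le_one hs0]
    exact hs
  -- a good radius
  obtain ⟨R, ⟨hRa, hRb⟩, hRgood⟩ : ∃ R ∈ Ioo (r + 1 / S r / 3) (r + 2 * (1 / S r) / 3),
      ∀ u ∈ sphere (0 : ℂ) R, meromorphicOrderAt g u = 0 := by
    have hfin : (norm '' (Pool.Agent.Helper160.Nev.zp g (r + 1))).Finite :=
      (Pool.Agent.Helper160.Nev.zp_finite (hg.meromorphicOn)).image _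
    obtain ⟨R, hR1, hR2⟩ := (Set.Ioo_infinite (show r + 1 / S r / 3 < r + 2 * (1 / S r) / 3 by
      linarith)).exists_notMem_finite hfin
    refine ⟨R, hR1, ?_⟩
    intro u hu
    rw [mem_sphere_zero_iff_norm] at hu
    by_contra hne
    apply hR2
    refine ⟨u, ⟨?_, ?_⟩, hu⟩
    · rw [mem_closedBall_zero_iff, hu]
      have := hR1.2
      linarith
    · obtain ⟨n, hn⟩ := WithTop.ne_top_iff_exists.1 (h0 u)
      intro h4
      apply hne
      rw [← hn] at h4 ⊢
      simp only [WithTop.untop₀_coe] at h4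
      rw [h4]
      rfl
  have hR1 : 1 ≤ R := by linarith
  have hR0 : 0 < R := by linarith
  set R' : ℝ := r + 1 / S r with hR'
  have hRR' : R < R' := by linarith
  have hrR : r < R := by linarith
  have hmero : ∀ _ : Unit, MeromorphicOn g (closedBall 0 R) := fun _ => hg.meromorphicOn
  have hmain := avg_log_sum (Finset.univ : Finset Unit) (fun _ => g) (r := r) (R := R)
    (α := 1 / 2) (C := C0) (by linarith) hrR (by norm_num) (by norm_num) hmero
    (fun _ _ u _ => h0 u) (fun _ _ => hRgood) hC0 (hC r (by linarith))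
  rw [Finset.univ_unique, Finset.sum_singleton] at hmain
  have e0 : proximity (logDeriv g) ⊤ r =
      circleAverage (fun w => log⁺ (∑ i ∈ ({()} : Finset Unit), ‖logDeriv g w‖)) 0 r := by
    rw [proximity_top]
    simp only [Finset.sum_singleton]
  have hmain' : proximity (logDeriv g) ⊤ r ≤ 1 / (1 / 2) * log (1 + (1 +
        2 * R / (R ^ 2 - r ^ 2) * circleAverage (fun ζ => |Real.log ‖g ζ‖|) 0 R +
        ∑ u ∈ (divisor_ball_support_finite (hmero ())).toFinset,
          |(divisor g (ball 0 R) u : ℝ)| * (2 * C0))) := by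
    rw [e0]
    exact hmain
  -- the circle average
  have hTR : ∀ ρ, 1 ≤ ρ → ρ ≤ R' → characteristic g ⊤ ρ ≤ 2 * S r := by
    intro ρ h1 h2
    have h3 := hSm (mem_Ici.2 h1) (mem_Ici.2 (h1.trans h2)) h2
    have h4 : characteristic g ⊤ ρ ≤ S ρ := by simp only [hS]; linarith
    linarith
  have hav : circleAverage (fun ζ => |Real.log ‖g ζ‖|) 0 R ≤ (4 + A) * S r := by
    have h1 : circleAverage (fun ζ => |Real.log ‖g ζ‖|) 0 R =
        proximity g ⊤ R + proximity g⁻¹ ⊤ R := by
      rw [proximity_top, proximity_top, ← circleAverage_fun_add]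
      · congr 1
        funext ζ
        simp only [Pi.inv_apply, norm_inv]
        rw [← abs_log_eq]
      · exact hg.meromorphicOn.circleIntegrable_posLog_norm
      · exact hg.inv.meromorphicOn.circleIntegrable_posLog_norm
    have h2 : proximity g ⊤ R ≤ characteristic g ⊤ R := by
      have : 0 ≤ ValueDistribution.logCounting g ⊤ R := logCounting_nonneg hR1
      unfold characteristic
      simp only [Pi.add_apply]
      linarith
    have h3 : proximity g⁻¹ ⊤ R ≤ characteristic g⁻¹ ⊤ R := by
      have : 0 ≤ ValueDistribution.logCounting g⁻¹ ⊤ R := logCounting_nonneg hR1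
      unfold characteristic
      simp only [Pi.add_apply]
      linarith
    have h4 := hTR R hR1 hRR'.le
    have h5 := hinv R
    rw [h1]
    nlinarith
  have hav0 : 0 ≤ circleAverage (fun ζ => |Real.log ‖g ζ‖|) 0 R :=
    circleAverage_nonneg_of_nonneg fun _ _ => abs_nonneg _
  have hcoef : 2 * R / (R ^ 2 - r ^ 2) ≤ 6 * S r := by
    have h1 : 0 < R - r := by linarith
    have h2 : R ^ 2 - r ^ 2 = (R - r) * (R + r) := by ring
    have h3 : 1 / S r / 3 ≤ R - r := by linarith
    have h4 : 1 / 3 ≤ (R - r) * S r := by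
      have := mul_le_mul_of_nonneg_right h3 hs0.le
      have h5 : 1 / S r / 3 * S r = 1 / 3 := by
        field_simp
      linarith
    rw [h2, div_le_iff₀ (by positivity)]
    nlinarith [mul_le_mul_of_nonneg_right h4 (show 0 ≤ R + r by linarith)]
  -- the number
  have hnum : (∑ u ∈ (divisor_ball_support_finite (hmero ())).toFinset,
      |(divisor g (ball 0 R) u : ℝ)|) ≤ 6 * (4 + A) * (S r * S r * r) := by
    have h1 := number_le hg hR1 hRR' (hmero ())
    set n := ∑ u ∈ (divisor_ball_support_finite (hmero ())).toFinset,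
      |(divisor g (ball 0 R) u : ℝ)| with hn
    have hn0 : 0 ≤ n := Finset.sum_nonneg fun _ _ => abs_nonneg _
    have hR'1 : 1 ≤ R' := by linarith
    have h2 : ValueDistribution.logCounting g 0 R' ≤ characteristic g⁻¹ ⊤ R' := by
      have h3 : 0 ≤ proximity g⁻¹ ⊤ R' := proximity_nonneg _
      unfold characteristic
      simp only [Pi.add_apply]
      rw [logCounting_inv]
      linarith
    have h3 : ValueDistribution.logCounting g ⊤ R' ≤ characteristic g ⊤ R' := by
      have h3 : 0 ≤ proximity g ⊤ R' := proximity_nonneg _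
      unfold characteristic
      simp only [Pi.add_apply]
      linarith
    have h4 := hTR R' hR'1 le_rfl
    have h5 := hinv R'
    have h6 : n * (log R' - log R) ≤ (4 + A) * S r := by nlinarith
    have h7 : 1 / S r / 3 / (2 * r) ≤ log R' - log R := by
      have hR'0 : 0 < R' := by linarith
      have h8 := Real.one_sub_inv_le_log_of_pos (x := R' / R) (by positivity)
      rw [Real.log_div hR'0.ne' hR0.ne'] at h8
      refine le_trans ?_ h8
      rw [inv_div]
      have h9 : 1 - R / R' = (R' - R) / R' := by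
        field_simp
      rw [h9]
      have h10 : 1 / S r / 3 ≤ R' - R := by linarith
      have h11 : R' ≤ 2 * r := by linarith
      exact div_le_div₀ (by linarith) h10 hR'0 h11
    have h8 : n * (1 / S r / 3 / (2 * r)) ≤ (4 + A) * S r :=
      (mul_le_mul_of_nonneg_left h7 hn0).trans h6
    have h9 : n * (1 / S r / 3 / (2 * r)) = n / (6 * r * S r) := by
      field_simp
      ring
    rw [h9, div_le_iff₀ (by positivity)] at h8
    nlinarith
  rw [← Finset.sum_mul] at hmain'
  refine hmain'.trans ?_
  have hbd : 1 + (1 + 2 * R / (R ^ 2 - r ^ 2) * circleAverage (fun ζ => |Real.log ‖g ζ‖|) 0 R +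
        (∑ u ∈ (divisor_ball_support_finite (hmero ())).toFinset,
          |(divisor g (ball 0 R) u : ℝ)|) * (2 * C0)) ≤ K * (S r * S r * r) := by
    have h1 : 2 * R / (R ^ 2 - r ^ 2) * circleAverage (fun ζ => |Real.log ‖g ζ‖|) 0 R ≤
        (6 * S r) * ((4 + A) * S r) := mul_le_mul hcoef hav hav0 (by positivity)
    have h2 := mul_le_mul_of_nonneg_right hnum (by positivity : 0 ≤ 2 * C0)
    have h3 : 1 ≤ S r * S r := by nlinarith
    have h4 : S r * S r ≤ S r * S r * r := by nlinarith
    have h5 : 6 * S r * ((4 + A) * S r) ≤ 6 * (4 + A) * (S r * S r * r) := by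
      nlinarith
    rw [hK]
    nlinarith
  have hpos : 0 < 1 + (1 + 2 * R / (R ^ 2 - r ^ 2) * circleAverage (fun ζ => |Real.log ‖g ζ‖|) 0 R +
        (∑ u ∈ (divisor_ball_support_finite (hmero ())).toFinset,
          |(divisor g (ball 0 R) u : ℝ)|) * (2 * C0)) := by
    have h1 : 0 ≤ 2 * R / (R ^ 2 - r ^ 2) := by
      have : 0 < R ^ 2 - r ^ 2 := by nlinarith
      positivity
    have h2 : 0 ≤ (∑ u ∈ (divisor_ball_support_finite (hmero ())).toFinset,
          |(divisor g (ball 0 R) u : ℝ)|) * (2 * C0) :=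
      mul_nonneg (Finset.sum_nonneg fun _ _ => abs_nonneg _) (by positivity)
    have := mul_nonneg h1 hav0
    linarith
  have hlog := Real.log_le_log hpos hbd
  have hK0 : 0 < K := by linarith
  have hr0 : 0 < r := by linarith
  rw [Real.log_mul hK0.ne' (by positivity), Real.log_mul (by positivity) hr0.ne',
    Real.log_mul hs0.ne' hs0.ne'] at hlog
  have e9 : (1 : ℝ) / (1 / 2) = 2 := by norm_num
  rw [e9]
  change _ ≤ 2 * log K + 2 * log r + 4 * log (S r)
  linarith

end Run7.h493.TS
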