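import Pool.Agent.N131.SR.Cls
import Pool.Agent.Run7.h493.TS.Ldl

/-!
Sequences of meromorphic functions on the plane which are small with respect to a sequence of
comparison functions.
-/

set_option autoImplicit false

namespace Run7.h493.TS

open MeasureTheory Set Filter Topology Metric Real ValueDistribution MeromorphicOn Function
open Asymptotics
open Pool.Agent.N131.SR (Big NZ PL nz_or char_nonneg char_zero prox_zero char_const char_mul char_add
  prox_mul prox_add char_inv char_le_of_congr char_deriv pl_logDeriv Nb Nb_nonneg count_le_Nb)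
open Pool.Agent.TH143.EL (codis_ev codis_of_ev mero_id mero_ne mero_an)

/-- the filter of the pairs of a large index and a large radius -/
def FF (U : Ultrafilter ℕ) (L : ℕ → Filter ℝ) : Filter (ℕ × ℝ) :=
  Filter.bind (U : Filter ℕ) fun m => map (Prod.mk m) (L m)

theorem ev_FF {U : Ultrafilter ℕ} {L : ℕ → Filter ℝ} {P : ℕ × ℝ → Prop} :
    (∀ᶠ p in FF U L, P p) ↔ ∀ᶠ m in (U : Filter ℕ), ∀ᶠ r in L m, P (m, r) := by
  unfold FF
  rw [eventually_bind]
  simp only [eventually_map]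

/-- a sequence of comparison functions -/
structure Sy where
  /-- the indices -/
  U : Ultrafilter ℕ
  /-- the radii -/
  L : ℕ → Filter ℝ
  /-- the comparison functions -/
  τ : ℕ → ℝ → ℝ
  big : ∀ m, Big (L m)
  one : ∀ m, (fun _ : ℝ => (1 : ℝ)) =o[L m] τ m
  log : (fun p : ℕ × ℝ => Real.log p.2) =o[FF U L] fun p => τ p.1 p.2

variable (S : Sy)

/-- the filter -/
abbrev Sy.F : Filter (ℕ × ℝ) := FF S.U S.L

/-- the comparison function -/
abbrev Sy.t : ℕ × ℝ → ℝ := fun p => S.τ p.1 p.2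

theorem Sy.ge : ∀ᶠ p : ℕ × ℝ in S.F, 1 ≤ p.2 :=
  ev_FF.2 (Eventually.of_forall fun m => (S.big m).top (eventually_ge_atTop _))

/-- each member of the sequence -/
theorem Sy.o_each {s : ℕ × ℝ → ℝ} (h : ∀ m, (fun r => s (m, r)) =o[S.L m] S.τ m) :
    s =o[S.F] S.t := by
  rw [isLittleO_iff]
  intro c hc
  rw [ev_FF]
  exact Eventually.of_forall fun m => (isLittleO_iff.1 (h m)) hc

theorem Sy.const (c : ℕ → ℝ) : (fun p : ℕ × ℝ => c p.1) =o[S.F] S.t := by
  apply S.o_each
  intro m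
  have := (S.one m).const_mul_left (c m)
  simpa using this

theorem Sy.cst (c : ℝ) : (fun _ : ℕ × ℝ => c) =o[S.F] S.t := S.const fun _ => c

variable {S}

theorem o_of_ev {s t : ℕ × ℝ → ℝ} (hst : ∀ᶠ p in S.F, 0 ≤ s p ∧ s p ≤ t p)
    (ht : t =o[S.F] S.t) : s =o[S.F] S.t := by
  refine IsBigO.trans_isLittleO ?_ ht
  apply IsBigO.of_bound 1
  filter_upwards [hst] with r hr
  obtain ⟨h1, h2⟩ := hr
  rw [Real.norm_eq_abs, Real.norm_eq_abs, one_mul, abs_of_nonneg h1, abs_of_nonneg (h1.trans h2)]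
  exact h2

theorem O_of_ev {s t : ℕ × ℝ → ℝ} (hst : ∀ᶠ p in S.F, 0 ≤ s p ∧ s p ≤ t p)
    (ht : t =O[S.F] S.t) : s =O[S.F] S.t := by
  refine IsBigO.trans ?_ ht
  apply IsBigO.of_bound 1
  filter_upwards [hst] with r hr
  obtain ⟨h1, h2⟩ := hr
  rw [Real.norm_eq_abs, Real.norm_eq_abs, one_mul, abs_of_nonneg h1, abs_of_nonneg (h1.trans h2)]
  exact h2

theorem o_of_le {s t : ℕ × ℝ → ℝ} (hst : ∀ p : ℕ × ℝ, 1 ≤ p.2 → 0 ≤ s p ∧ s p ≤ t p)
    (ht : t =o[S.F] S.t) : s =o[S.F] S.t := o_of_ev (S.ge.mono hst) ht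

theorem O_of_le {s t : ℕ × ℝ → ℝ} (hst : ∀ p : ℕ × ℝ, 1 ≤ p.2 → 0 ≤ s p ∧ s p ≤ t p)
    (ht : t =O[S.F] S.t) : s =O[S.F] S.t := O_of_ev (S.ge.mono hst) ht

/-- the characteristics of a sequence of functions -/
noncomputable def ch (a : ℕ → ℂ → ℂ) (p : ℕ × ℝ) : ℝ := characteristic (a p.1) ⊤ p.2

/-- the proximity functions of a sequence of functions -/
noncomputable def px (a : ℕ → ℂ → ℂ) (p : ℕ × ℝ) : ℝ := proximity (a p.1) ⊤ p.2

variable (S) in
/-- the characteristics are `O(τ)` -/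
structure OT (a : ℕ → ℂ → ℂ) : Prop where
  mer : ∀ m, Meromorphic (a m)
  O : ch a =O[S.F] S.t

variable (S) in
/-- the characteristics are `o(τ)` -/
structure Sm (a : ℕ → ℂ → ℂ) : Prop where
  mer : ∀ m, Meromorphic (a m)
  o : ch a =o[S.F] S.t

theorem sm_const (c : ℕ → ℂ) : Sm S fun m _ => c m := by
  refine ⟨fun m => Meromorphic.const (c m), ?_⟩
  refine (S.const fun m => log⁺ ‖c m‖).congr_left fun p => ?_
  exact (char_const (c p.1) p.2).symm

theorem Sm.ot {a : ℕ → ℂ → ℂ} (h : Sm S a) : OT S a := ⟨h.mer, h.o.isBigO⟩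

theorem Sm.mul {a b : ℕ → ℂ → ℂ} (ha : Sm S a) (hb : Sm S b) : Sm S fun m z => a m z * b m z :=
  ⟨fun m => (ha.mer m).mul (hb.mer m), o_of_le (fun _ hr => ⟨char_nonneg _ hr,
    char_mul (ha.mer _) (hb.mer _) hr⟩) (ha.o.add hb.o)⟩

theorem Sm.add {a b : ℕ → ℂ → ℂ} (ha : Sm S a) (hb : Sm S b) : Sm S fun m z => a m z + b m z :=
  ⟨fun m => (ha.mer m).add (hb.mer m), o_of_le (fun _ hr => ⟨char_nonneg _ hr,
    char_add (ha.mer _) (hb.mer _) hr⟩) ((ha.o.add hb.o).add (S.cst (Real.log 2)))⟩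

theorem OT.mul {a b : ℕ → ℂ → ℂ} (ha : OT S a) (hb : OT S b) : OT S fun m z => a m z * b m z :=
  ⟨fun m => (ha.mer m).mul (hb.mer m), O_of_le (fun _ hr => ⟨char_nonneg _ hr,
    char_mul (ha.mer _) (hb.mer _) hr⟩) (ha.O.add hb.O)⟩

theorem OT.add {a b : ℕ → ℂ → ℂ} (ha : OT S a) (hb : OT S b) : OT S fun m z => a m z + b m z :=
  ⟨fun m => (ha.mer m).add (hb.mer m), O_of_le (fun _ hr => ⟨char_nonneg _ hr,
    char_add (ha.mer _) (hb.mer _) hr⟩) ((ha.O.add hb.O).add (S.cst (Real.log 2)).isBigO)⟩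

theorem OT.inv {a : ℕ → ℂ → ℂ} (ha : OT S a) : OT S fun m z => (a m z)⁻¹ := by
  choose C hC using fun m => char_inv (ha.mer m)
  exact ⟨fun m => (ha.mer m).inv, O_of_le (fun p hr => ⟨char_nonneg _ hr, hC p.1 p.2⟩)
    (ha.O.add (S.const C).isBigO)⟩

theorem Sm.inv {a : ℕ → ℂ → ℂ} (ha : Sm S a) : Sm S fun m z => (a m z)⁻¹ := by
  choose C hC using fun m => char_inv (ha.mer m)
  exact ⟨fun m => (ha.mer m).inv, o_of_le (fun p hr => ⟨char_nonneg _ hr, hC p.1 p.2⟩)
    (ha.o.add (S.const C))⟩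

theorem Sm.div {a b : ℕ → ℂ → ℂ} (ha : Sm S a) (hb : Sm S b) : Sm S fun m z => a m z / b m z := by
  have h1 := ha.mul hb.inv
  simpa [div_eq_mul_inv] using h1

theorem OT.div {a b : ℕ → ℂ → ℂ} (ha : OT S a) (hb : OT S b) : OT S fun m z => a m z / b m z := by
  have h1 := ha.mul hb.inv
  simpa [div_eq_mul_inv] using h1

theorem Sm.neg {a : ℕ → ℂ → ℂ} (ha : Sm S a) : Sm S fun m z => -(a m z) := by
  have h1 := (sm_const (S := S) fun _ => (-1 : ℂ)).mul ha
  simpa using h1

theorem OT.pow {a : ℕ → ℂ → ℂ} (ha : OT S a) (n : ℕ) : OT S fun m z => a m z ^ n := by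
  induction n with
  | zero => simpa using (sm_const (S := S) fun _ => (1 : ℂ)).ot
  | succ n ih =>
    have h1 := ih.mul ha
    simpa [pow_succ] using h1

theorem OT.sum {ι : Type*} (s : Finset ι) {a : ι → ℕ → ℂ → ℂ} (ha : ∀ i ∈ s, OT S (a i)) :
    OT S fun m z => ∑ i ∈ s, a i m z := by
  classical
  induction s using Finset.induction_on with
  | empty => simpa using (sm_const (S := S) fun _ => (0 : ℂ)).ot
  | insert i s hi ih =>
    simp only [Finset.sum_insert hi]
    exact (ha i (Finset.mem_insert_self i s)).add (ih fun j hj => ha j (Finset.mem_insert_of_mem hj))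

theorem OT.prod {ι : Type*} (s : Finset ι) {a : ι → ℕ → ℂ → ℂ} (ha : ∀ i ∈ s, OT S (a i)) :
    OT S fun m z => ∏ i ∈ s, a i m z := by
  classical
  induction s using Finset.induction_on with
  | empty => simpa using (sm_const (S := S) fun _ => (1 : ℂ)).ot
  | insert i s hi ih =>
    simp only [Finset.prod_insert hi]
    exact (ha i (Finset.mem_insert_self i s)).mul (ih fun j hj => ha j (Finset.mem_insert_of_mem hj))

theorem log_o {t : ℕ × ℝ → ℝ} (h0 : ∀ᶠ p in S.F, 0 ≤ t p) (ht : t =O[S.F] S.t) :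
    (fun p => Real.log (1 + t p)) =o[S.F] S.t := by
  obtain ⟨C, hC0, hC⟩ := ht.exists_pos
  rw [isLittleO_iff]
  intro c hc
  set ε : ℝ := c / (2 * C) with hε
  have hε0 : 0 < ε := by positivity
  have h1 := (isLittleO_iff.1 (S.cst |ε - 1 - Real.log ε|)) (show 0 < c / 2 by positivity)
  filter_upwards [h0, hC.bound, h1] with r h2 h3 h4
  have h5 := Real.log_le_sub_one_of_pos (x := ε * (1 + t r)) (by positivity)
  rw [Real.log_mul hε0.ne' (by positivity)] at h5
  have h6 : 0 ≤ Real.log (1 + t r) := Real.log_nonneg (by linarith)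
  rw [Real.norm_eq_abs, abs_of_nonneg h6]
  rw [Real.norm_eq_abs, abs_of_nonneg h2] at h3
  rw [Real.norm_eq_abs, abs_abs] at h4
  have h7 := le_abs_self (ε - 1 - Real.log ε)
  have h8 : ε * t r ≤ c / 2 * ‖S.t r‖ := by
    have h9 := mul_le_mul_of_nonneg_left h3 hε0.le
    have h10 : ε * (C * ‖S.t r‖) = c / 2 * ‖S.t r‖ := by
      rw [hε]
      field_simp
    linarith
  linarith

/-- logarithmic derivatives have small proximity functions -/
theorem ld_o {a : ℕ → ℂ → ℂ} (ha : OT S a) : px (fun m => logDeriv (a m)) =o[S.F] S.t := by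
  have key : ∀ m, ∃ (E : Set ℝ) (C : ℝ), volume E < ⊤ ∧ ∀ r, 1 ≤ r → r ∉ E →
      proximity (logDeriv (a m)) ⊤ r ≤ C + 2 * Real.log r +
        4 * Real.log (1 + characteristic (a m) ⊤ r) := by
    intro m
    rcases nz_or (ha.mer m) with h1 | h1
    · obtain ⟨E, C, hE, hC, hb⟩ := ldl (ha.mer m) h1
      exact ⟨E, C, hE, hb⟩
    · refine ⟨∅, 0, by simp, fun r hr _ => ?_⟩
      have h2 : ∀ᶠ z in codiscrete ℂ, logDeriv (a m) z = 0 := by
        filter_upwards [h1] with z hz
        rw [logDeriv_apply, hz, div_zero]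
      rw [prox_zero h2 (by positivity)]
      have h3 := Real.log_nonneg hr
      have h4 := Real.log_nonneg (x := 1 + characteristic (a m) ⊤ r)
        (by linarith [char_nonneg (a m) hr])
      positivity
  choose E C hE hC using key
  have h2 : (fun p : ℕ × ℝ => C p.1 + 2 * Real.log p.2 + 4 * Real.log (1 + ch a p)) =o[S.F] S.t :=
    ((S.const C).add (S.log.const_mul_left 2)).add
      ((log_o (S.ge.mono fun p hr => char_nonneg _ hr) ha.O).const_mul_left 4)
  refine o_of_ev ?_ h2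
  rw [ev_FF]
  refine Eventually.of_forall fun m => ?_
  filter_upwards [(S.big m).top (eventually_ge_atTop (1 : ℝ)), (S.big m).fin (E m) (hE m)]
    with r h3 h4
  exact ⟨proximity_nonneg r, hC m r h3 h4⟩

theorem Sm.deriv {a : ℕ → ℂ → ℂ} (ha : Sm S a) : Sm S fun m => deriv (a m) :=
  ⟨fun m => (ha.mer m).deriv, o_of_le (fun p hr => ⟨char_nonneg _ hr, char_deriv (ha.mer p.1) hr⟩)
    ((ha.o.const_mul_left 2).add (ld_o ha.ot))⟩

theorem horner {h : ℂ → ℂ} (hh : Meromorphic h) {r : ℝ} (hr : 1 ≤ r) (K : ℕ) :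
    ∀ e : ℕ → ℂ → ℂ, (∀ k, Meromorphic (e k)) →
      characteristic (fun z => ∑ k ∈ Finset.range (K + 1), e k z * h z ^ k) ⊤ r ≤
        K * characteristic h ⊤ r +
          ∑ k ∈ Finset.range (K + 1), (characteristic (e k) ⊤ r + Real.log 2) := by
  induction K with
  | zero =>
    intro e he
    have : (fun z => ∑ k ∈ Finset.range (0 + 1), e k z * h z ^ k) = e 0 := by
      funext z
      simp
    rw [this]
    have h2 : 0 ≤ Real.log 2 := Real.log_nonneg (by norm_num)
    simp only [Nat.cast_zero, zero_mul, zero_add, Finset.sum_range_one]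
    linarith
  | succ K ih =>
    intro e he
    have h1 := ih (fun k => e (k + 1)) fun k => he (k + 1)
    have e1 : (fun z => ∑ k ∈ Finset.range (K + 1 + 1), e k z * h z ^ k) =
        fun z => h z * (∑ k ∈ Finset.range (K + 1), e (k + 1) z * h z ^ k) + e 0 z := by
      funext z
      rw [Finset.sum_range_succ']
      simp only [pow_zero, mul_one, Finset.mul_sum]
      congr 1
      apply Finset.sum_congr rfl
      intro k _
      ring
    have hm : Meromorphic fun z => ∑ k ∈ Finset.range (K + 1), e (k + 1) z * h z ^ k := by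
      intro z
      exact MeromorphicAt.fun_sum fun k _ => ((he (k + 1)) z).mul ((hh z).pow k)
    rw [e1]
    have h2 := char_add (hh.mul hm) (he 0) hr
    have h3 := char_mul hh hm hr
    have h4 : (∑ k ∈ Finset.range (K + 1 + 1), (characteristic (e k) ⊤ r + Real.log 2)) =
        ∑ k ∈ Finset.range (K + 1), (characteristic (e (k + 1)) ⊤ r + Real.log 2) +
          (characteristic (e 0) ⊤ r + Real.log 2) := Finset.sum_range_succ' _ _
    rw [h4]
    have h5 : characteristic (fun z => h z * (∑ k ∈ Finset.range (K + 1), e (k + 1) z * h z ^ k) +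
        e 0 z) ⊤ r ≤ characteristic (fun z => h z * (∑ k ∈ Finset.range (K + 1),
          e (k + 1) z * h z ^ k)) ⊤ r + characteristic (e 0) ⊤ r + Real.log 2 := h2
    push_cast
    linarith

/-- algebraic functions over the small functions are small -/
theorem alg_small {h : ℕ → ℂ → ℂ} (hh : ∀ m, Meromorphic (h m)) {K : ℕ} {b : ℕ → ℕ → ℂ → ℂ}
    (hb : ∀ k, Sm S (b k)) (hne : ∀ᶠ m in (S.U : Filter ℕ), ∀ᶠ z in codiscrete ℂ, b (K + 1) m z ≠ 0)
    (hs : ∀ᶠ m in (S.U : Filter ℕ), ∀ᶠ z in codiscrete ℂ,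
      ∑ k ∈ Finset.range (K + 2), b k m z * h m z ^ k = 0) :
    Sm S h := by
  classical
  set e : ℕ → ℕ → ℂ → ℂ := fun k m z => (-1) * (b k m z * (b (K + 1) m z)⁻¹) with he
  have hes : ∀ k, Sm S (e k) := fun k =>
    (sm_const fun _ => (-1 : ℂ)).mul ((hb k).mul (hb (K + 1)).inv)
  refine ⟨hh, ?_⟩
  have hsum : (fun p => ∑ k ∈ Finset.range (K + 1), (ch (e k) p + Real.log 2)) =o[S.F] S.t := by
    have h1 : (∑ k ∈ Finset.range (K + 1), fun p => (ch (e k) p + Real.log 2)) =o[S.F] S.t :=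
      IsLittleO.sum fun k _ => (hes k).o.add (S.cst (Real.log 2))
    refine h1.congr_left fun r => ?_
    rw [Finset.sum_apply]
  refine o_of_ev ?_ hsum
  rw [ev_FF]
  filter_upwards [hne, hs] with m hm1 hm2
  have hpow : ∀ᶠ z in codiscrete ℂ, h m z ^ (K + 1) =
      ∑ k ∈ Finset.range (K + 1), e k m z * h m z ^ k := by
    filter_upwards [hm2, hm1] with z h1 h2
    rw [Finset.sum_range_succ] at h1
    have h3 : ∑ k ∈ Finset.range (K + 1), e k m z * h m z ^ k =
        -(b (K + 1) m z)⁻¹ * ∑ k ∈ Finset.range (K + 1), b k m z * h m z ^ k := by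
      rw [Finset.mul_sum]
      apply Finset.sum_congr rfl
      intro k _
      simp only [he]
      ring
    rw [h3]
    have h4 : ∑ k ∈ Finset.range (K + 1), b k m z * h m z ^ k = -(b (K + 1) m z * h m z ^ (K + 1)) := by
      linear_combination h1
    rw [h4]
    field_simp
  filter_upwards [(S.big m).top (eventually_ge_atTop (1 : ℝ))] with r hr
  refine ⟨char_nonneg _ hr, ?_⟩
  have h1 := horner (hh m) hr K (fun k => e k m) fun k => (hes k).mer m
  rw [← char_le_of_congr hpow hr] at h1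
  have h2 : characteristic (fun z => h m z ^ (K + 1)) ⊤ r = (K + 1 : ℕ) * characteristic (h m) ⊤ r := by
    have h3 := characteristic_pow_top (n := K + 1) (hh m)
    have h4 : (fun z => h m z ^ (K + 1)) = h m ^ (K + 1) := rfl
    rw [h4, h3]
    simp
  rw [h2] at h1
  push_cast at h1
  show characteristic (h m) ⊤ r ≤ _
  unfold ch
  linarith

/-- logarithmic derivatives with few poles are small -/
theorem sm_logDeriv {u : ℕ → ℂ → ℂ} (hu : OT S u) (hnz : ∀ m, NZ (u m)) {h1 h2 : ℕ → ℂ → ℂ}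
    (hd1 : ∀ m, Differentiable ℂ (h1 m)) (hd2 : ∀ m, Differentiable ℂ (h2 m))
    (hn1 : ∀ m, ∃ z, h1 m z ≠ 0) (hn2 : ∀ m, ∃ z, h2 m z ≠ 0)
    (hz : ∀ m z, h1 m z ≠ 0 → h2 m z ≠ 0 → 0 ≤ meromorphicOrderAt (logDeriv (u m)) z)
    (hN1 : (fun p : ℕ × ℝ => Nb (h1 p.1) p.2) =o[S.F] S.t)
    (hN2 : (fun p : ℕ × ℝ => Nb (h2 p.1) p.2) =o[S.F] S.t) : Sm S fun m => logDeriv (u m) := by
  have hmer : ∀ m, Meromorphic (logDeriv (u m)) := fun m => (hu.mer m).deriv.div (hu.mer m)
  refine ⟨hmer, ?_⟩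
  have key : ∀ m r, 1 ≤ r → ValueDistribution.logCounting (logDeriv (u m)) ⊤ r ≤
      (1 : ℕ) * (Nb (h1 m) r + Nb (h2 m) r) := by
    intro m r hr
    rw [logCounting_top]
    have hD : ∀ z, (divisor (logDeriv (u m)) univ)⁻ z = (divisor (logDeriv (u m)) univ z)⁻ :=
      fun z => rfl
    apply count_le_Nb (hd1 m) (hd2 m) (hn1 m) (hn2 m) _ _ hr
    · intro z
      rw [hD, divisor_apply (hmer m).meromorphicOn (mem_univ z)]
      refine ⟨negPart_nonneg _, ?_⟩
      have h3 := pl_logDeriv (hu.mer m) (hnz m) z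
      rcases eq_or_ne (meromorphicOrderAt (logDeriv (u m)) z) ⊤ with h4 | h4
      · rw [h4]
        simp
      · lift meromorphicOrderAt (logDeriv (u m)) z to ℤ using h4 with n
        have h5 : -((1 : ℕ) : ℤ) ≤ n := by exact_mod_cast h3
        rw [WithTop.untop₀_coe]
        rcases le_total n 0 with h6 | h6
        · rw [negPart_of_nonpos h6]
          omega
        · rw [negPart_of_nonneg h6]
          omega
    · intro z h3 h4
      rw [hD, divisor_apply (hmer m).meromorphicOn (mem_univ z), negPart_eq_zero]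
      have h5 := hz m z h3 h4
      rcases eq_or_ne (meromorphicOrderAt (logDeriv (u m)) z) ⊤ with h6 | h6
      · rw [h6]; simp
      · lift meromorphicOrderAt (logDeriv (u m)) z to ℤ using h6 with n
        rw [WithTop.untop₀_coe]
        exact_mod_cast h5
  have h3 : (fun p : ℕ × ℝ => px (fun m => logDeriv (u m)) p + (Nb (h1 p.1) p.2 + Nb (h2 p.1) p.2))
      =o[S.F] S.t := (ld_o hu).add (hN1.add hN2)
  refine o_of_le (fun p hr => ⟨char_nonneg _ hr, ?_⟩) h3
  have := key p.1 p.2 hr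
  unfold ch px characteristic
  simp only [Pi.add_apply]
  push_cast at this
  linarith

end Run7.h493.TS
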