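import Mathlib

/-!
Elements with given logarithmic derivatives, over a differential field.
-/

set_option autoImplicit false

namespace Run7.h493.TS

variable {E : Type} [Field E] (D : E →+ E) (hmul : ∀ a b, D (a * b) = a * D b + b * D a)

include hmul

theorem D_one : D 1 = 0 := by
  have h := hmul 1 1
  simp only [mul_one, one_mul] at h
  exact (left_eq_add.1 h)

theorem D_div {v w : E} (hw : w ≠ 0) : w * D (v / w) = D v - v * (D w / w) := by
  have h := hmul (v / w) w
  rw [div_mul_cancel₀ _ hw] at h
  rw [h]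
  field_simp
  ring

theorem lg_mul {v w : E} (hv : v ≠ 0) (hw : w ≠ 0) : D (v * w) / (v * w) = D v / v + D w / w := by
  rw [hmul]
  field_simp
  ring

theorem lg_inv {v : E} (hv : v ≠ 0) : D v⁻¹ / v⁻¹ = -(D v / v) := by
  have h := lg_mul D hmul hv (inv_ne_zero hv)
  rw [mul_inv_cancel₀ hv, D_one D hmul, zero_div] at h
  linear_combination -h

theorem lg_npow {v : E} (hv : v ≠ 0) (n : ℕ) : D (v ^ n) / v ^ n = n * (D v / v) := by
  induction n with
  | zero => rw [pow_zero, D_one D hmul, zero_div, Nat.cast_zero, zero_mul]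
  | succ n ih =>
    rw [pow_succ, lg_mul D hmul (pow_ne_zero n hv) hv, ih]
    push_cast
    ring

theorem lg_zpow {v : E} (hv : v ≠ 0) (n : ℤ) : D (v ^ n) / v ^ n = n * (D v / v) := by
  cases n with
  | ofNat n =>
    simp only [Int.ofNat_eq_natCast, zpow_natCast, Int.cast_natCast]
    exact lg_npow D hmul hv n
  | negSucc n =>
    rw [zpow_negSucc, lg_inv D hmul (pow_ne_zero _ hv), lg_npow D hmul hv]
    push_cast
    ring

theorem lg_prod {ι : Type} (s : Finset ι) (v : ι → E) (hv : ∀ i ∈ s, v i ≠ 0) :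
    D (∏ i ∈ s, v i) / ∏ i ∈ s, v i = ∑ i ∈ s, D (v i) / v i := by
  classical
  induction s using Finset.induction_on with
  | empty => rw [Finset.prod_empty, D_one D hmul, zero_div, Finset.sum_empty]
  | insert i s hi ih =>
    rw [Finset.prod_insert hi, Finset.sum_insert hi, lg_mul D hmul
      (hv i (Finset.mem_insert_self i s)) (Finset.prod_ne_zero_iff.2 fun j hj =>
        hv j (Finset.mem_insert_of_mem hj)), ih fun j hj => hv j (Finset.mem_insert_of_mem hj)]

/-- elements with logarithmic derivatives in the base field which are pairwise not proportional are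
linearly independent -/
theorem kol (K : Subfield E) (hD : ∀ a ∈ K, D a ∈ K) (hc : ∀ a, D a = 0 → a ∈ K) {ι : Type}
    (u : ι → E) (hu0 : ∀ i, u i ≠ 0) (hu : ∀ i, D (u i) / u i ∈ K)
    (hne : ∀ i j, i ≠ j → u i / u j ∉ K) : ∀ (n : ℕ) (s : Finset ι), s.card = n →
      ∀ a : ι → E, (∀ i ∈ s, a i ∈ K) → ∑ i ∈ s, a i * u i = 0 → ∀ i ∈ s, a i = 0 := by
  classical
  intro n
  induction n with
  | zero =>
    intro s hs a _ _ i hi
    rw [Finset.card_eq_zero] at hs
    rw [hs] at hi
    simp at hi
  | succ n ih =>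
    intro s hs a ha hsum
    by_contra hcon
    push Not at hcon
    obtain ⟨i₀, hi₀, h0⟩ := hcon
    obtain ⟨c, hc'⟩ : ∃ c : ι → E, c = fun i => a i / a i₀ := ⟨_, rfl⟩
    have hcK : ∀ i ∈ s, c i ∈ K := fun i hi => by
      rw [hc']
      exact K.div_mem (ha i hi) (ha i₀ hi₀)
    have hc1 : c i₀ = 1 := by rw [hc']; exact div_self h0
    have hcs : ∑ i ∈ s, c i * u i = 0 := by
      have h1 : ∑ i ∈ s, c i * u i = (a i₀)⁻¹ * ∑ i ∈ s, a i * u i := by
        rw [Finset.mul_sum]
        refine Finset.sum_congr rfl fun i _ => ?_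
        rw [hc']
        simp only [div_eq_mul_inv]
        ring
      rw [h1, hsum, mul_zero]
    obtain ⟨b, hb⟩ : ∃ b : ι → E, b = fun i => D (c i) + c i * (D (u i) / u i - D (u i₀) / u i₀) :=
      ⟨_, rfl⟩
    have hbu : ∀ i, b i * u i = D (c i * u i) - (D (u i₀) / u i₀) * (c i * u i) := by
      intro i
      rw [hb, hmul]
      have := hu0 i
      have := hu0 i₀
      field_simp
      ring
    have hb0 : b i₀ = 0 := by
      rw [hb]
      simp only [sub_self, mul_zero, add_zero]
      rw [hc1]
      exact D_one D hmul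
    have hbs : ∑ i ∈ s.erase i₀, b i * u i = 0 := by
      have h1 : ∑ i ∈ s, b i * u i = 0 := by
        rw [Finset.sum_congr rfl fun i _ => hbu i, Finset.sum_sub_distrib, ← Finset.mul_sum, ← map_sum,
          hcs, map_zero, mul_zero, sub_zero]
      rw [← Finset.add_sum_erase s _ hi₀, hb0, zero_mul, zero_add] at h1
      exact h1
    have hcard : (s.erase i₀).card = n := by
      rw [Finset.card_erase_of_mem hi₀, hs, Nat.add_sub_cancel]
    have hbK : ∀ i ∈ s.erase i₀, b i ∈ K := by
      intro i hi
      have hi' := Finset.mem_of_mem_erase hi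
      rw [hb]
      exact K.add_mem (hD _ (hcK i hi')) (K.mul_mem (hcK i hi') (K.sub_mem (hu i) (hu i₀)))
    have hbz := ih (s.erase i₀) hcard b hbK hbs
    have hcz : ∀ i ∈ s.erase i₀, c i = 0 := by
      intro i hi
      by_contra hci
      have hi' := Finset.mem_of_mem_erase hi
      have hii : i ≠ i₀ := Finset.ne_of_mem_erase hi
      have h1 : D (c i * u i / u i₀) = 0 := by
        have h2 := D_div D hmul (v := c i * u i) (hu0 i₀)
        have h3 : D (c i * u i) - c i * u i * (D (u i₀) / u i₀) = b i * u i := by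
          rw [hbu]
          ring
        rw [h3, hbz i hi, zero_mul] at h2
        exact (mul_eq_zero.1 h2).resolve_left (hu0 i₀)
      have h2 := hc _ h1
      apply hne i i₀ hii
      have h3 : u i / u i₀ = (c i)⁻¹ * (c i * u i / u i₀) := by
        field_simp
      rw [h3]
      exact K.mul_mem (K.inv_mem (hcK i hi')) h2
    rw [← Finset.add_sum_erase s _ hi₀, hc1, one_mul, Finset.sum_eq_zero, add_zero] at hcs
    · exact hu0 i₀ hcs
    · intro i hi
      rw [hcz i hi, zero_mul]

end Run7.h493.TS
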