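import Pool.Agent.NH29.GN.Stb
import Pool.Agent.NH29.GN.Stb2
import Pool.Agent.Run7.h493.PS.Ld
import Pool.Agent.Run7.h493.TS.Filt
import Pool.Agent.Run7.h493.TS.Kol

/-!
The fields of sequences of meromorphic functions.
-/

set_option autoImplicit false

namespace Run7.h493.TS

open Filter Topology Metric Set
open Pool.Agent.N131.SR (NZ nz_or)
open Pool.Agent.TH143.EL (codis_ev codis_of_ev mero_id mero_ne mero_an)
open Pool.Agent.NH29.GN.Stb
open Pool.Agent.NH29.GN (Ind)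

variable (S : Sy)

/-- the filter of the pairs of a large index and a point off a discrete set -/
noncomputable def CD : Filter (ℕ × ℂ) := Filter.bind (S.U : Filter ℕ) fun m => map (Prod.mk m) (codiscrete ℂ)

theorem ev_CD {P : ℕ × ℂ → Prop} :
    (∀ᶠ p in CD S, P p) ↔ ∀ᶠ m in (S.U : Filter ℕ), ∀ᶠ z in codiscrete ℂ, P (m, z) := by
  unfold CD
  rw [eventually_bind]
  simp only [eventually_map]

instance : NeBot (CD S) := by
  constructor
  intro h
  have h1 : ∀ᶠ _ in CD S, False := by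
    rw [h]
    exact eventually_bot
  rw [ev_CD] at h1
  obtain ⟨m, hm⟩ := h1.exists
  exact hm.exists.choose_spec

/-- an ultrafilter -/
noncomputable def VV : Ultrafilter (ℕ × ℂ) := Ultrafilter.of (CD S)

theorem VV_le : (VV S : Filter (ℕ × ℂ)) ≤ CD S := Ultrafilter.of_le _

/-- germs along the ultrafilter -/
abbrev LL : Type := (VV S : Filter (ℕ × ℂ)).Germ ℂ

/-- the class of a sequence of functions -/
noncomputable def cs (a : ℕ → ℂ → ℂ) : LL S := pr (VV S) ℂ fun p => a p.1 p.2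

instance : IsAlgClosed (LL S) := closed (VV S) ℂ

variable {S}

theorem cs_eq {a b : ℕ → ℂ → ℂ} :
    cs S a = cs S b ↔ ∀ᶠ p in (VV S : Filter (ℕ × ℂ)), a p.1 p.2 = b p.1 p.2 := pr_eq (VV S)

theorem cs_zero {a : ℕ → ℂ → ℂ} :
    cs S a = 0 ↔ ∀ᶠ p in (VV S : Filter (ℕ × ℂ)), a p.1 p.2 = 0 := pr_eq_zero (VV S)

theorem cs_mul (a b : ℕ → ℂ → ℂ) : cs S (fun m z => a m z * b m z) = cs S a * cs S b :=
  pr_mul (VV S) _ _

theorem cs_add (a b : ℕ → ℂ → ℂ) : cs S (fun m z => a m z + b m z) = cs S a + cs S b :=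
  map_add (pr (VV S) ℂ) _ _

theorem cs_sub (a b : ℕ → ℂ → ℂ) : cs S (fun m z => a m z - b m z) = cs S a - cs S b :=
  map_sub (pr (VV S) ℂ) _ _

theorem cs_neg (a : ℕ → ℂ → ℂ) : cs S (fun m z => -(a m z)) = -cs S a :=
  map_neg (pr (VV S) ℂ) _

theorem cs_inv (a : ℕ → ℂ → ℂ) : cs S (fun m z => (a m z)⁻¹) = (cs S a)⁻¹ := pr_inv (VV S) _

theorem cs_div (a b : ℕ → ℂ → ℂ) : cs S (fun m z => a m z / b m z) = cs S a / cs S b :=
  pr_div (VV S) _ _

theorem cs_pow (a : ℕ → ℂ → ℂ) (n : ℕ) : cs S (fun m z => a m z ^ n) = cs S a ^ n :=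
  pr_pow (VV S) _ n

theorem cs_zpow (a : ℕ → ℂ → ℂ) (n : ℤ) : cs S (fun m z => a m z ^ n) = cs S a ^ n :=
  pr_zpow (VV S) _ n

theorem cs_sum {J : Type} (s : Finset J) (a : J → ℕ → ℂ → ℂ) :
    cs S (fun m z => ∑ j ∈ s, a j m z) = ∑ j ∈ s, cs S (a j) :=
  pr_sum (VV S) s fun j p => a j p.1 p.2

theorem cs_prod {J : Type} (s : Finset J) (a : J → ℕ → ℂ → ℂ) :
    cs S (fun m z => ∏ j ∈ s, a j m z) = ∏ j ∈ s, cs S (a j) :=
  pr_prod (VV S) s fun j p => a j p.1 p.2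

theorem cs_cst_one : cs S (fun _ _ => 1) = 1 := map_one (pr (VV S) ℂ)

theorem cs_cst_zero : cs S (fun _ _ => 0) = 0 := map_zero (pr (VV S) ℂ)

theorem ev_VV {P : ℕ × ℂ → Prop}
    (h : ∀ᶠ m in (S.U : Filter ℕ), ∀ᶠ z in codiscrete ℂ, P (m, z)) :
    ∀ᶠ p in (VV S : Filter (ℕ × ℂ)), P p := ((ev_CD S).2 h).filter_mono (VV_le S)

theorem cs_eq_of {a b : ℕ → ℂ → ℂ}
    (h : ∀ᶠ m in (S.U : Filter ℕ), ∀ᶠ z in codiscrete ℂ, a m z = b m z) : cs S a = cs S b :=
  cs_eq.2 (ev_VV h)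

theorem cs_ne_of {a : ℕ → ℂ → ℂ}
    (h : ∀ᶠ m in (S.U : Filter ℕ), ∀ᶠ z in codiscrete ℂ, a m z ≠ 0) : cs S a ≠ 0 := by
  intro h0
  obtain ⟨p, h1, h2⟩ := ((cs_zero.1 h0).and (ev_VV (P := fun p => a p.1 p.2 ≠ 0) h)).exists
  exact h2 h1

theorem zero_of_cs {a : ℕ → ℂ → ℂ} (ha : ∀ m, Meromorphic (a m)) (h : cs S a = 0) :
    ∀ᶠ m in (S.U : Filter ℕ), ∀ᶠ z in codiscrete ℂ, a m z = 0 := by
  by_contra hcon
  rw [← Ultrafilter.eventually_not] at hcon
  exact cs_ne_of (hcon.mono fun m hm => mero_ne (ha m) hm) h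

theorem ne_of_cs {a : ℕ → ℂ → ℂ} (ha : ∀ m, Meromorphic (a m)) (h : cs S a ≠ 0) :
    ∀ᶠ m in (S.U : Filter ℕ), ∀ᶠ z in codiscrete ℂ, a m z ≠ 0 := by
  have hcon : ¬ ∀ᶠ m in (S.U : Filter ℕ), ∀ᶠ z in codiscrete ℂ, a m z = 0 := fun h1 =>
    h (cs_zero.2 (ev_VV (P := fun p => a p.1 p.2 = 0) h1))
  rw [← Ultrafilter.eventually_not] at hcon
  exact hcon.mono fun m hm => mero_ne (ha m) hm

theorem eq_of_cs {a b : ℕ → ℂ → ℂ} (ha : ∀ m, Meromorphic (a m)) (hb : ∀ m, Meromorphic (b m))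
    (h : cs S a = cs S b) : ∀ᶠ m in (S.U : Filter ℕ), ∀ᶠ z in codiscrete ℂ, a m z = b m z := by
  have h1 : cs S (fun m z => a m z - b m z) = 0 := by rw [cs_sub, h, sub_self]
  exact (zero_of_cs (fun m => (ha m).sub (hb m)) h1).mono fun m hm => hm.mono fun z hz =>
    sub_eq_zero.1 hz

variable (S) in
/-- the small functions -/
noncomputable def K₀ : Subfield (LL S) where
  carrier := {x | ∃ a, Sm S a ∧ cs S a = x}
  mul_mem' := by
    rintro _ _ ⟨a, ha, rfl⟩ ⟨b, hb, rfl⟩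
    exact ⟨_, ha.mul hb, cs_mul a b⟩
  one_mem' := ⟨_, sm_const fun _ => 1, cs_cst_one⟩
  add_mem' := by
    rintro _ _ ⟨a, ha, rfl⟩ ⟨b, hb, rfl⟩
    exact ⟨_, ha.add hb, cs_add a b⟩
  zero_mem' := ⟨_, sm_const fun _ => 0, cs_cst_zero⟩
  neg_mem' := by
    rintro _ ⟨a, ha, rfl⟩
    exact ⟨_, ha.neg, cs_neg a⟩
  inv_mem' := by
    rintro _ ⟨a, ha, rfl⟩
    exact ⟨_, ha.inv, cs_inv a⟩

variable (S) in
/-- the constants -/
noncomputable def cst : ℂ →+* LL S := (pr (VV S) ℂ).comp (Pi.constRingHom (ℕ × ℂ) ℂ)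

theorem cst_apply (a : ℂ) : cst S a = cs S fun _ _ => a := rfl

instance : CharZero (LL S) := charZero_of_injective_ringHom (cst S).injective

instance : CharZero (K₀ S) := RingHom.charZero (algebraMap (K₀ S) (LL S))

variable (S) in
/-- the meromorphic functions -/
noncomputable def EE : IntermediateField (K₀ S) (LL S) where
  carrier := {x | ∃ a, (∀ m, Meromorphic (a m)) ∧ cs S a = x}
  mul_mem' := by
    rintro _ _ ⟨a, ha, rfl⟩ ⟨b, hb, rfl⟩
    exact ⟨_, fun m => (ha m).mul (hb m), cs_mul a b⟩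
  one_mem' := ⟨_, fun _ => Meromorphic.const 1, cs_cst_one⟩
  add_mem' := by
    rintro _ _ ⟨a, ha, rfl⟩ ⟨b, hb, rfl⟩
    exact ⟨_, fun m => (ha m).add (hb m), cs_add a b⟩
  zero_mem' := ⟨_, fun _ => Meromorphic.const 0, cs_cst_zero⟩
  algebraMap_mem' := by
    rintro ⟨x, a, ha, rfl⟩
    exact ⟨a, ha.mer, rfl⟩
  inv_mem' := by
    rintro _ ⟨a, ha, rfl⟩
    exact ⟨_, fun m => (ha m).inv, cs_inv a⟩

/-- the class of a meromorphic sequence -/
noncomputable def ce (a : ℕ → ℂ → ℂ) (ha : ∀ m, Meromorphic (a m)) : EE S := ⟨cs S a, a, ha, rfl⟩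

theorem exists_ce (x : EE S) : ∃ (a : ℕ → ℂ → ℂ) (ha : ∀ m, Meromorphic (a m)), x = ce a ha := by
  obtain ⟨x, a, ha, rfl⟩ := x
  exact ⟨a, ha, rfl⟩

/-- the small functions are algebraically closed in the meromorphic functions -/
theorem EE_closed (e : EE S) (he : IsAlgebraic (K₀ S) e) :
    ∃ a : K₀ S, algebraMap (K₀ S) (EE S) a = e := by
  classical
  obtain ⟨x, a, ha, rfl⟩ := e
  obtain ⟨p, hp, hpe⟩ := he
  have hpx : Polynomial.aeval (cs S a) p = 0 := by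
    have h1 := congrArg (algebraMap (EE S) (LL S)) hpe
    rw [map_zero, ← Polynomial.aeval_algebraMap_apply] at h1
    exact h1
  choose ρ hρ1 hρ2 using fun d : ℕ => (p.coeff d).2
  have hD0 : p.natDegree ≠ 0 := by
    intro h0
    rw [Polynomial.eq_C_of_natDegree_eq_zero h0, Polynomial.aeval_C, map_eq_zero] at hpx
    apply hp
    rw [Polynomial.eq_C_of_natDegree_eq_zero h0, hpx, Polynomial.C_0]
  obtain ⟨K, hK⟩ : ∃ K, p.natDegree = K + 1 := ⟨p.natDegree - 1, by omega⟩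
  have hsum : cs S (fun m z => ∑ k ∈ Finset.range (K + 2), ρ k m z * a m z ^ k) = 0 := by
    rw [cs_sum, ← hpx, Polynomial.aeval_eq_sum_range, hK]
    refine Finset.sum_congr rfl fun k _ => ?_
    rw [cs_mul, cs_pow, hρ2, Algebra.smul_def]
    rfl
  have hmer : ∀ m, Meromorphic fun z => ∑ k ∈ Finset.range (K + 2), ρ k m z * a m z ^ k := by
    intro m z
    exact MeromorphicAt.fun_sum fun k _ => ((hρ1 k).mer m z).mul ((ha m z).pow k)
  have hlead : cs S (ρ (K + 1)) ≠ 0 := by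
    rw [hρ2, ← hK]
    intro h0
    apply hp
    rw [← Polynomial.leadingCoeff_eq_zero, Polynomial.leadingCoeff]
    exact Subtype.ext h0
  have hsm : Sm S a := alg_small ha hρ1 (ne_of_cs (hρ1 (K + 1)).mer hlead) (zero_of_cs hmer hsum)
  exact ⟨⟨cs S a, a, hsm, rfl⟩, rfl⟩

/-! ### The derivation -/

theorem ev_deriv {a b : ℂ → ℂ} (h : ∀ᶠ z in codiscrete ℂ, a z = b z) :
    ∀ᶠ z in codiscrete ℂ, deriv a z = deriv b z := by
  apply codis_of_ev
  intro z
  have h3 : a =ᶠ[𝓝[≠] z] b := codis_ev h z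
  exact h3.nhdsNE_deriv

variable (S) in
/-- the derivative -/
noncomputable def dd0 (x : EE S) : EE S :=
  ce (fun m => deriv ((exists_ce x).choose m)) fun m => ((exists_ce x).choose_spec.choose m).deriv

theorem dd0_ce (a : ℕ → ℂ → ℂ) (ha : ∀ m, Meromorphic (a m)) :
    dd0 S (ce a ha) = ce (fun m => deriv (a m)) fun m => (ha m).deriv := by
  apply Subtype.ext
  have h1 := (exists_ce (ce (S := S) a ha)).choose_spec.choose_spec
  have h2 : cs S a = cs S (exists_ce (ce (S := S) a ha)).choose := congrArg Subtype.val h1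
  have h3 := eq_of_cs ha (exists_ce (ce (S := S) a ha)).choose_spec.choose h2
  exact (cs_eq_of (h3.mono fun m hm => ev_deriv hm)).symm

theorem an_ev {a : ℂ → ℂ} (ha : Meromorphic a) : ∀ᶠ z in codiscrete ℂ, AnalyticAt ℂ a z := mero_an ha

theorem dd0_add (x y : EE S) : dd0 S (x + y) = dd0 S x + dd0 S y := by
  obtain ⟨a, ha, rfl⟩ := exists_ce x
  obtain ⟨b, hb, rfl⟩ := exists_ce y
  have h1 : (ce a ha + ce b hb : EE S) = ce (fun m z => a m z + b m z) fun m => (ha m).add (hb m) :=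
    Subtype.ext (cs_add a b).symm
  rw [h1, dd0_ce, dd0_ce, dd0_ce]
  apply Subtype.ext
  show cs S (fun m => deriv (fun z => a m z + b m z)) =
    cs S (fun m => deriv (a m)) + cs S (fun m => deriv (b m))
  rw [← cs_add]
  apply cs_eq_of
  refine Eventually.of_forall fun m => ?_
  filter_upwards [an_ev (ha m), an_ev (hb m)] with z h2 h3
  exact deriv_fun_add h2.differentiableAt h3.differentiableAt

theorem dd0_mul (x y : EE S) : dd0 S (x * y) = x * dd0 S y + y * dd0 S x := by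
  obtain ⟨a, ha, rfl⟩ := exists_ce x
  obtain ⟨b, hb, rfl⟩ := exists_ce y
  have h1 : (ce a ha * ce b hb : EE S) = ce (fun m z => a m z * b m z) fun m => (ha m).mul (hb m) :=
    Subtype.ext (cs_mul a b).symm
  rw [h1, dd0_ce, dd0_ce, dd0_ce]
  apply Subtype.ext
  show cs S (fun m => deriv (fun z => a m z * b m z)) =
    cs S a * cs S (fun m => deriv (b m)) + cs S b * cs S (fun m => deriv (a m))
  rw [← cs_mul, ← cs_mul, ← cs_add]
  apply cs_eq_of
  refine Eventually.of_forall fun m => ?_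
  filter_upwards [an_ev (ha m), an_ev (hb m)] with z h2 h3
  show deriv (fun z => a m z * b m z) z = a m z * deriv (b m) z + b m z * deriv (a m) z
  rw [deriv_fun_mul h2.differentiableAt h3.differentiableAt]
  ring

variable (S) in
/-- the derivation -/
noncomputable def dd : EE S →+ EE S := AddMonoidHom.mk' (dd0 S) dd0_add

theorem dd_ce (a : ℕ → ℂ → ℂ) (ha : ∀ m, Meromorphic (a m)) :
    dd S (ce a ha) = ce (fun m => deriv (a m)) fun m => (ha m).deriv := dd0_ce a ha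

theorem dd_mul (x y : EE S) : dd S (x * y) = x * dd S y + y * dd S x := dd0_mul x y

variable (S) in
/-- the small functions, as a subfield -/
noncomputable def KE : Subfield (EE S) := (algebraMap (K₀ S) (EE S)).fieldRange

theorem mem_KE {x : EE S} : x ∈ KE S ↔ (x : LL S) ∈ K₀ S := by
  constructor
  · rintro ⟨y, rfl⟩
    exact y.2
  · intro h
    exact ⟨⟨x, h⟩, rfl⟩

theorem dd_small (x : EE S) (hx : x ∈ KE S) : dd S x ∈ KE S := by
  rw [mem_KE] at hx ⊢
  obtain ⟨a, ha, hax⟩ := hx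
  have h1 : x = ce a ha.mer := Subtype.ext hax.symm
  rw [h1, dd_ce]
  exact ⟨_, ha.deriv, rfl⟩

theorem const_of_deriv {a : ℂ → ℂ} (ha : Meromorphic a) (h : ∀ᶠ z in codiscrete ℂ, deriv a z = 0) :
    ∃ c : ℂ, ∀ᶠ z in codiscrete ℂ, a z = c := by
  obtain ⟨z₀, hz₀⟩ := (an_ev ha).exists
  have h1 : ∀ᶠ z in 𝓝[≠] z₀, deriv a z = 0 := codis_ev h z₀
  have h2 : ∀ᶠ z in 𝓝 z₀, deriv a z = 0 := by
    rcases hz₀.deriv.eventually_eq_zero_or_eventually_ne_zero with h3 | h3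
    · exact h3
    · exfalso
      obtain ⟨w, hw1, hw2⟩ := (h1.and h3).exists
      exact hw2 hw1
  obtain ⟨r, hr, hball⟩ := Metric.eventually_nhds_iff_ball.1 (h2.and hz₀.eventually_analyticAt)
  have h3 : ∀ z ∈ ball z₀ r, a z = a z₀ := by
    intro z hz
    refine IsOpen.is_const_of_deriv_eq_zero isOpen_ball (convex_ball z₀ r).isPreconnected
      (fun w hw => ((hball w hw).2.differentiableAt).differentiableWithinAt)
      (fun w hw => (hball w hw).1) hz (mem_ball_self hr)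
  refine ⟨a z₀, ?_⟩
  by_contra hcon
  have h4 : ¬ ∀ᶠ z in codiscrete ℂ, a z - a z₀ = 0 := fun h5 => hcon (h5.mono fun z hz =>
    sub_eq_zero.1 hz)
  have h5 := codis_ev (mero_ne (ha.sub (Meromorphic.const (a z₀))) h4) z₀
  have h6 : ∀ᶠ z in 𝓝[≠] z₀, z ∈ ball z₀ r := nhdsWithin_le_nhds (ball_mem_nhds z₀ hr)
  obtain ⟨z, hz1, hz2⟩ := (h5.and h6).exists
  exact hz1 (sub_eq_zero.2 (h3 z hz2))

theorem dd_const (x : EE S) (hx : dd S x = 0) : x ∈ KE S := by
  classical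
  obtain ⟨a, ha, rfl⟩ := exists_ce x
  rw [dd_ce] at hx
  have h1 : cs S (fun m => deriv (a m)) = 0 := congrArg Subtype.val hx
  have h2 := zero_of_cs (fun m => (ha m).deriv) h1
  have h3 : ∀ m, ∃ c : ℂ, (∀ᶠ z in codiscrete ℂ, deriv (a m) z = 0) →
      ∀ᶠ z in codiscrete ℂ, a m z = c := by
    intro m
    by_cases h : ∀ᶠ z in codiscrete ℂ, deriv (a m) z = 0
    · obtain ⟨c, hc⟩ := const_of_deriv (ha m) h
      exact ⟨c, fun _ => hc⟩
    · exact ⟨0, fun h' => absurd h' h⟩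
  choose c hc using h3
  rw [mem_KE]
  refine ⟨_, sm_const c, ?_⟩
  exact (cs_eq_of (h2.mono fun m hm => hc m hm)).symm

variable (S) in
/-- the algebraic closure -/
noncomputable abbrev KK : IntermediateField (K₀ S) (LL S) := algebraicClosure (K₀ S) (LL S)

instance : IsAlgClosed (KK S) := (inferInstance : IsAlgClosure (K₀ S) (KK S)).isAlgClosed

/-- meromorphic functions with small logarithmic derivatives -/
theorem ind_seq {q : ℕ} (w : Fin q → ℕ → ℂ → ℂ) (hw : ∀ b m, Meromorphic (w b m))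
    (h0 : ∀ b, cs S (w b) ≠ 0) (hθ : ∀ b, Sm S fun m => logDeriv (w b m)) (v : Fin q → LL S)
    (hv : ∀ b, v b = cs S (w b)) : Ind (KK S) v := by
  classical
  intro s c hsum hne
  obtain ⟨y, hy⟩ : ∃ y : Fin q → EE S, y = fun b => ce (w b) (hw b) := ⟨_, rfl⟩
  have hy0 : ∀ b, y b ≠ 0 := by
    intro b h
    apply h0 b
    rw [hy] at h
    exact congrArg Subtype.val h
  have hyv : ∀ b, (y b : LL S) = v b := fun b => by rw [hy, hv]; rfl
  have hyθ : ∀ b, dd S (y b) / y b ∈ KE S := by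
    intro b
    rw [mem_KE]
    refine ⟨_, hθ b, ?_⟩
    rw [hy, dd_ce]
    show cs S (fun m => logDeriv (w b m)) = cs S (fun m => deriv (w b m)) / cs S (w b)
    rw [← cs_div]
    rfl
  obtain ⟨u, hu⟩ : ∃ u : (Fin q → ℤ) → EE S, u = fun e => ∏ b, y b ^ e b := ⟨_, rfl⟩
  have huv : ∀ e : Fin q → ℤ, ((u e : EE S) : LL S) = ∏ b, v b ^ e b := by
    intro e
    rw [hu]
    have h1 : ((∏ b, y b ^ e b : EE S) : LL S) = algebraMap (EE S) (LL S) (∏ b, y b ^ e b) := rfl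
    rw [h1, map_prod]
    refine Finset.prod_congr rfl fun b _ => ?_
    rw [map_zpow₀]
    exact congrArg (fun t => t ^ e b) (hyv b)
  have hu0 : ∀ e, u e ≠ 0 := fun e => by
    rw [hu]
    exact Finset.prod_ne_zero_iff.2 fun b _ => zpow_ne_zero _ (hy0 b)
  have huθ : ∀ e, dd S (u e) / u e ∈ KE S := by
    intro e
    rw [hu]
    show dd S (∏ b, y b ^ e b) / ∏ b, y b ^ e b ∈ KE S
    rw [lg_prod (dd S) dd_mul Finset.univ (fun b => y b ^ e b) fun b _ => zpow_ne_zero _ (hy0 b)]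
    refine Subfield.sum_mem _ fun b _ => ?_
    rw [lg_zpow (dd S) dd_mul (hy0 b)]
    exact Subfield.mul_mem _ (intCast_mem _ _) (hyθ b)
  have hB := kol (dd S) dd_mul (KE S) dd_small dd_const (ι := {e // e ∈ s}) (fun e => u e.1)
    (fun e => hu0 e.1) (fun e => huθ e.1) (by
      intro e e' hee' hK
      rw [mem_KE] at hK
      have hK' : ((u e.1 / u e'.1 : EE S) : LL S) ∈ KK S := (KK S).algebraMap_mem ⟨_, hK⟩
      refine hne e.1 e.2 e'.1 e'.2 (fun h => hee' (Subtype.ext h)) ⟨_, hK'⟩ ?_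
      rw [← huv, ← huv]
      show _ = ((u e.1 / u e'.1 : EE S) : LL S) * (u e'.1 : LL S)
      have h1 : ((u e.1 / u e'.1 : EE S) : LL S) * (u e'.1 : LL S) =
          ((u e.1 / u e'.1 * u e'.1 : EE S) : LL S) := rfl
      rw [h1, div_mul_cancel₀ _ (hu0 e'.1)])
  have hld := Run7.h493.PS.ld (K := K₀ S) (E := EE S) (L := LL S) EE_closed (ι := {e // e ∈ s})
    (fun e => u e.1)
    (fun c' hc' i => by
      have h1 := hB _ Finset.univ rfl (fun e => algebraMap (K₀ S) (EE S) (c' e))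
        (fun e _ => ⟨c' e, rfl⟩) hc' i (Finset.mem_univ i)
      exact (map_eq_zero _).1 h1)
    (fun e => (c e.1 : LL S)) (fun e => mem_algebraicClosure_iff.1 (c e.1).2) (by
      rw [← hsum, ← Finset.sum_coe_sort s]
      refine Finset.sum_congr rfl fun e _ => ?_
      rw [← huv]
      rfl)
  intro e he
  exact Subtype.ext (hld ⟨e, he⟩)

end Run7.h493.TS
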