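import Pool.Agent.Run7.h493.TS.CoreC
import Pool.Agent.Run7.h493.TS.Curve

/-!
The truncated second main theorem with a uniform constant.
-/

set_option autoImplicit false

namespace Run7.h493.TS

open MeasureTheory Filter Topology Metric Set MvPolynomial Asymptotics
open Pool.Agent.N131.SR (NZ nz_or Nb Nb_nonneg exists_big Big char_nonneg char_le_of_congr)
open Pool.Agent.TH143.EL (codis_ev codis_of_ev mero_id mero_ne mero_an)
open Pool.Agent.NH29.GN (Idx Mon fv val NoZero Ind)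
open Run7.h493.PS (MultiHom)

/-! ### Comparison -/

theorem o_raw {U : Ultrafilter ℕ} {L : ℕ → Filter ℝ} {τ : ℕ → ℝ → ℝ} (hU : (U : Filter ℕ) ≤ atTop)
    (one : ∀ m, (fun _ : ℝ => (1 : ℝ)) =o[L m] τ m) {X : ℕ × ℝ → ℝ} {C : ℕ → ℝ}
    (h : ∀ m : ℕ, ∀ᶠ r in L m, 0 ≤ X (m, r) ∧ X (m, r) ≤ τ m r / (m + 1) + C m) :
    X =o[FF U L] fun p => τ p.1 p.2 := by
  rw [isLittleO_iff]
  intro c hc
  rw [ev_FF]
  have h1 : ∀ᶠ m : ℕ in atTop, 1 / ((m : ℝ) + 1) < c / 2 :=
    (tendsto_one_div_add_atTop_nhds_zero_nat).eventually_lt_const (by positivity)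
  filter_upwards [h1.filter_mono hU] with m hm
  have h2 := (isLittleO_iff.1 ((one m).const_mul_left (C m))) (show 0 < c / 2 by positivity)
  filter_upwards [h m, h2] with r h3 h4
  rw [Real.norm_eq_abs, abs_of_nonneg h3.1, Real.norm_eq_abs]
  simp only [mul_one, Real.norm_eq_abs] at h4
  have h5 : τ m r / (m + 1) ≤ 1 / ((m : ℝ) + 1) * |τ m r| := by
    rw [div_eq_mul_inv, one_div, mul_comm]
    exact mul_le_mul_of_nonneg_left (le_abs_self _) (by positivity)
  have h6 : 1 / ((m : ℝ) + 1) * |τ m r| ≤ c / 2 * |τ m r| :=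
    mul_le_mul_of_nonneg_right hm.le (abs_nonneg _)
  have h7 := le_abs_self (C m)
  linarith [h3.2]

theorem neBot_FF {U : Ultrafilter ℕ} {L : ℕ → Filter ℝ} (h : ∀ m, (L m).NeBot) :
    (FF U L).NeBot := by
  constructor
  intro hb
  have h1 : ∀ᶠ _ in FF U L, False := by
    rw [hb]
    exact eventually_bot
  rw [ev_FF] at h1
  obtain ⟨m, hm⟩ := h1.exists
  have := h m
  exact hm.exists.choose_spec

theorem diff_ne {a : ℂ → ℂ} (ha : Differentiable ℂ a) (h : ∃ z, a z ≠ 0) :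
    ∀ᶠ z in codiscrete ℂ, a z ≠ 0 := by
  apply codis_of_ev
  intro x
  rcases (ha.analyticAt x).eventually_eq_zero_or_eventually_ne_zero with h2 | h2
  · exfalso
    obtain ⟨z, hz⟩ := h
    apply hz
    have h3 : AnalyticOnNhd ℂ a univ := fun z _ => ha.analyticAt z
    exact h3.eqOn_zero_of_preconnected_of_eventuallyEq_zero isPreconnected_univ (mem_univ x) h2
      (mem_univ z)
  · exact h2

theorem ne_of_diff {a : ℂ → ℂ} (h : ∀ᶠ z in codiscrete ℂ, a z ≠ 0) : ∃ z, a z ≠ 0 := h.exists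

theorem OT.congr {S : Sy} {a b : ℕ → ℂ → ℂ} (ha : OT S a) (hb : ∀ m, Meromorphic (b m))
    (h : ∀ᶠ m in (S.U : Filter ℕ), ∀ᶠ z in codiscrete ℂ, b m z = a m z) : OT S b := by
  refine ⟨hb, O_of_ev ?_ ha.O⟩
  rw [ev_FF]
  filter_upwards [h] with m hm
  filter_upwards [(S.big m).top (eventually_ge_atTop (1 : ℝ))] with r hr
  exact ⟨char_nonneg _ hr, (char_le_of_congr hm hr).le⟩

theorem Sm.congr {S : Sy} {a b : ℕ → ℂ → ℂ} (ha : Sm S a) (hb : ∀ m, Meromorphic (b m))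
    (h : ∀ᶠ m in (S.U : Filter ℕ), ∀ᶠ z in codiscrete ℂ, b m z = a m z) : Sm S b := by
  refine ⟨hb, o_of_ev ?_ ha.o⟩
  rw [ev_FF]
  filter_upwards [h] with m hm
  filter_upwards [(S.big m).top (eventually_ge_atTop (1 : ℝ))] with r hr
  exact ⟨char_nonneg _ hr, (char_le_of_congr hm hr).le⟩

variable {M q : ℕ} {d : Fin q → ℕ}

/-! ### The data -/

/-- the values of the forms on the curve -/
noncomputable def hh (t : Idx M d → ℂ → ℂ) (f : Fin (M + 1) → ℂ → ℂ) (b : Fin q) (z : ℂ) : ℂ :=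
  fv (fun s => t s z) (fun i => f i z) b

/-- a curve in `V` and moving forms; the curve is contained in `F_b = 0` exactly for `b ∈ C` -/
structure DtC {k : Type} [Field k] [Algebra k ℂ] (V : Set (MvPolynomial (Fin (M + 1)) k))
    (C : Finset (Fin q)) (Φ : MvPolynomial (Idx M d) k) (t : Idx M d → ℂ → ℂ)
    (f : Fin (M + 1) → ℂ → ℂ) : Prop where
  td : ∀ s, Differentiable ℂ (t s)
  t0 : ∀ b z, ∃ β, t ⟨b, β⟩ z ≠ 0
  fd : ∀ i, Differentiable ℂ (f i)
  f0 : ∀ z, ∃ i, f i z ≠ 0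
  onV : ∀ z, ∀ H ∈ V, aeval (fun i => f i z) H = 0
  onC : ∀ c ∈ C, ∀ z, hh t f c z = 0
  off : ∀ b, b ∉ C → ∃ z, hh t f b z ≠ 0
  gen : ∃ z, aeval (fun s => t s z) Φ ≠ 0

open Classical in
/-- the right hand side -/
noncomputable def rhs (C : Finset (Fin q)) (t : Idx M d → ℂ → ℂ) (f : Fin (M + 1) → ℂ → ℂ)
    (r : ℝ) : ℝ :=
  ∑ b ∈ Finset.univ.filter (fun b => b ∉ C), Nb (hh t f b) r +
    ∑ b, Tf (fun β : Mon M (d b) => t ⟨b, β⟩) r + Real.log r

theorem hh_diff {t : Idx M d → ℂ → ℂ} {f : Fin (M + 1) → ℂ → ℂ} (ht : ∀ s, Differentiable ℂ (t s))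
    (hf : ∀ i, Differentiable ℂ (f i)) (b : Fin q) : Differentiable ℂ (hh t f b) := by
  unfold hh fv
  refine Differentiable.fun_sum fun β _ => (ht ⟨b, β⟩).mul ?_
  unfold val
  exact Differentiable.fun_finsetProd fun i _ => (hf i).pow _

theorem phi_diff {k : Type} [Field k] [Algebra k ℂ] {t : Idx M d → ℂ → ℂ}
    (ht : ∀ s, Differentiable ℂ (t s)) (P : MvPolynomial (Idx M d) k) :
    Differentiable ℂ fun z => aeval (fun s => t s z) P := by
  induction P using MvPolynomial.induction_on with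
  | C a => simp only [algHom_C]; exact differentiable_const _
  | add P Q hP hQ => simp only [map_add]; exact hP.fun_add hQ
  | mul_X P s hP => simp only [map_mul, aeval_X]; exact hP.fun_mul (ht s)

theorem order_zero {a : ℂ → ℂ} {z : ℂ} (ha : AnalyticAt ℂ a z) (h : a z ≠ 0) :
    meromorphicOrderAt a z = 0 := by
  rw [ha.meromorphicOrderAt_eq, ha.analyticOrderAt_eq_zero.2 h]
  rfl

theorem fv_div {K L : Type} [Field K] [Field L] [Algebra K L] (c : Fin q → K) (t : Idx M d → K)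
    (x : Fin (M + 1) → L) (b : Fin q) :
    fv (fun s : Idx M d => t s / c s.1) x b = fv t x b / algebraMap K L (c b) := by
  unfold fv
  rw [Finset.sum_div]
  refine Finset.sum_congr rfl fun β _ => ?_
  rw [map_div₀]
  ring

/-- values in affine coordinates -/
theorem fv_aff (t : Idx M d → ℂ) (x : Fin (M + 1) → ℂ) {c : ℂ} (hc : c ≠ 0) (b : Fin q) :
    fv t x b = c ^ d b * ∑ β : Mon M (d b), t ⟨b, β⟩ * ∏ i, (x i / c) ^ β.1 i := by
  unfold fv val
  rw [Finset.mul_sum]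
  refine Finset.sum_congr rfl fun β _ => ?_
  have h1 : ∏ i, (x i / c) ^ β.1 i = (∏ i, x i ^ β.1 i) / c ^ d b := by
    simp only [div_pow]
    have h2 : ∑ i, β.1 i = d b := by
      have h3 := β.2
      rw [Finsupp.degree_eq_sum] at h3
      exact h3
    rw [Finset.prod_div_distrib, Finset.prod_pow_eq_pow_sum, h2]
  rw [h1]
  show t ⟨b, β⟩ * _ = _
  field_simp

section Seq

variable {k : Type} [Field k] [Algebra k ℂ] {V : Set (MvPolynomial (Fin (M + 1)) k)}
  {C : Finset (Fin q)} {Φ : MvPolynomial (Idx M d) k} {S : Sy} {t : ℕ → Idx M d → ℂ → ℂ} {f : ℕ → Fin (M + 1) → ℂ → ℂ}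

/-- the normalised coefficients -/
noncomputable def tn (t : ℕ → Idx M d → ℂ → ℂ) (β : ℕ → (b : Fin q) → Mon M (d b)) (s : Idx M d)
    (m : ℕ) (z : ℂ) : ℂ := t m s z / t m ⟨s.1, β m s.1⟩ z

/-- a sequence of data with a bounded ratio does not exist -/
theorem seq_false {mm : Fin q → ℕ} (hm : MultiHom Φ mm) (hΦ : AllNB k V Φ)
    (hCu : C ≠ Finset.univ)
    (hD : ∀ m, DtC V C Φ (t m) (f m)) (hτ : ∀ m, S.τ m = Tf (f m))
    (hpos : ∀ m, ∀ᶠ r in S.L m, 1 ≤ S.τ m r)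
    (hN : ∀ b, b ∉ C → (fun p : ℕ × ℝ => Nb (hh (t p.1) (f p.1) b) p.2) =o[S.F] S.t)
    (hT : ∀ b, (fun p : ℕ × ℝ => Tf (fun β : Mon M (d b) => t p.1 ⟨b, β⟩) p.2) =o[S.F] S.t) :
    False := by
  classical
  choose β hβ using fun m b => (hD m).t0 b 0
  choose l hl using fun m => (hD m).f0 0
  have htm : ∀ m s, Meromorphic (t m s) := fun m s z => ((hD m).td s |>.analyticAt z).meromorphicAt
  have hfm : ∀ m i, Meromorphic (f m i) := fun m i z => ((hD m).fd i |>.analyticAt z).meromorphicAt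
  -- the coefficients are small
  have hsm : ∀ s, Sm S (tn t β s) := by
    rintro ⟨b, γ⟩
    choose C hC using fun m => ratio_le (f := fun β : Mon M (d b) => t m ⟨b, β⟩)
      (fun β => (hD m).td ⟨b, β⟩) ((hD m).t0 b) γ (β m b) ⟨0, hβ m b⟩
    exact ⟨fun m => (htm m _).div (htm m _), o_of_le (fun p hp => ⟨char_nonneg _ hp, hC p.1 p.2 hp⟩)
      ((hT b).add (S.const C))⟩
  -- the ratios of the coordinates
  have hot : ∀ i, OT S fun m z => f m i z / f m (l m) z := by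
    intro i
    choose C hC using fun m => ratio_le (hD m).fd (hD m).f0 i (l m) ⟨0, hl m⟩
    refine ⟨fun m => (hfm m _).div (hfm m _), O_of_le (fun p hp => ⟨char_nonneg _ hp,
      hC p.1 p.2 hp⟩) (IsBigO.add ?_ (S.const C).isBigO)⟩
    refine (isBigO_refl S.t S.F).congr_left fun p => ?_
    show S.τ p.1 p.2 = _
    rw [hτ]
  have hfl : ∀ m, ∀ᶠ z in codiscrete ℂ, f m (l m) z ≠ 0 := fun m => diff_ne ((hD m).fd _) ⟨0, hl m⟩
  have htβ : ∀ m b, ∀ᶠ z in codiscrete ℂ, t m ⟨b, β m b⟩ z ≠ 0 := fun m b =>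
    diff_ne ((hD m).td _) ⟨0, hβ m b⟩
  have hhn : ∀ m b, b ∉ C → ∀ᶠ z in codiscrete ℂ, hh (t m) (f m) b z ≠ 0 := fun m b hb =>
    diff_ne (hh_diff (hD m).td (hD m).fd b) ((hD m).off b hb)
  obtain ⟨g, hg⟩ : ∃ g : Fin q → ℕ → ℂ → ℂ, g = fun b m z => ∑ γ : Mon M (d b),
      tn t β ⟨b, γ⟩ m z * ∏ i, (f m i z / f m (l m) z) ^ γ.1 i := ⟨_, rfl⟩
  have hgot : ∀ b, OT S (g b) := by
    intro b
    rw [hg]
    exact OT.sum _ fun γ _ => (hsm ⟨b, γ⟩).ot.mul (OT.prod _ fun i _ => (hot i).pow _)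
  have hgv : ∀ b m z, f m (l m) z ≠ 0 →
      fv (fun s => tn t β s m z) (fun i => f m i z) b = f m (l m) z ^ d b * g b m z := by
    intro b m z hz
    rw [fv_aff _ _ hz, hg]
  have hgh : ∀ b m z, fv (fun s => tn t β s m z) (fun i => f m i z) b =
      hh (t m) (f m) b z / t m ⟨b, β m b⟩ z := by
    intro b m z
    exact fv_div (fun b => t m ⟨b, β m b⟩ z) (fun s => t m s z) (fun i => f m i z) b
  obtain ⟨F, hF⟩ : ∃ F : ℕ → ℂ → Fin (M + 1) → ℂ, F = fun m z i => f m i z := ⟨_, rfl⟩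
  have hcur : CurC k S V C Φ (tn t β) F := by
    refine ⟨hsm, fun m => ?_, fun m z h0 => ?_, fun m z H hH => ?_, fun m z c hc => ?_, fun m => ?_,
      fun b₀ hb₀ b hb => ?_⟩
    · have h1 := diff_ne (phi_diff (hD m).td Φ) (hD m).gen
      have h2 : ∀ᶠ z in codiscrete ℂ, ∀ b, t m ⟨b, β m b⟩ z ≠ 0 := by
        rw [eventually_all]
        exact htβ m
      filter_upwards [h1, h2] with z h3 h4
      have h5 := hm.scale (fun b => (t m ⟨b, β m b⟩ z)⁻¹) (fun s => t m s z)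
      have h6 : (fun s : Idx M d => tn t β s m z) =
          fun s => (t m ⟨s.1, β m s.1⟩ z)⁻¹ * t m s z := by
        funext s
        unfold tn
        rw [div_eq_mul_inv, mul_comm]
      rw [h6, h5]
      exact mul_ne_zero (Finset.prod_ne_zero_iff.2 fun b _ => pow_ne_zero _ (inv_ne_zero (h4 b))) h3
    · obtain ⟨i, hi⟩ := (hD m).f0 z
      apply hi
      have h1 := congrFun h0 i
      rw [hF] at h1
      exact h1
    · rw [hF]
      exact (hD m).onV z H hH
    · rw [hF]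
      show fv (fun s => tn t β s m z) (fun i => f m i z) c = 0
      rw [hgh, (hD m).onC c hc z, zero_div]
    · have h2 : ∀ᶠ z in codiscrete ℂ, ∀ b, b ∉ C → t m ⟨b, β m b⟩ z ≠ 0 ∧
          hh (t m) (f m) b z ≠ 0 := by
        rw [eventually_all]
        intro b
        by_cases hb : b ∈ C
        · exact Eventually.of_forall fun z h => absurd hb h
        · exact ((htβ m b).and (hhn m b hb)).mono fun z hz _ => hz
      filter_upwards [h2] with z h3 b hb
      rw [hF]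
      show fv (fun s => tn t β s m z) (fun i => f m i z) b ≠ 0
      rw [hgh]
      exact div_ne_zero (h3 b hb).2 (h3 b hb).1
    · obtain ⟨u, hu⟩ : ∃ u : ℕ → ℂ → ℂ, u = fun m z => g b m z ^ d b₀ / g b₀ m z ^ d b := ⟨_, rfl⟩
      have huot : OT S u := by
        rw [hu]
        exact ((hgot b).pow _).div ((hgot b₀).pow _)
      have hueq : ∀ m, ∀ᶠ z in codiscrete ℂ,
          u m z = fv (fun s => tn t β s m z) (fun i => f m i z) b ^ d b₀ /
            fv (fun s => tn t β s m z) (fun i => f m i z) b₀ ^ d b := by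
        intro m
        filter_upwards [hfl m] with z hz
        rw [hgv b m z hz, hgv b₀ m z hz, hu, mul_pow, mul_pow, ← pow_mul, ← pow_mul,
          mul_comm (d b₀) (d b), mul_div_mul_left _ _ (pow_ne_zero _ hz)]
      have hune : ∀ m, ∀ᶠ z in codiscrete ℂ, u m z ≠ 0 := by
        intro m
        filter_upwards [hueq m, htβ m b, htβ m b₀, hhn m b hb, hhn m b₀ hb₀] with z h1 h2 h3 h4 h5
        rw [h1, hgh, hgh]
        exact div_ne_zero (pow_ne_zero _ (div_ne_zero h4 h2)) (pow_ne_zero _ (div_ne_zero h5 h3))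
      refine ⟨u, huot.mer, ?_, fun m => by rw [hF]; exact hueq m⟩
      have hnb : ∀ b, (fun p : ℕ × ℝ => Nb (fun z => t p.1 ⟨b, β p.1 b⟩ z) p.2) =o[S.F] S.t := by
        intro b
        have h1 : ∀ m, ∃ C : ℝ, ∀ r, 1 ≤ r → Nb (fun z => t m ⟨b, β m b⟩ z) r ≤
            Tf (fun β : Mon M (d b) => t m ⟨b, β⟩) r + C := by
          intro m
          refine ⟨-Real.log ‖meromorphicTrailingCoeffAt (t m ⟨b, β m b⟩) 0‖, fun r hr => ?_⟩
          have h2 := Nb_le_count ((hD m).td ⟨b, β m b⟩) ⟨0, hβ m b⟩ hr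
          have h3 := avg_le (f := fun β : Mon M (d b) => t m ⟨b, β⟩) (fun β => (hD m).td ⟨b, β⟩)
            ((hD m).t0 b) (β m b) ⟨0, hβ m b⟩ hr
          have h4 := f_avg (f := fun β : Mon M (d b) => t m ⟨b, β⟩) (fun β => (hD m).td ⟨b, β⟩)
            (l := β m b) hr
          linarith
        choose C hC using h1
        exact o_of_le (fun p hp => ⟨Nb_nonneg hp, hC p.1 p.2 hp⟩) ((hT b).add (S.const C))
      refine sm_logDeriv huot (fun m => ?_)
        (h1 := fun m z => hh (t m) (f m) b z * hh (t m) (f m) b₀ z)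
        (h2 := fun m z => t m ⟨b, β m b⟩ z * t m ⟨b₀, β m b₀⟩ z)
        (fun m => (hh_diff (hD m).td (hD m).fd b).mul (hh_diff (hD m).td (hD m).fd b₀))
        (fun m => ((hD m).td _).mul ((hD m).td _)) (fun m => ?_) (fun m => ?_) (fun m z h1 h2 => ?_)
        ?_ ?_
      · exact Pool.Agent.N131.SR.nz_of_ne (huot.mer m) (hune m).frequently
      · exact (((hhn m b hb).and (hhn m b₀ hb₀)).mono fun z hz => mul_ne_zero hz.1 hz.2).exists
      · exact (((htβ m b).and (htβ m b₀)).mono fun z hz => mul_ne_zero hz.1 hz.2).exists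
      · apply meromorphicOrderAt_logDeriv_nonneg (huot.mer m z)
        have h3 : ∀ᶠ w in 𝓝[≠] z, u m w = (hh (t m) (f m) b w / t m ⟨b, β m b⟩ w) ^ d b₀ /
            (hh (t m) (f m) b₀ w / t m ⟨b₀, β m b₀⟩ w) ^ d b := by
          have h4 := codis_ev (hueq m) z
          filter_upwards [h4] with w hw
          rw [hw, hgh, hgh]
        rw [meromorphicOrderAt_congr h3]
        have ha := (hh_diff (hD m).td (hD m).fd b).analyticAt z
        have ha₀ := (hh_diff (hD m).td (hD m).fd b₀).analyticAt z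
        have hbt := ((hD m).td ⟨b, β m b⟩).analyticAt z
        have hbt₀ := ((hD m).td ⟨b₀, β m b₀⟩).analyticAt z
        have e1 := left_ne_zero_of_mul h1
        have e2 := right_ne_zero_of_mul h1
        have e3 := left_ne_zero_of_mul h2
        have e4 := right_ne_zero_of_mul h2
        refine order_zero ?_ ?_
        · exact ((ha.fun_div hbt e3).fun_pow _).fun_div ((ha₀.fun_div hbt₀ e4).fun_pow _)
            (pow_ne_zero _ (div_ne_zero e2 e4))
        · exact div_ne_zero (pow_ne_zero _ (div_ne_zero e1 e3)) (pow_ne_zero _ (div_ne_zero e2 e4))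
      · refine o_of_le (fun p hp => ⟨Nb_nonneg hp, ?_⟩) ((hN b hb).add (hN b₀ hb₀))
        exact Nb_mul_le (hh_diff (hD p.1).td (hD p.1).fd b) (hh_diff (hD p.1).td (hD p.1).fd b₀)
          ((hD p.1).off b hb) ((hD p.1).off b₀ hb₀)
          (((hhn p.1 b hb).and (hhn p.1 b₀ hb₀)).mono fun z hz => mul_ne_zero hz.1 hz.2).exists hp
      · refine o_of_le (fun p hp => ⟨Nb_nonneg hp, ?_⟩) ((hnb b).add (hnb b₀))
        exact Nb_mul_le ((hD p.1).td _) ((hD p.1).td _) ⟨0, hβ p.1 b⟩ ⟨0, hβ p.1 b₀⟩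
          (((htβ p.1 b).and (htβ p.1 b₀)).mono fun z hz => mul_ne_zero hz.1 hz.2).exists hp
  -- the points are constant
  obtain ⟨c, y, hcy⟩ := cst_ofC hΦ hCu hcur
  have hci : ∀ i, cs S (fun m z => f m i z) = c * algebraMap (KK S) (LL S) (y i) := by
    intro i
    have h1 := congrFun hcy i
    rw [← h1, hF]
    rfl
  obtain ⟨j, hj⟩ : ∃ j, cs S (fun m z => f m j z) ≠ 0 := by
    by_contra hcon
    push Not at hcon
    have h1 : ∀ᶠ p in (VV S : Filter (ℕ × ℂ)), ∀ i, f p.1 i p.2 = 0 := by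
      rw [eventually_all]
      exact fun i => cs_zero.1 (hcon i)
    obtain ⟨p, hp⟩ := h1.exists
    obtain ⟨i, hi⟩ := (hD p.1).f0 p.2
    exact hi (hp i)
  have hjm := ne_of_cs (fun m => hfm m j) hj
  have hratio : ∀ i, Sm S fun m z => f m i z / f m j z := by
    intro i
    have hmer : ∀ m, Meromorphic fun z => f m i z / f m j z := fun m => (hfm m i).div (hfm m j)
    obtain ⟨e, he⟩ : ∃ e : EE S, e = ce (fun m z => f m i z / f m j z) hmer := ⟨_, rfl⟩
    have heL : algebraMap (EE S) (LL S) e = algebraMap (KK S) (LL S) (y i / y j) := by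
      rw [he]
      show cs S (fun m z => f m i z / f m j z) = _
      rw [cs_div, hci i, hci j, map_div₀]
      have hc0 : c ≠ 0 := by
        intro h0
        apply hj
        rw [hci, h0, zero_mul]
      exact mul_div_mul_left _ _ hc0
    have halg : IsAlgebraic (K₀ S) e := by
      rw [← isAlgebraic_algebraMap_iff (algebraMap (EE S) (LL S)).injective, heL]
      exact mem_algebraicClosure_iff.1 (y i / y j).2
    obtain ⟨⟨x, a, ha, hax⟩, hx⟩ := EE_closed e halg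
    have h1 : x = algebraMap (EE S) (LL S) e := congrArg (algebraMap (EE S) (LL S)) hx
    rw [he] at h1
    have h2 : cs S (fun m z => f m i z / f m j z) = cs S a := by
      rw [hax, h1]
      rfl
    exact ha.congr hmer (eq_of_cs hmer ha.mer h2)
  have hB : ∀ m, ∃ B : ℝ, (∃ z, f m j z ≠ 0) → ∀ r, 1 ≤ r →
      Tf (f m) r ≤ ∑ i, ValueDistribution.characteristic (fun z => f m i z / f m j z) ⊤ r + B := by
    intro m
    by_cases h : ∃ z, f m j z ≠ 0
    · obtain ⟨B, hB⟩ := Tf_le (hD m).fd (hD m).f0 j h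
      exact ⟨B, fun _ => hB⟩
    · exact ⟨0, fun h' => absurd h' h⟩
  choose B hB using hB
  have hself : S.t =o[S.F] S.t := by
    have h1 : (fun p : ℕ × ℝ => ∑ i, ch (fun m z => f m i z / f m j z) p + B p.1) =o[S.F] S.t :=
      (IsLittleO.fun_sum fun i _ => (hratio i).o).add (S.const B)
    refine o_of_ev ?_ h1
    rw [ev_FF]
    filter_upwards [hjm] with m hm'
    filter_upwards [hpos m, (S.big m).top (eventually_ge_atTop (1 : ℝ))] with r h2 h3
    refine ⟨by linarith [show S.t (m, r) = S.τ m r from rfl], ?_⟩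
    have h4 := hB m hm'.exists r h3
    show S.τ m r ≤ _
    rw [hτ]
    exact h4
  have hne : (S.F).NeBot := neBot_FF fun m => (S.big m).ne
  refine isLittleO_irrefl ?_ hself
  refine Eventually.frequently ?_
  rw [ev_FF]
  refine Eventually.of_forall fun m => ?_
  filter_upwards [hpos m] with r hr
  show S.τ m r ≠ 0
  intro h6
  linarith

end Seq

/-- **The truncated second main theorem.** -/
theorem tsm {k : Type} [Field k] [Algebra k ℂ] {V : Set (MvPolynomial (Fin (M + 1)) k)}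
    {Φ : MvPolynomial (Idx M d) k} {mm : Fin q → ℕ} (hm : MultiHom Φ mm)
    (hΦ : AllNB k V Φ) (C₀ : Finset (Fin q)) (hCu : C₀ ≠ Finset.univ) :
    ∃ A : ℕ, ∀ (t : Idx M d → ℂ → ℂ) (f : Fin (M + 1) → ℂ → ℂ), DtC V C₀ Φ t f →
      ∃ E : Set ℝ, volume E < ⊤ ∧ ∀ r, 1 ≤ r → r ∉ E → Tf f r ≤ A * rhs C₀ t f r := by
  classical
  by_contra hcon
  push Not at hcon
  choose t f hD hE using fun m : ℕ => hcon (m + 1)
  have hvol : ∀ m, volume {r : ℝ | 1 ≤ r ∧ ((m + 1 : ℕ) : ℝ) * rhs C₀ (t m) (f m) r < Tf (f m) r} = ⊤ := by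
    intro m
    by_contra hlt
    obtain ⟨r, h1, h2, h3⟩ := hE m _ (lt_top_iff_ne_top.2 hlt)
    exact h2 ⟨h1, h3⟩
  choose L hL1 hL2 using fun m => exists_big (P := fun (_ : ℕ) (r : ℝ) =>
    ((m + 1 : ℕ) : ℝ) * rhs C₀ (t m) (f m) r < Tf (f m) r) (fun _ _ _ _ h => h) (fun _ => hvol m)
  have hge : ∀ m b, ∃ C : ℝ, 0 ≤ C ∧ ∀ r, 1 ≤ r →
      -C ≤ Tf (fun β : Mon M (d b) => t m ⟨b, β⟩) r := by
    intro m b
    obtain ⟨β, hβ⟩ := (hD m).t0 b 0
    exact Tf_ge (fun β => (hD m).td ⟨b, β⟩) ((hD m).t0 b) β ⟨0, hβ⟩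
  choose B hB0 hB using hge
  obtain ⟨C, hC⟩ : ∃ C : ℕ → ℝ, C = fun m => ∑ b, B m b := ⟨_, rfl⟩
  have hC0 : ∀ m, 0 ≤ C m := fun m => by
    rw [hC]; exact Finset.sum_nonneg fun b _ => hB0 m b
  -- the parts of the right hand side
  have hpart : ∀ m r, 1 ≤ r → ((m + 1 : ℕ) : ℝ) * rhs C₀ (t m) (f m) r < Tf (f m) r →
      ∀ X : ℝ, X ≤ rhs C₀ (t m) (f m) r + C m → X ≤ Tf (f m) r / (m + 1) + C m := by
    intro m r hr h X hX
    have h1 : (0 : ℝ) < m + 1 := by positivity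
    have h2 : rhs C₀ (t m) (f m) r ≤ Tf (f m) r / (m + 1) := by
      rw [le_div_iff₀ h1]
      push_cast at h
      linarith
    linarith
  have hN0 : ∀ m r, 1 ≤ r → 0 ≤ ∑ b ∈ Finset.univ.filter (fun b => b ∉ C₀),
      Nb (hh (t m) (f m) b) r := fun m r hr => Finset.sum_nonneg fun b _ => Nb_nonneg hr
  have hT0 : ∀ m r, 1 ≤ r → -C m ≤ ∑ b, Tf (fun β : Mon M (d b) => t m ⟨b, β⟩) r := by
    intro m r hr
    rw [hC, ← Finset.sum_neg_distrib]
    exact Finset.sum_le_sum fun b _ => hB m b r hr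
  have hlog : ∀ m r, 1 ≤ r → Real.log r ≤ rhs C₀ (t m) (f m) r + C m := by
    intro m r hr
    have h1 := hN0 m r hr
    have h2 := hT0 m r hr
    unfold rhs
    linarith
  have hNb : ∀ m b, b ∉ C₀ → ∀ r, 1 ≤ r →
      Nb (hh (t m) (f m) b) r ≤ rhs C₀ (t m) (f m) r + C m := by
    intro m b hb r hr
    have h1 : Nb (hh (t m) (f m) b) r ≤ ∑ b ∈ Finset.univ.filter (fun b => b ∉ C₀),
        Nb (hh (t m) (f m) b) r :=
      Finset.single_le_sum (f := fun b => Nb (hh (t m) (f m) b) r)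
        (fun b _ => Nb_nonneg hr) (Finset.mem_filter.2 ⟨Finset.mem_univ b, hb⟩)
    have h2 := hT0 m r hr
    have h3 := Real.log_nonneg hr
    unfold rhs
    linarith
  have hTb : ∀ m b r, 1 ≤ r → Tf (fun β : Mon M (d b) => t m ⟨b, β⟩) r + B m b ≤
      rhs C₀ (t m) (f m) r + C m := by
    intro m b r hr
    have h1 : Tf (fun β : Mon M (d b) => t m ⟨b, β⟩) r + B m b ≤
        ∑ b, (Tf (fun β : Mon M (d b) => t m ⟨b, β⟩) r + B m b) :=
      Finset.single_le_sum (f := fun b => Tf (fun β : Mon M (d b) => t m ⟨b, β⟩) r + B m b)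
        (fun b _ => by linarith [hB m b r hr]) (Finset.mem_univ b)
    rw [Finset.sum_add_distrib] at h1
    have h2 := hN0 m r hr
    have h3 := Real.log_nonneg hr
    have h4 : C m = ∑ b, B m b := by rw [hC]
    unfold rhs
    linarith
  have hev : ∀ m, ∀ᶠ r in L m, 1 ≤ r ∧ ((m + 1 : ℕ) : ℝ) * rhs C₀ (t m) (f m) r < Tf (f m) r :=
    fun m => by
      have h1 : ∀ᶠ r : ℝ in L m, 1 ≤ r := (hL1 m).top (eventually_ge_atTop _)
      exact h1.and (hL2 m 0)
  -- the characteristic is large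
  have hbig : ∀ m (x : ℝ), 0 ≤ x → ∀ᶠ r in L m, x ≤ Tf (f m) r := by
    intro m x hx
    have h1 : ∀ᶠ r in L m, x + C m ≤ Real.log r :=
      (hL1 m).top (Real.tendsto_log_atTop.eventually_ge_atTop (x + C m))
    filter_upwards [hev m, h1] with r h2 h3
    have h4 := hlog m r h2.1
    have h5 : x ≤ rhs C₀ (t m) (f m) r := by linarith
    have h6 : (1 : ℝ) ≤ ((m + 1 : ℕ) : ℝ) := by push_cast; linarith [Nat.cast_nonneg (α := ℝ) m]
    nlinarith [h2.2]
  have hone : ∀ m, (fun _ : ℝ => (1 : ℝ)) =o[L m] Tf (f m) := by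
    intro m
    rw [isLittleO_iff]
    intro c hc
    filter_upwards [hbig m (1 / c) (by positivity)] with r hr
    rw [norm_one, Real.norm_eq_abs]
    have h1 := le_abs_self (Tf (f m) r)
    have h2 : c * (1 / c) ≤ c * |Tf (f m) r| := mul_le_mul_of_nonneg_left (hr.trans h1) hc.le
    rwa [mul_one_div_cancel hc.ne'] at h2
  have hU : ((hyperfilter ℕ : Ultrafilter ℕ) : Filter ℕ) ≤ atTop := Nat.hyperfilter_le_atTop
  have hraw : ∀ X : ℕ × ℝ → ℝ, (∀ m r, 1 ≤ r → 0 ≤ X (m, r) ∧ X (m, r) ≤ rhs C₀ (t m) (f m) r + C m) →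
      X =o[FF (hyperfilter ℕ) L] fun p => Tf (f p.1) p.2 := by
    intro X hX
    refine o_raw (τ := fun m => Tf (f m)) hU hone (C := C) fun m => ?_
    filter_upwards [hev m] with r hr
    exact ⟨(hX m r hr.1).1, hpart m r hr.1 hr.2 _ (hX m r hr.1).2⟩
  obtain ⟨S, hS⟩ : ∃ S : Sy, S = ⟨hyperfilter ℕ, L, fun m => Tf (f m), hL1, hone,
    hraw (fun p => Real.log p.2) fun m r hr => ⟨Real.log_nonneg hr, hlog m r hr⟩⟩ := ⟨_, rfl⟩
  have hSF : S.F = FF (hyperfilter ℕ) L := by rw [hS]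
  have hSt : S.t = fun p => Tf (f p.1) p.2 := by rw [hS]
  refine seq_false (S := S) (t := t) (f := f) hm hΦ hCu hD (fun m => by rw [hS]) (fun m => ?_)
    (fun b hb => ?_) (fun b => ?_)
  · rw [hS]
    exact hbig m 1 zero_le_one
  · rw [hSF, hSt]
    exact hraw _ fun m r hr => ⟨Nb_nonneg hr, hNb m b hb r hr⟩
  · have h1 : (fun p : ℕ × ℝ => Tf (fun β : Mon M (d b) => t p.1 ⟨b, β⟩) p.2 + B p.1 b) =o[S.F]
        S.t := by
      rw [hSF, hSt]
      exact hraw _ fun m r hr => ⟨by linarith [hB m b r hr], hTb m b r hr⟩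
    have h2 := h1.sub (S.const fun m => B m b)
    refine h2.congr_left fun p => ?_
    ring

end Run7.h493.TS
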