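import Pool.Agent.Run7.h493.TS.MainC

/-!
Curves which meet the divisors with high multiplicities.
-/

set_option autoImplicit false

namespace Run7.h493.TS

open MeasureTheory Filter Topology Metric Set MvPolynomial Asymptotics ValueDistribution Function
open MeromorphicOn
open Function.locallyFinsuppWithin (toClosedBall toClosedBall_eval_within apply_eq_zero_of_notMem)
open Pool.Agent.N131.SR (NZ nz_or NZ.ne Nb Nb_eq Nb_nonneg zeros_finite)
open Pool.Agent.TH143.EL (codis_ev codis_of_ev mero_id mero_ne mero_an)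
open Pool.Agent.NH29.GN (Idx Mon fv val)

/-- counting functions from below -/
theorem count_ge {D : locallyFinsupp ℂ ℤ} (hD : 0 ≤ D) {r : ℝ} (hr : 1 ≤ r)
    (G : Finset ℂ) (hG : ∀ u ∈ G, ‖u‖ ≤ r) :
    ∑ u ∈ G, (D u : ℝ) * Real.log (r * ‖u‖⁻¹) + D 0 * Real.log r ≤
      locallyFinsuppWithin.logCounting D r := by
  classical
  have hr0 : 0 < r := by linarith
  have habs : |r| = r := abs_of_pos hr0
  have hnn : ∀ z, (0 : ℝ) ≤ (D z : ℝ) := fun z => by exact_mod_cast hD z
  have hs : (toClosedBall r D).support.Finite :=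
    (toClosedBall r D).finiteSupport (isCompact_closedBall 0 |r|)
  have hG' : ∀ u ∈ G, u ∈ closedBall (0 : ℂ) |r| := by
    intro u hu
    rw [habs, mem_closedBall_zero_iff]
    exact hG u hu
  have hlog : ∀ z ∈ closedBall (0 : ℂ) |r|, 0 ≤ Real.log (r * ‖z‖⁻¹) := by
    intro z hz
    rcases eq_or_ne z 0 with rfl | h
    · simp
    · apply Real.log_nonneg
      rw [habs, mem_closedBall_zero_iff] at hz
      have : 0 < ‖z‖ := norm_pos_iff.2 h
      rw [← div_eq_mul_inv, one_le_div this]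
      exact hz
  have e1 : locallyFinsuppWithin.logCounting D r =
      ∑ z ∈ hs.toFinset ∪ G, (toClosedBall r D z : ℝ) * Real.log (r * ‖z‖⁻¹) +
        (D 0) * Real.log r := by
    change ∑ᶠ z, (toClosedBall r D z : ℝ) * Real.log (r * ‖z‖⁻¹) + (D 0) * Real.log r = _
    congr 1
    apply finsum_eq_sum_of_support_subset
    intro z hz
    rw [Finset.coe_union]
    left
    rw [Finset.mem_coe, Set.Finite.mem_toFinset]
    intro h0
    apply hz
    simp only
    rw [h0]
    simp
  rw [e1]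
  have h2 : ∑ z ∈ G, (D z : ℝ) * Real.log (r * ‖z‖⁻¹) ≤
      ∑ z ∈ hs.toFinset ∪ G, (toClosedBall r D z : ℝ) * Real.log (r * ‖z‖⁻¹) := by
    have h3 : ∑ z ∈ G, (D z : ℝ) * Real.log (r * ‖z‖⁻¹) =
        ∑ z ∈ G, (toClosedBall r D z : ℝ) * Real.log (r * ‖z‖⁻¹) := by
      apply Finset.sum_congr rfl
      intro z hz
      rw [toClosedBall_eval_within _ (hG' z hz)]
    rw [h3]
    apply Finset.sum_le_sum_of_subset_of_nonneg Finset.subset_union_right
    intro z _ _
    by_cases hz : z ∈ closedBall (0 : ℂ) |r|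
    · rw [toClosedBall_eval_within _ hz]
      exact mul_nonneg (hnn z) (hlog z hz)
    · rw [apply_eq_zero_of_notMem _ hz]
      simp
  linarith

theorem ent_mero {h : ℂ → ℂ} (hd : Differentiable ℂ h) : Meromorphic h := fun z =>
  (hd.analyticAt z).meromorphicAt

theorem ent_nz {h : ℂ → ℂ} (hd : Differentiable ℂ h) (hn : ∃ z, h z ≠ 0) : NZ h := by
  obtain ⟨z, hz⟩ := hn
  rcases nz_or (ent_mero hd) with h1 | h1
  · exact h1
  · exfalso
    have h2 : ∀ᶠ w in 𝓝[≠] z, h w ≠ 0 :=
      (hd.continuous.continuousAt.eventually_ne hz).filter_mono nhdsWithin_le_nhds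
    obtain ⟨w, h3, h4⟩ := ((codis_ev h1 z).and h2).exists
    exact h4 h3

/-- the multiplicity of a zero -/
theorem div_ge {h : ℂ → ℂ} (hd : Differentiable ℂ h) (hn : ∃ z, h z ≠ 0) {m : ℕ} {z : ℂ}
    (hm : (m : ℕ∞) ≤ analyticOrderAt h z) : (m : ℤ) ≤ (divisor h univ)⁺ z := by
  have hnz := ent_nz hd hn z
  have e0 : (divisor h univ)⁺ z = (divisor h univ z)⁺ := rfl
  rw [e0, divisor_apply (ent_mero hd).meromorphicOn (mem_univ z)]
  have h1 : meromorphicOrderAt h z = (analyticOrderAt h z).map (↑) :=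
    (hd.analyticAt z).meromorphicOrderAt_eq
  lift meromorphicOrderAt h z to ℤ using hnz with n hn'
  rw [WithTop.untop₀_coe]
  cases h4 : analyticOrderAt h z with
  | top =>
    rw [h4] at h1
    exact absurd h1 (by simp)
  | coe k =>
    rw [h4] at h1 hm
    have h5 : (n : WithTop ℤ) = ((k : ℤ) : WithTop ℤ) := h1
    have h6 : n = k := by exact_mod_cast h5
    have h7 : m ≤ k := by exact_mod_cast hm
    rw [h6, posPart_of_nonneg (by omega)]
    exact_mod_cast h7

/-- if at each zero of `h` one of the functions `g j` has a zero of high multiplicity then `h` has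
few zeros -/
theorem Nb_le_of_mult {J : Type} (s : Finset J) {h : ℂ → ℂ} {g : J → ℂ → ℂ}
    (hd : Differentiable ℂ h) (hn : ∃ z, h z ≠ 0) (hgd : ∀ j ∈ s, Differentiable ℂ (g j))
    (hgn : ∀ j ∈ s, ∃ z, g j z ≠ 0) {m : ℕ}
    (hm : ∀ z, h z = 0 → ∃ j ∈ s, (m : ℕ∞) ≤ analyticOrderAt (g j) z) {r : ℝ} (hr : 1 ≤ r) :
    m * Nb h r ≤ ∑ j ∈ s, ValueDistribution.logCounting (g j) 0 r := by
  classical
  set F := (zeros_finite hd hn r).toFinset with hF
  have hF' : ∀ z, z ∈ F ↔ h z = 0 ∧ ‖z‖ ≤ r := fun z => by rw [hF, Set.Finite.mem_toFinset]; rfl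
  have hlog : ∀ z : ℂ, ‖z‖ ≤ r → 0 ≤ Real.log (r * ‖z‖⁻¹) := by
    intro z hz
    rcases eq_or_ne z 0 with rfl | h
    · simp
    · apply Real.log_nonneg
      have : 0 < ‖z‖ := norm_pos_iff.2 h
      rw [← div_eq_mul_inv, one_le_div this]
      exact hz
  obtain ⟨D, hD⟩ : ∃ D : J → locallyFinsupp ℂ ℤ, D = fun j => (divisor (g j) univ)⁺ := ⟨_, rfl⟩
  have hD0 : ∀ j z, (0 : ℝ) ≤ D j z := by
    intro j z
    rw [hD]
    have : 0 ≤ (divisor (g j) univ z)⁺ := posPart_nonneg _
    exact_mod_cast this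
  have h1 : ∑ j ∈ s, (∑ u ∈ F, (D j u : ℝ) * Real.log (r * ‖u‖⁻¹) + D j 0 * Real.log r) ≤
      ∑ j ∈ s, ValueDistribution.logCounting (g j) 0 r := by
    refine Finset.sum_le_sum fun j _ => ?_
    have h2 := count_ge (D := D j) (by rw [hD]; exact posPart_nonneg _) hr F
      fun u hu => ((hF' u).1 hu).2
    rw [logCounting_zero]
    rw [hD] at h2 ⊢
    exact h2
  refine le_trans ?_ h1
  rw [Nb_eq r F hF', Finset.sum_add_distrib, Finset.sum_comm, mul_add, Finset.mul_sum]
  have hkey : ∀ z, h z = 0 → (m : ℝ) ≤ ∑ j ∈ s, (D j z : ℝ) := by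
    intro z hz
    obtain ⟨j, hj, hmj⟩ := hm z hz
    have h3 : (m : ℝ) ≤ D j z := by
      rw [hD]
      exact_mod_cast div_ge (hgd j hj) (hgn j hj) hmj
    exact h3.trans (Finset.single_le_sum (f := fun j => (D j z : ℝ)) (fun i _ => hD0 i z) hj)
  apply add_le_add
  · refine Finset.sum_le_sum fun z hz => ?_
    rw [← Finset.sum_mul]
    exact mul_le_mul_of_nonneg_right (hkey z ((hF' z).1 hz).1) (hlog z ((hF' z).1 hz).2)
  · rw [← Finset.sum_mul, ← mul_assoc]
    apply mul_le_mul_of_nonneg_right _ (Real.log_nonneg hr)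
    by_cases h0 : h 0 = 0
    · rw [Set.indicator_of_mem (show (0 : ℂ) ∈ {z : ℂ | h z = 0} from h0), Pi.one_apply, mul_one]
      exact hkey 0 h0
    · rw [Set.indicator_of_notMem (show (0 : ℂ) ∉ {z : ℂ | h z = 0} from h0), mul_zero]
      exact Finset.sum_nonneg fun j _ => hD0 j 0

/-- the first main theorem -/
theorem fmt {J : Type} [Fintype J] {f : J → ℂ → ℂ} (hf : ∀ j, Differentiable ℂ (f j))
    (h0 : ∀ z, ∃ j, f j z ≠ 0) {h : ℂ → ℂ} (hd : Differentiable ℂ h) (hn : ∃ z, h z ≠ 0) {e : ℕ}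
    {κ : ℝ} (hκ : 0 < κ) (hb : ∀ z, ‖h z‖ ≤ κ * ‖(fun j => f j z : J → ℂ)‖ ^ e) :
    ∃ C : ℝ, ∀ r, 1 ≤ r → ValueDistribution.logCounting h 0 r ≤ e * Tf f r + C := by
  have hml := ent_mero hd
  have hne := (ent_nz hd hn).ne hml
  refine ⟨Real.log κ - Real.log ‖meromorphicTrailingCoeffAt h 0‖, fun r hr => ?_⟩
  have h1 := logCounting_zero_sub_logCounting_top_eq_circleAverage_sub_const hml
    (show r ≠ 0 by positivity)
  have h2 : ValueDistribution.logCounting h ⊤ = 0 := by
    rw [logCounting_top]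
    have : (divisor h univ)⁻ = 0 := by
      rw [negPart_eq_zero]
      intro z
      rw [divisor_apply hml.meromorphicOn (mem_univ z)]
      have h1 := (hd.analyticAt z).meromorphicOrderAt_nonneg
      show 0 ≤ _
      rcases eq_or_ne (meromorphicOrderAt h z) ⊤ with h6 | h6
      · rw [h6]; simp
      · lift meromorphicOrderAt h z to ℤ using h6 with n
        rw [WithTop.untop₀_coe]
        exact_mod_cast h1
    rw [this, map_zero]
  rw [h2, sub_zero] at h1
  have h3 : Real.circleAverage (fun z => Real.log ‖h z‖) 0 r ≤ Real.log κ + e * Tf f r := by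
    have h4 : CircleIntegrable (fun z => Real.log ‖fun j => f j z‖) 0 r := curve_int hf h0 r
    have h4' : CircleIntegrable (fun z => (e : ℝ) * Real.log ‖fun j => f j z‖) 0 r := by
      have h5 := h4.const_smul (a := (e : ℝ))
      exact h5
    have h5 : Real.log κ + e * Tf f r =
        Real.circleAverage (fun z => Real.log κ + (e : ℝ) * Real.log ‖fun j => f j z‖) 0 r := by
      rw [Real.circleAverage_fun_add (circleIntegrable_const _ _ _) h4']
      have e1 : Real.circleAverage (fun _ : ℂ => Real.log κ) 0 r = Real.log κ :=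
        Real.circleAverage_const _ _ _
      have e2 : Real.circleAverage (fun z => (e : ℝ) * Real.log ‖fun j => f j z‖) 0 r =
          e * Tf f r := by
        have := Real.circleAverage_fun_smul (a := (e : ℝ)) (f := fun z : ℂ =>
          Real.log ‖fun j => f j z‖) (c := 0) (R := r)
        unfold Tf
        simpa [smul_eq_mul] using this
      rw [e1, e2]
    rw [h5]
    apply Pool.Agent.Helper160.Nev.circleAverage_mono_codiscrete (by positivity)
    · exact hml.meromorphicOn.circleIntegrable_log_norm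
    · exact (circleIntegrable_const _ _ _).add h4'
    · have h6 : ∀ᶠ z in codiscreteWithin (sphere (0 : ℂ) |r|), h z ≠ 0 :=
        hne.filter_mono (codiscreteWithin_mono (subset_univ _))
      filter_upwards [h6] with z hz
      have h7 := Real.log_le_log (norm_pos_iff.2 hz) (hb z)
      rw [Real.log_mul hκ.ne' (pow_ne_zero _ (curve_pos h0 z).ne'), Real.log_pow] at h7
      exact h7
  linarith

/-- a form is bounded by the power of the norm -/
theorem form_bound {M : ℕ} {q : ℕ} {d : Fin q → ℕ} (t : Idx M d → ℂ) (b : Fin q) :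
    ∃ κ : ℝ, 0 < κ ∧ ∀ x : Fin (M + 1) → ℂ, ‖fv t x b‖ ≤ κ * ‖x‖ ^ d b := by
  refine ⟨∑ β : Mon M (d b), ‖t ⟨b, β⟩‖ + 1, by
    have : 0 ≤ ∑ β : Mon M (d b), ‖t ⟨b, β⟩‖ := Finset.sum_nonneg fun _ _ => norm_nonneg _
    linarith, fun x => ?_⟩
  have h1 : ‖fv t x b‖ ≤ ∑ β : Mon M (d b), ‖t ⟨b, β⟩‖ * ‖x‖ ^ d b := by
    unfold fv
    refine (norm_sum_le _ _).trans (Finset.sum_le_sum fun β _ => ?_)
    rw [norm_mul]
    refine mul_le_mul_of_nonneg_left ?_ (norm_nonneg _)
    unfold val
    rw [norm_prod]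
    have h2 : ∑ i, β.1 i = d b := by
      have h3 := β.2
      rw [Finsupp.degree_eq_sum] at h3
      exact h3
    have h4 : ‖x‖ ^ d b = ∏ i, ‖x‖ ^ β.1 i := by rw [Finset.prod_pow_eq_pow_sum, h2]
    rw [h4]
    refine Finset.prod_le_prod (fun i _ => norm_nonneg _) fun i _ => ?_
    rw [norm_pow]
    exact pow_le_pow_left₀ (norm_nonneg _) (norm_le_pi_norm x i) _
  rw [← Finset.sum_mul] at h1
  have h2 : 0 ≤ ‖x‖ ^ d b := by positivity
  nlinarith

/-- the zeros of a periodic function -/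
theorem count_exp {u : ℂ → ℂ} (hu : Differentiable ℂ u) (hn : ∃ z, u (Complex.exp z) ≠ 0) {w : ℂ}
    (hw : u (Complex.exp w) = 0) (K : ℕ) :
    ∃ C : ℝ, ∀ r, 1 ≤ r → K * Real.log r - C ≤
      ValueDistribution.logCounting (fun z => u (Complex.exp z)) 0 r + 0 := by
  classical
  have hd : Differentiable ℂ fun z => u (Complex.exp z) := hu.comp Complex.differentiable_exp
  obtain ⟨p, hp⟩ : ∃ p : ℕ → ℂ, p = fun k : ℕ => w + (k : ℂ) * (2 * Real.pi * Complex.I) :=
    ⟨_, rfl⟩
  have hpi : Function.Injective p := by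
    intro a b hab
    rw [hp] at hab
    simp only at hab
    have h1 : ((a : ℂ) - b) * (2 * Real.pi * Complex.I) = 0 := by linear_combination hab
    have h2 : (2 * Real.pi * Complex.I : ℂ) ≠ 0 := Complex.two_pi_I_ne_zero
    have h3 := (mul_eq_zero.1 h1).resolve_right h2
    exact_mod_cast sub_eq_zero.1 h3
  have hpz : ∀ k, u (Complex.exp (p k)) = 0 := by
    intro k
    have h1 : Complex.exp (p k) = Complex.exp w := by
      rw [hp]
      exact Complex.exp_periodic.nat_mul k w
    rw [h1, hw]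
  obtain ⟨G, hG⟩ : ∃ G : Finset ℂ, G = (Finset.range K).image p := ⟨_, rfl⟩
  have hGc : G.card = K := by rw [hG, Finset.card_image_of_injective _ hpi, Finset.card_range]
  obtain ⟨R, hR⟩ : ∃ R : ℝ, ∀ u ∈ G, ‖u‖ ≤ R := by
    refine ⟨∑ u ∈ G, ‖u‖, fun u hu => ?_⟩
    exact Finset.single_le_sum (f := fun u => ‖u‖) (fun _ _ => norm_nonneg _) hu
  obtain ⟨Z, hZ⟩ : ∃ Z : ℝ, Z = ∑ u ∈ G, |Real.log ‖u‖| := ⟨_, rfl⟩
  have hZ0 : 0 ≤ Z := by rw [hZ]; exact Finset.sum_nonneg fun _ _ => abs_nonneg _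
  refine ⟨Z + K * Real.log (max R 1), fun r hr => ?_⟩
  rw [add_zero]
  have hlr := Real.log_nonneg hr
  by_cases hrR : R ≤ r
  · have h1 := count_ge (D := (divisor (fun z => u (Complex.exp z)) univ)⁺) (posPart_nonneg _) hr G
      fun u hu => (hR u hu).trans hrR
    rw [logCounting_zero]
    refine le_trans ?_ h1
    have hD : ∀ v ∈ G, (1 : ℝ) ≤ (divisor (fun z => u (Complex.exp z)) univ)⁺ v := by
      intro v hv
      rw [hG, Finset.mem_image] at hv
      obtain ⟨k, -, rfl⟩ := hv
      have h2 : ((1 : ℕ) : ℕ∞) ≤ analyticOrderAt (fun z => u (Complex.exp z)) (p k) := by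
        rw [Nat.cast_one]
        exact Order.one_le_iff_ne_zero.2 ((hd.analyticAt _).analyticOrderAt_ne_zero.2 (hpz k))
      exact_mod_cast div_ge hd hn h2
    have hD0 : (0 : ℝ) ≤ (divisor (fun z => u (Complex.exp z)) univ)⁺ 0 := by
      have : 0 ≤ ((divisor (fun z => u (Complex.exp z)) univ) 0)⁺ := posPart_nonneg _
      exact_mod_cast this
    have h3 : ∑ v ∈ G, (Real.log r - |Real.log ‖v‖|) ≤
        ∑ v ∈ G, ((divisor (fun z => u (Complex.exp z)) univ)⁺ v : ℝ) * Real.log (r * ‖v‖⁻¹) +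
          (divisor (fun z => u (Complex.exp z)) univ)⁺ 0 * Real.log r := by
      by_cases h0 : (0 : ℂ) ∈ G
      · -- the origin
        rw [← Finset.add_sum_erase G _ h0, ← Finset.add_sum_erase G
          (fun v => ((divisor (fun z => u (Complex.exp z)) univ)⁺ v : ℝ) * Real.log (r * ‖v‖⁻¹)) h0]
        have h5 : ∑ v ∈ G.erase 0, (Real.log r - |Real.log ‖v‖|) ≤ ∑ v ∈ G.erase 0,
            ((divisor (fun z => u (Complex.exp z)) univ)⁺ v : ℝ) * Real.log (r * ‖v‖⁻¹) := by
          refine Finset.sum_le_sum fun v hv => ?_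
          have hv' := Finset.mem_of_mem_erase hv
          have hv0 : 0 < ‖v‖ := norm_pos_iff.2 (Finset.ne_of_mem_erase hv)
          have h6 : 0 ≤ Real.log (r * ‖v‖⁻¹) := by
            apply Real.log_nonneg
            rw [← div_eq_mul_inv, one_le_div hv0]
            exact (hR v hv').trans hrR
          have h7 : Real.log (r * ‖v‖⁻¹) = Real.log r - Real.log ‖v‖ := by
            rw [Real.log_mul (by positivity) (by positivity), Real.log_inv]
            ring
          have h8 := le_abs_self (Real.log ‖v‖)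
          have h9 := hD v hv'
          nlinarith
        have h6 := hD 0 h0
        simp only [norm_zero, inv_zero, mul_zero, Real.log_zero, abs_zero, sub_zero, zero_add]
        nlinarith
      · have h5 : ∑ v ∈ G, (Real.log r - |Real.log ‖v‖|) ≤ ∑ v ∈ G,
            ((divisor (fun z => u (Complex.exp z)) univ)⁺ v : ℝ) * Real.log (r * ‖v‖⁻¹) := by
          refine Finset.sum_le_sum fun v hv => ?_
          have hv0 : 0 < ‖v‖ := norm_pos_iff.2 fun h => h0 (h ▸ hv)
          have h6 : 0 ≤ Real.log (r * ‖v‖⁻¹) := by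
            apply Real.log_nonneg
            rw [← div_eq_mul_inv, one_le_div hv0]
            exact (hR v hv).trans hrR
          have h7 : Real.log (r * ‖v‖⁻¹) = Real.log r - Real.log ‖v‖ := by
            rw [Real.log_mul (by positivity) (by positivity), Real.log_inv]
            ring
          have h8 := le_abs_self (Real.log ‖v‖)
          have h9 := hD v hv
          nlinarith
        nlinarith [mul_nonneg hD0 hlr]
    rw [Finset.sum_sub_distrib, Finset.sum_const, hGc, nsmul_eq_mul, ← hZ] at h3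
    have h4 : 0 ≤ K * Real.log (max R 1) :=
      mul_nonneg (Nat.cast_nonneg _) (Real.log_nonneg (le_max_right _ _))
    linarith
  · push Not at hrR
    have h1 : 0 ≤ ValueDistribution.logCounting (fun z => u (Complex.exp z)) 0 r :=
      logCounting_nonneg hr
    have h2 : Real.log r ≤ Real.log (max R 1) :=
      Real.log_le_log (by linarith) (hrR.le.trans (le_max_left _ _))
    have h3 := mul_le_mul_of_nonneg_left h2 (Nat.cast_nonneg (α := ℝ) K)
    linarith

end Run7.h493.TS
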