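import Pool.Agent.Run7.h493.TS.Orb

/-!
Curves which meet general divisors with high multiplicities are constant.
-/

set_option autoImplicit false

namespace Run7.h493.TS

open MeasureTheory Filter Topology Metric Set MvPolynomial Function
open Pool.Agent.N131.SR (Nb Nb_nonneg)
open Pool.Agent.NH29.GN (Idx Mon fv val)
open Run7.h493.PS (MultiHom)

variable {M q : ℕ} {d : Fin q → ℕ}

/-- constant coefficients -/
def kt (t : Idx M d → ℂ) (s : Idx M d) : ℂ → ℂ := fun _ => t s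

/-- **Curves with high multiplicities.** -/
theorem orb {k : Type} [Field k] [Algebra k ℂ] {V : Set (MvPolynomial (Fin (M + 1)) k)}
    {Φ : MvPolynomial (Idx M d) k} {mm : Fin q → ℕ} (hm : MultiHom Φ mm) (hΦ : AllNB k V Φ) :
    ∃ m₀ : ℕ, ∀ t : Idx M d → ℂ, aeval t Φ ≠ 0 → ∀ f : Fin (M + 1) → ℂ → ℂ,
      (∀ i, Differentiable ℂ (f i)) → (∀ z, ∃ i, f i z ≠ 0) →
      (∀ z, ∀ H ∈ V, aeval (fun i => f i z) H = 0) →
      (∀ z, (∃ b, (∃ w, hh (kt t) f b w ≠ 0) ∧ hh (kt t) f b z = 0) →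
        ∃ b, (∃ w, hh (kt t) f b w ≠ 0) ∧ (m₀ : ℕ∞) ≤ analyticOrderAt (hh (kt t) f b) z) →
      ∀ z w i j, f i z * f j w = f j z * f i w := by
  classical
  have hA : ∀ C : Finset (Fin q), ∃ A : ℕ, C ≠ Finset.univ →
      ∀ (t : Idx M d → ℂ → ℂ) (f : Fin (M + 1) → ℂ → ℂ), DtC V C Φ t f →
        ∃ E : Set ℝ, volume E < ⊤ ∧ ∀ r, 1 ≤ r → r ∉ E → Tf f r ≤ A * rhs C t f r := by
    intro C
    by_cases hC : C = Finset.univ
    · exact ⟨0, fun h => absurd hC h⟩
    · obtain ⟨A, hA⟩ := tsm hm hΦ C hC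
      exact ⟨A, fun _ => hA⟩
  choose A hA using hA
  obtain ⟨B, hB⟩ : ∃ B : ℕ, B = ∑ C, A C := ⟨_, rfl⟩
  have hAB : ∀ C, A C ≤ B := fun C => by
    rw [hB]
    exact Finset.single_le_sum (f := A) (fun _ _ => Nat.zero_le _) (Finset.mem_univ C)
  refine ⟨2 * B * (q * ∑ b, d b) + 1, fun t ht f hf h0 hV hmu => ?_⟩
  obtain ⟨m, hmdef⟩ : ∃ m : ℕ, m = 2 * B * (q * ∑ b, d b) + 1 := ⟨_, rfl⟩
  rw [← hmdef] at hmu
  -- the constant maps
  obtain ⟨l, hl⟩ := h0 1
  obtain ⟨u, hu⟩ : ∃ u : Fin (M + 1) → ℂ → ℂ, u = fun i z => f i z * f l 1 - f l z * f i 1 :=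
    ⟨_, rfl⟩
  have hud : ∀ i, Differentiable ℂ (u i) := fun i => by
    rw [hu]
    exact ((hf i).mul_const _).sub ((hf l).mul_const _)
  by_cases hall : ∀ i z, u i z = 0
  · have h1 : ∀ i z, f i z = f l z * (f i 1 / f l 1) := by
      intro i z
      have h2 := hall i z
      rw [hu] at h2
      field_simp
      linear_combination h2
    intro z w i j
    rw [h1 i z, h1 j w, h1 j z, h1 i w]
    ring
  exfalso
  push Not at hall
  obtain ⟨i, z₀, hz₀⟩ := hall
  -- composition with the exponential function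
  obtain ⟨g, hg⟩ : ∃ g : Fin (M + 1) → ℂ → ℂ, g = fun i z => f i (Complex.exp z) := ⟨_, rfl⟩
  have hgd : ∀ i, Differentiable ℂ (g i) := fun i => by
    rw [hg]
    exact (hf i).comp Complex.differentiable_exp
  have hg0 : ∀ z, ∃ i, g i z ≠ 0 := fun z => by
    rw [hg]
    exact h0 _
  have hgh : ∀ b, hh (kt t) g b = hh (kt t) f b ∘ Complex.exp := by
    intro b
    rw [hg]
    rfl
  have htd : ∀ s, Differentiable ℂ (kt t s) := fun s => differentiable_const _
  have hfd := fun b => hh_diff htd hf b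
  have hgbd := fun b => hh_diff htd hgd b
  -- entire functions which vanish on the range of the exponential function
  have hexp : ∀ v : ℂ → ℂ, Differentiable ℂ v → (∀ z, v (Complex.exp z) = 0) → ∀ z, v z = 0 := by
    intro v hv h
    have h1 : ∀ z, z ≠ 0 → v z = 0 := fun z hz => by
      rw [← Complex.exp_log hz]
      exact h _
    intro z
    by_cases hz : z = 0
    · subst hz
      have h2 : Tendsto v (𝓝[≠] 0) (𝓝 (v 0)) :=
        hv.continuous.continuousAt.tendsto.mono_left nhdsWithin_le_nhds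
      have h3 : Tendsto v (𝓝[≠] 0) (𝓝 0) := by
        refine tendsto_const_nhds.congr' ?_
        filter_upwards [self_mem_nhdsWithin] with w hw
        exact (h1 w hw).symm
      exact tendsto_nhds_unique h2 h3
    · exact h1 z hz
  obtain ⟨C, hC⟩ : ∃ C : Finset (Fin q), C = Finset.univ.filter fun b => ∀ z, hh (kt t) f b z = 0 :=
    ⟨_, rfl⟩
  have hmem : ∀ b, b ∉ C ↔ ∃ z, hh (kt t) f b z ≠ 0 := by
    intro b
    rw [hC, Finset.mem_filter]
    push Not
    exact ⟨fun h => h (Finset.mem_univ b), fun h _ => h⟩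
  have hmem' : ∀ b, b ∉ C → ∃ z, hh (kt t) g b z ≠ 0 := by
    intro b hb
    by_contra hcon
    push Not at hcon
    obtain ⟨z, hz⟩ := (hmem b).1 hb
    refine hz (hexp _ (hfd b) (fun w => ?_) z)
    have := hcon w
    rwa [hgh] at this
  have hCu : C ≠ Finset.univ := by
    intro h
    obtain ⟨i, hi⟩ := h0 0
    apply hi
    have h1 := (hΦ ℂ t ht).ncz (fun i => f i 0) (hV 0) (fun b => by
      have h2 : b ∈ C := by rw [h]; exact Finset.mem_univ b
      rw [hC, Finset.mem_filter] at h2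
      exact h2.2 0)
    exact congrFun h1 i
  -- the data
  have hD : DtC V C Φ (kt t) g := by
    refine ⟨htd, fun b _ => (hΦ ℂ t ht).nz b, hgd, hg0, fun z H hH => ?_, fun c hc z => ?_, hmem',
      ⟨0, ht⟩⟩
    · rw [hg]
      exact hV (Complex.exp z) H hH
    · rw [hC, Finset.mem_filter] at hc
      rw [hgh]
      exact hc.2 _
  obtain ⟨E, hE, hineq⟩ := hA C hCu (kt t) g hD
  -- the parts of the right hand side
  obtain ⟨c₀, hc₀⟩ : ∃ c₀ : ℝ, c₀ = ∑ b, Real.log ‖(fun β : Mon M (d b) => t ⟨b, β⟩)‖ := ⟨_, rfl⟩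
  have hT : ∀ r, ∑ b, Tf (fun β : Mon M (d b) => kt t ⟨b, β⟩) r = c₀ := by
    intro r
    rw [hc₀]
    refine Finset.sum_congr rfl fun b _ => ?_
    unfold Tf kt
    exact Real.circleAverage_const _ _ _
  have hfmt : ∀ b, ∃ B : ℝ, b ∉ C → ∀ r, 1 ≤ r →
      ValueDistribution.logCounting (hh (kt t) g b) 0 r ≤ d b * Tf g r + B := by
    intro b
    by_cases hb : b ∈ C
    · exact ⟨0, fun h => absurd hb h⟩
    · obtain ⟨κ, hκ, hκb⟩ := form_bound t b
      obtain ⟨B, hB⟩ := fmt hgd hg0 (hgbd b) (hmem' b hb) hκ fun z => hκb fun i => g i z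
      exact ⟨B, fun _ => hB⟩
  choose B₁ hB₁ using hfmt
  -- the growth
  obtain ⟨K, hK⟩ : ∃ K : ℕ, K = 2 * A C + 1 := ⟨_, rfl⟩
  have hgrow : ∃ B₂ : ℝ, ∀ r, 1 ≤ r → K * Real.log r - B₂ ≤ Tf g r := by
    have hun : ∃ z, u i (Complex.exp z) ≠ 0 := by
      by_contra hcon
      push Not at hcon
      exact hz₀ (hexp _ (hud i) hcon z₀)
    have hu1 : u i (Complex.exp 0) = 0 := by
      rw [Complex.exp_zero, hu]
      ring
    obtain ⟨B₂, hB₂⟩ := count_exp (hud i) hun hu1 K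
    have hκ : (0 : ℝ) < ‖f l 1‖ + ‖f i 1‖ := by
      have := norm_pos_iff.2 hl
      positivity
    obtain ⟨B₃, hB₃⟩ := fmt (e := 1) hgd hg0 ((hud i).comp Complex.differentiable_exp) hun hκ (by
      intro z
      have h1 : (u i ∘ Complex.exp) z = g i z * f l 1 - g l z * f i 1 := by rw [hu, hg]; rfl
      rw [h1, pow_one]
      have h2 := norm_le_pi_norm (fun j => g j z) i
      have h3 := norm_le_pi_norm (fun j => g j z) l
      have h4 := norm_sub_le (g i z * f l 1) (g l z * f i 1)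
      rw [norm_mul, norm_mul] at h4
      have h5 := mul_le_mul_of_nonneg_right h2 (norm_nonneg (f l 1))
      have h6 := mul_le_mul_of_nonneg_right h3 (norm_nonneg (f i 1))
      nlinarith)
    refine ⟨B₂ + B₃, fun r hr => ?_⟩
    have h1 := hB₂ r hr
    have h2 := hB₃ r hr
    have h3 : ValueDistribution.logCounting (u i ∘ Complex.exp) 0 r =
        ValueDistribution.logCounting (fun z => u i (Complex.exp z)) 0 r := rfl
    rw [h3] at h2
    push_cast at h2
    linarith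
  obtain ⟨B₂, hB₂⟩ := hgrow
  -- the truncated counting functions
  obtain ⟨B₄, hB₄⟩ : ∃ B₄ : ℝ, B₄ = ∑ b, |B₁ b| := ⟨_, rfl⟩
  have hB₄0 : 0 ≤ B₄ := by rw [hB₄]; exact Finset.sum_nonneg fun _ _ => abs_nonneg _
  have hNb : ∀ r, 1 ≤ r → 0 ≤ Tf g r → ∀ b, b ∉ C →
      m * Nb (hh (kt t) g b) r ≤ ((∑ b, d b : ℕ) : ℝ) * Tf g r + B₄ := by
    intro r hr hT0 b hb
    have h1 := Nb_le_of_mult (Finset.univ.filter fun b => b ∉ C) (h := hh (kt t) g b)
      (g := fun b => hh (kt t) g b) (hgbd b) (hmem' b hb) (fun b _ => hgbd b)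
      (fun b' hb' => hmem' b' (Finset.mem_filter.1 hb').2) (m := m) (fun z hz => by
        have h2 : hh (kt t) f b (Complex.exp z) = 0 := by
          have h3 := hz
          rw [hgh] at h3
          exact h3
        obtain ⟨b', h3, h4⟩ := hmu (Complex.exp z) ⟨b, (hmem b).1 hb, h2⟩
        refine ⟨b', Finset.mem_filter.2 ⟨Finset.mem_univ _, (hmem b').2 h3⟩, ?_⟩
        rw [hgh, analyticOrderAt_comp_of_deriv_ne_zero (Complex.differentiable_exp.analyticAt z) (by
          rw [Complex.deriv_exp]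
          exact Complex.exp_ne_zero z)]
        exact h4) hr
    refine h1.trans ?_
    have h5 : ∑ b' ∈ Finset.univ.filter (fun b => b ∉ C),
        ValueDistribution.logCounting (hh (kt t) g b') 0 r ≤
        ∑ b' ∈ Finset.univ.filter (fun b => b ∉ C), (d b' * Tf g r + |B₁ b'|) := by
      refine Finset.sum_le_sum fun b' hb' => ?_
      have h6 := hB₁ b' (Finset.mem_filter.1 hb').2 r hr
      have h7 := le_abs_self (B₁ b')
      linarith
    refine h5.trans ?_
    have h6 : ∑ b' ∈ Finset.univ.filter (fun b => b ∉ C), (d b' * Tf g r + |B₁ b'|) ≤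
        ∑ b', (d b' * Tf g r + |B₁ b'|) :=
      Finset.sum_le_sum_of_subset_of_nonneg (Finset.filter_subset _ _) fun b' _ _ => by positivity
    refine h6.trans (le_of_eq ?_)
    rw [Finset.sum_add_distrib, ← Finset.sum_mul, hB₄]
    push_cast
    rfl
  -- a large radius
  obtain ⟨W, hW⟩ : ∃ W : ℝ, W = 2 * (A C * (B₄ * q + |c₀|)) + |B₂| + 1 := ⟨_, rfl⟩
  obtain ⟨r, hr1, hrE, hrW⟩ : ∃ r : ℝ, 1 ≤ r ∧ r ∉ E ∧ W < Real.log r := by
    by_contra hcon
    push Not at hcon
    have h1 : Ioi (Real.exp W ⊔ 1) ⊆ E := by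
      intro r hr
      by_contra hrE
      have h2 : Real.exp W < r := lt_of_le_of_lt (le_max_left _ _) hr
      have h3 : 1 ≤ r := (lt_of_le_of_lt (le_max_right _ _) hr).le
      have h4 := hcon r h3 hrE
      have h5 : W < Real.log r := by
        rw [Real.lt_log_iff_exp_lt (by linarith)]
        exact h2
      linarith
    have h2 := measure_mono (μ := volume) h1
    rw [Real.volume_Ioi] at h2
    exact absurd (lt_of_le_of_lt h2 hE) (lt_irrefl _)
  have hA0 : (0 : ℝ) ≤ A C := Nat.cast_nonneg _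
  have hq0 : (0 : ℝ) ≤ q := Nat.cast_nonneg _
  have hlog0 := Real.log_nonneg hr1
  have h1 := hineq r hr1 hrE
  have h2 := hB₂ r hr1
  have hKr : (K : ℝ) = 2 * A C + 1 := by rw [hK]; push_cast; ring
  have hT0 : 0 ≤ Tf g r := by
    have h3 : |B₂| ≤ Real.log r := by
      have h4 : 0 ≤ 2 * (A C * (B₄ * q + |c₀|)) := by positivity
      linarith
    have h4 := le_abs_self B₂
    rw [hKr] at h2
    nlinarith
  have hmpos : (0 : ℝ) < m := by
    rw [hmdef]
    push_cast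
    positivity
  have hsum : m * ∑ b ∈ Finset.univ.filter (fun b => b ∉ C), Nb (hh (kt t) g b) r ≤
      q * (((∑ b, d b : ℕ) : ℝ) * Tf g r + B₄) := by
    rw [Finset.mul_sum]
    have h3 : ∑ b ∈ Finset.univ.filter (fun b => b ∉ C), (m : ℝ) * Nb (hh (kt t) g b) r ≤
        ∑ b ∈ Finset.univ.filter (fun b : Fin q => b ∉ C), (((∑ b, d b : ℕ) : ℝ) * Tf g r + B₄) :=
      Finset.sum_le_sum fun b hb => hNb r hr1 hT0 b (Finset.mem_filter.1 hb).2
    refine h3.trans ?_
    rw [Finset.sum_const, nsmul_eq_mul]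
    have h4 : ((Finset.univ.filter (fun b : Fin q => b ∉ C)).card : ℝ) ≤ q := by
      have h5 := Finset.card_filter_le (Finset.univ : Finset (Fin q)) (fun b => b ∉ C)
      rw [Finset.card_univ, Fintype.card_fin] at h5
      exact_mod_cast h5
    exact mul_le_mul_of_nonneg_right h4 (by positivity)
  unfold rhs at h1
  rw [hT] at h1
  obtain ⟨N, hN⟩ : ∃ N : ℝ, N = ∑ b ∈ Finset.univ.filter (fun b => b ∉ C),
      Nb (hh (kt t) g b) r := ⟨_, rfl⟩
  obtain ⟨D, hDd⟩ : ∃ D : ℝ, D = ((∑ b, d b : ℕ) : ℝ) := ⟨_, rfl⟩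
  obtain ⟨T, hTT⟩ : ∃ T : ℝ, T = Tf g r := ⟨_, rfl⟩
  have hm1 : (m : ℝ) = 2 * B * (q * D) + 1 := by rw [hmdef, hDd]; push_cast; ring
  rw [← hN] at h1 hsum
  rw [← hDd] at hsum
  rw [← hTT] at h1 h2 hT0 hsum
  have hABr : (A C : ℝ) ≤ B := by exact_mod_cast hAB C
  have hD0 : 0 ≤ D := by rw [hDd]; positivity
  have hN0 : 0 ≤ N := by rw [hN]; exact Finset.sum_nonneg fun b _ => Nb_nonneg hr1
  -- `A N ≤ T / 2 + A q B₄`
  have h3 : A C * N ≤ T / 2 + A C * (q * B₄) := by
    have e1 : (m : ℝ) * (A C * N) ≤ A C * (q * (D * T + B₄)) := by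
      have := mul_le_mul_of_nonneg_left hsum hA0
      nlinarith
    have e2 : A C * (q * (D * T + B₄)) ≤ m * (T / 2 + A C * (q * B₄)) := by
      rw [hm1]
      have e3 : 0 ≤ q * D * T := by positivity
      have e4 : A C * (q * D * T) ≤ B * (q * D * T) := mul_le_mul_of_nonneg_right hABr e3
      have e5 : 0 ≤ A C * (q * B₄) := by positivity
      have e6 : 0 ≤ 2 * (B : ℝ) * (q * D) := by positivity
      nlinarith [mul_nonneg e6 e5]
    exact le_of_mul_le_mul_left (e1.trans e2) hmpos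
  have h4 := le_abs_self c₀
  have h5 := le_abs_self B₂
  have h6 : A C * c₀ ≤ A C * |c₀| := mul_le_mul_of_nonneg_left h4 hA0
  rw [hKr] at h2
  -- `T ≤ 2 A (q B₄ + |c₀| + log r)`
  have h7 : T ≤ 2 * (A C * (q * B₄)) + 2 * (A C * |c₀|) + 2 * A C * Real.log r := by
    nlinarith
  nlinarith

end Run7.h493.TS
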